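import Pool.Agent.ITA.Ds

/-!
# ITA: the flow equation on the descendants of a vertex

`co v b g` is the coefficient of the flow on the edge of type `b` at `v`. The flow equations at the descendants of `j`
are added; the edge chosen by `F` at `v` only counts for `v = j`, the other edge has the factor `QQ f p F v j`.
-/

set_option autoImplicit false

namespace ITA

open Finset
open scoped Classical

variable {V : Type} {f p : V → V} {r : V} {F : V → Bool}

/-- coefficients of the flow on the edge of type `b` at `v` -/
def co {G : Type} [Group G] (f : V → V) (x : V → G) (c : V → G → ℤ) (v : V) (b : Bool) (g : G) : ℤ :=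
  if b then c v (g * (x (f v))⁻¹) else c v g - c v (g * (x (f v))⁻¹)

private theorem Ca_co {G : Type} [Group G] (x : V → G) (c : V → G → ℤ) (v : V) (g : G) :
    c v g = co f x c v true g + co f x c v false g := by
  unfold co
  rw [if_pos rfl, if_neg Bool.false_ne_true]
  ring

private theorem Ca_sum [Fintype V] [DecidableEq V] (P : V → Prop) (w : V) (a : ℤ) :
    ∑ u ∈ univ.filter P, (if w = u then a else 0) = ind (P w) * a := by
  rw [Finset.sum_ite_eq]
  unfold ind
  by_cases h : P w
  · rw [if_pos h, if_pos (Finset.mem_filter.2 ⟨mem_univ _, h⟩), one_mul]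
  · rw [if_neg h, if_neg (fun h1 => h (Finset.mem_filter.1 h1).2), zero_mul]

theorem flow_desc [Fintype V] [DecidableEq V] (hD : Dat f p r) (hF : Acyc f p r F) {G : Type}
    [Group G] (x : V → G) (c : V → G → ℤ)
    (hc : ∀ w, w ≠ r → ∀ g, c w g = ∑ v ∈ univ.erase r,
      ((if f v = w then c v g - c v (g * (x (f v))⁻¹) else 0) +
        (if p v = w then c v (g * (x (f v))⁻¹) else 0))) {j : V} (hj : j ≠ r) (g : G) :
    co f x c j (F j) g + ∑ v ∈ univ.erase r, QQ f p F v j * co f x c v (!F v) g = 0 := by
  have hr : ¬ Desc f p F j r := fun h => hj (desc_of_root hD h)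
  have e1 : ∑ w ∈ univ.filter (Desc f p F j), c w g = ∑ v ∈ univ.erase r,
      (ind (Desc f p F j (f v)) * co f x c v false g + ind (Desc f p F j (p v)) * co f x c v true g) := by
    have h1 : ∀ w ∈ univ.filter (Desc f p F j), c w g = ∑ v ∈ univ.erase r,
        ((if f v = w then co f x c v false g else 0) + (if p v = w then co f x c v true g else 0)) := by
      intro w hw
      have hw' : w ≠ r := by
        rintro rfl
        exact hr (Finset.mem_filter.1 hw).2
      rw [hc w hw' g]
      refine Finset.sum_congr rfl fun v _ => ?_
      unfold co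
      rw [if_pos rfl, if_neg Bool.false_ne_true]
    rw [Finset.sum_congr rfl h1, Finset.sum_comm]
    refine Finset.sum_congr rfl fun v _ => ?_
    rw [Finset.sum_add_distrib, Ca_sum, Ca_sum]
  have e2 : ∑ w ∈ univ.filter (Desc f p F j), c w g = ∑ v ∈ univ.erase r,
      ind (Desc f p F j v) * (co f x c v true g + co f x c v false g) := by
    rw [Finset.sum_filter]
    have h2 : ∀ v : V, (if Desc f p F j v then c v g else 0) =
        ind (Desc f p F j v) * (co f x c v true g + co f x c v false g) := by
      intro v
      unfold ind
      by_cases h : Desc f p F j v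
      · rw [if_pos h, if_pos h, one_mul, ← Ca_co]
      · rw [if_neg h, if_neg h, zero_mul]
    rw [Finset.sum_congr rfl fun v _ => h2 v, ← Finset.add_sum_erase univ _ (mem_univ r)]
    unfold ind
    rw [if_neg hr, zero_mul, zero_add]
  have e3 : ∀ v : V, ind (Desc f p F j v) * (co f x c v true g + co f x c v false g) -
      (ind (Desc f p F j (f v)) * co f x c v false g + ind (Desc f p F j (p v)) * co f x c v true g) =
      (if v = j then co f x c v (F v) g else 0) + QQ f p F v j * co f x c v (!F v) g := by
    intro v
    have h3 : ind (Desc f p F j v) - ind (Desc f p F j (tg f p F v)) = if v = j then (1 : ℤ) else 0 := by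
      rw [ind_tg hD hF hj v]
      by_cases h : v = j
      · rw [if_pos h, if_pos h]
      · rw [if_neg h, if_neg h]
    unfold QQ
    have h4 : (if v = j then co f x c v (F v) g else 0) = (if v = j then (1 : ℤ) else 0) * co f x c v (F v) g := by
      split_ifs
      · rw [one_mul]
      · rw [zero_mul]
    rw [h4, ← h3]
    cases hb : F v
    · have h5 : tg f p F v = f v := by
        unfold tg hd
        rw [hb, if_neg Bool.false_ne_true]
      have h6 : hd f p (!false) v = p v := by
        unfold hd
        rw [Bool.not_false, if_pos rfl]
      rw [h5, h6, Bool.not_false]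
      ring
    · have h5 : tg f p F v = p v := by
        unfold tg hd
        rw [hb, if_pos rfl]
      have h6 : hd f p (!true) v = f v := by
        unfold hd
        rw [Bool.not_true, if_neg Bool.false_ne_true]
      rw [h5, h6, Bool.not_true]
      ring
  have e4 := e2.symm.trans e1
  rw [← sub_eq_zero, ← Finset.sum_sub_distrib, Finset.sum_congr rfl fun v _ => e3 v,
    Finset.sum_add_distrib, Finset.sum_ite_eq' (univ.erase r) j, if_pos (Finset.mem_erase.2 ⟨hj, mem_univ _⟩)] at e4
  exact e4

end ITA
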