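import Pool.Agent.ITA.Defs

/-!
# ITA: existence of cycles

`cyc_exists`: two iterates of `s` on an element of `J` agree, so some iterate is a periodic point of `s`, and its
orbit, of length the minimal period, is the cycle. `cyc_sum`: telescoping around a cycle. `cyc_len`: the elements of
a cycle are distinct.
-/

set_option autoImplicit false

namespace ITA

open Finset
open scoped Classical

theorem cyc_exists {I : Type} [Finite I] (J : Set I) (hJ : J.Nonempty) (s : I → I)
    (hs : ∀ j ∈ J, s j ∈ J) :
    ∃ (n : ℕ) (x : ℕ → I), Cyc (fun j i => i = s j) n x ∧ ∀ a, x a ∈ J := by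
  obtain ⟨j0, h0⟩ := hJ
  have hit : ∀ k, s^[k] j0 ∈ J := by
    intro k
    induction k with
    | zero => exact h0
    | succ k ih => rw [Function.iterate_succ_apply']; exact hs _ ih
  obtain ⟨a, b, hab, he⟩ := Finite.exists_ne_map_eq_of_infinite fun k : ℕ => s^[k] j0
  wlog hlt : a < b generalizing a b with H
  · exact H b a hab.symm he.symm (lt_of_le_of_ne (not_lt.1 hlt) hab.symm)
  have he : s^[a] j0 = s^[b] j0 := he
  have hper : s^[a] j0 ∈ Function.periodicPts s := by
    refine Function.mk_mem_periodicPts (n := b - a) (Nat.sub_pos_of_lt hlt) ?_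
    show s^[b - a] (s^[a] j0) = s^[a] j0
    rw [← Function.iterate_add_apply, Nat.sub_add_cancel hlt.le, he]
  refine ⟨Function.minimalPeriod s (s^[a] j0), fun k => s^[k] (s^[a] j0), ⟨?_, ?_, ?_, ?_⟩, ?_⟩
  · exact Function.minimalPeriod_pos_of_mem_periodicPts hper
  · intro k hk l hl hkl
    exact Function.iterate_injOn_Iio_minimalPeriod hk hl hkl
  · intro k _
    exact Function.iterate_succ_apply' _ _ _
  · exact Function.isPeriodicPt_minimalPeriod s _
  · intro k
    show s^[k] (s^[a] j0) ∈ J
    rw [← Function.iterate_add_apply]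
    exact hit _

/-- the sum of `g` over the successors is the sum of `g` -/
theorem cyc_sum {I M : Type} [AddCommMonoid M] {R : I → I → Prop} {n : ℕ} {x : ℕ → I}
    (hx : Cyc R n x) (g : I → M) :
    ∑ a ∈ range n, g (x (a + 1)) = ∑ a ∈ range n, g (x a) := by
  obtain ⟨m, rfl⟩ : ∃ m, n = m + 1 := ⟨n - 1, by have := hx.pos; omega⟩
  rw [sum_range_succ, sum_range_succ', hx.close]

/-- a cycle on a finite type with `N` elements has length at most `N` -/
theorem cyc_len {I : Type} [Fintype I] {R : I → I → Prop} {n : ℕ} {x : ℕ → I} (hx : Cyc R n x) :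
    n ≤ Fintype.card I := by
  have h : Function.Injective fun a : Fin n => x a := fun a b hab =>
    Fin.ext (hx.inj a a.2 b b.2 hab)
  simpa using Fintype.card_le_of_injective _ h

end ITA
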