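import Pool.Agent.ITA.Ds
import Pool.Agent.ITA.Ce

/-!
# ITA: nonzero minors give arborescences

If changing the choice of the arborescence `F` at `x 0, ..., x (n - 1)` does not give an arborescence then a cycle of
the new choice gives a null vector of the matrix of crossing numbers `QQ (x a) (x b)`, so its determinant is zero.
-/

set_option autoImplicit false

namespace ITA

open Finset
open scoped Classical

variable {V : Type} {f p : V → V} {r : V} {F : V → Bool}

theorem acyc_of_det [Fintype V] (hD : Dat f p r) (hF : Acyc f p r F) {n : ℕ} {x : ℕ → V}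
    (hx : Inj n x) (hdet : (Matrix.of fun a b : Fin n => QQ f p F (x a) (x b)).det ≠ 0) :
    Acyc f p r (flip F n x) := by
  have hr : ∀ a < n, x a ≠ r := by
    intro a ha h
    refine hdet (Matrix.det_eq_zero_of_row_eq_zero ⟨a, ha⟩ fun b => ?_)
    rw [Matrix.of_apply]
    show QQ f p F (x a) (x b) = 0
    rw [h]
    exact QQ_left hD F _
  refine ⟨?_, ?_⟩
  · unfold flip
    rw [if_neg]
    · exact hF.1
    · rintro ⟨a, ha, h⟩
      exact hr a ha h
  by_contra hcon
  push Not at hcon
  obtain ⟨v0, hv0⟩ := hcon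
  have hflip1 : ∀ v, (∃ a < n, x a = v) → flip F n x v = !F v := fun v hv => by
    unfold flip
    rw [if_pos hv]
  have hflip0 : ∀ v, (¬ ∃ a < n, x a = v) → flip F n x v = F v := fun v hv => by
    unfold flip
    rw [if_neg hv]
  obtain ⟨m, y, hy, hyJ⟩ := cyc_exists {v | ∀ k, (tg f p (flip F n x))^[k] v ≠ r} ⟨v0, hv0⟩
    (tg f p (flip F n x)) (fun j hj k => by
      have h1 := hj (k + 1)
      rwa [Function.iterate_succ_apply] at h1)
  have hyr : ∀ a, y a ≠ r := fun a => hyJ a 0
  set u : Fin n → ℤ := fun a => if ∃ c < m, y c = x a then 1 else 0 with hu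
  have hu0 : u ≠ 0 := by
    intro h0
    have h1 : ∀ a < n, ∀ c < m, y c ≠ x a := by
      intro a ha c hc h
      have h2 := congrFun h0 ⟨a, ha⟩
      rw [hu] at h2
      simp only [Pi.zero_apply] at h2
      rw [if_pos ⟨c, hc, h⟩] at h2
      exact one_ne_zero h2
    have h2 : ∀ c < m, y (c + 1) = tg f p F (y c) := by
      intro c hc
      have h3 := hy.arc c hc
      rw [h3]
      unfold tg
      rw [hflip0]
      rintro ⟨a, ha, h⟩
      exact h1 a ha c hc h.symm
    have h3 : ∀ k, ∃ c < m, (tg f p F)^[k] (y 0) = y c := by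
      intro k
      induction k with
      | zero => exact ⟨0, hy.pos, rfl⟩
      | succ k ih =>
        obtain ⟨c, hc, h⟩ := ih
        rw [Function.iterate_succ_apply', h, ← h2 c hc]
        rcases Nat.lt_or_ge (c + 1) m with hc1 | hc1
        · exact ⟨c + 1, hc1, rfl⟩
        · have : c + 1 = m := by omega
          exact ⟨0, hy.pos, by rw [this, hy.close]⟩
    obtain ⟨k, hk⟩ := hF.2 (y 0)
    obtain ⟨c, _, hc⟩ := h3 k
    exact hyr c (hc.symm.trans hk)
  refine hdet (Matrix.exists_vecMul_eq_zero_iff.1 ⟨u, hu0, ?_⟩)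
  ext b
  have hjr : x b ≠ r := hr b b.2
  simp only [Matrix.vecMul, dotProduct, Matrix.of_apply, Pi.zero_apply]
  have hterm : ∀ c ∈ range m, ind (Desc f p F (x b) (y c)) - ind (Desc f p F (x b) (y (c + 1))) =
      ∑ a : Fin n, if y c = x a then QQ f p F (x a) (x b) else 0 := by
    intro c hc
    rw [mem_range] at hc
    rw [hy.arc c hc]
    by_cases h : ∃ a < n, x a = y c
    · obtain ⟨a, ha, hac⟩ := h
      rw [Finset.sum_eq_single (⟨a, ha⟩ : Fin n)]
      · rw [if_pos hac.symm]
        unfold QQ
        unfold tg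
        rw [hflip1 _ ⟨a, ha, hac⟩]
        show _ = ind (Desc f p F (x b) (x a)) - ind (Desc f p F (x b) (hd f p (!F (x a)) (x a)))
        rw [hac]
      · intro a' _ ha'
        rw [if_neg]
        intro h'
        refine ha' (Fin.ext (hx a' a'.2 a ha ?_))
        rw [hac, ← h']
      · intro h'
        exact absurd (mem_univ _) h'
    · rw [Finset.sum_eq_zero]
      · have e1 : tg f p (flip F n x) (y c) = tg f p F (y c) := by
          unfold tg
          rw [hflip0 _ h]
        rw [e1, ind_tg hD hF hjr, if_neg]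
        intro h'
        exact h ⟨b, b.2, h'.symm⟩
      · intro a _
        rw [if_neg]
        intro h'
        exact h ⟨a, a.2, h'.symm⟩
  have hsum : ∑ c ∈ range m, (ind (Desc f p F (x b) (y c)) -
      ind (Desc f p F (x b) (y (c + 1)))) = 0 := by
    rw [Finset.sum_sub_distrib, cyc_sum hy (fun v => ind (Desc f p F (x b) v)), sub_self]
  rw [Finset.sum_congr rfl hterm, Finset.sum_comm] at hsum
  rw [← hsum]
  refine Finset.sum_congr rfl fun a _ => ?_
  show (if ∃ c < m, y c = x a then (1 : ℤ) else 0) * QQ f p F (x a) (x b) = _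
  by_cases h : ∃ c < m, y c = x a
  · obtain ⟨c, hc, hca⟩ := h
    rw [if_pos ⟨c, hc, hca⟩, one_mul, Finset.sum_eq_single c]
    · rw [if_pos hca]
    · intro c' hc' hne
      rw [if_neg]
      intro h'
      exact hne (hy.inj c' (mem_range.1 hc') c hc (h'.trans hca.symm))
    · intro h'
      exact absurd (mem_range.2 hc) h'
  · rw [if_neg h, zero_mul, Finset.sum_eq_zero]
    intro c hc
    rw [if_neg]
    intro h'
    exact h ⟨c, mem_range.1 hc, h'⟩

end ITA
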