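import Pool.Agent.ITA.Defs

/-!
# ITA: changing a choice

The sum over the choice `flip F n x` differs from the sum over `F` in the image of `x` only.
-/

set_option autoImplicit false

namespace ITA

open Finset
open scoped Classical

variable {V : Type}

private theorem Fl_sum [Fintype V] {M : Type} [AddCommGroup M] {n : ℕ} {x : ℕ → V}
    (hx : Inj n x) (h : V → M) :
    ∑ v, (if ∃ a < n, x a = v then h v else 0) = ∑ a ∈ range n, h (x a) := by
  have h1 : ∀ v, (∃ a < n, x a = v) ↔ v ∈ (range n).image x := by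
    intro v
    simp only [mem_image, mem_range]
  have h2 : ∑ v, (if ∃ a < n, x a = v then h v else 0) =
      ∑ v, (if v ∈ (range n).image x then h v else 0) := by
    apply sum_congr rfl
    intro v _
    by_cases hv : ∃ a < n, x a = v
    · rw [if_pos hv, if_pos ((h1 v).1 hv)]
    · rw [if_neg hv, if_neg (fun h => hv ((h1 v).2 h))]
  rw [h2, sum_ite_mem, univ_inter, sum_image]
  intro a ha b hb hab
  exact hx a (mem_range.1 (mem_coe.1 ha)) b (mem_range.1 (mem_coe.1 hb)) hab

theorem sum_flip [Fintype V] {M : Type} [AddCommGroup M] (F : V → Bool) {n : ℕ} {x : ℕ → V}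
    (hx : Inj n x) (g : V → M) :
    ∑ v, (if flip F n x v then g v else 0) =
      ∑ v, (if F v then g v else 0) + ∑ a ∈ range n, (if F (x a) then - g (x a) else g (x a)) := by
  rw [← Fl_sum hx (fun v => if F v then - g v else g v), ← sum_add_distrib]
  apply sum_congr rfl
  intro v _
  by_cases hv : ∃ a < n, x a = v
  · have h1 : flip F n x v = !F v := if_pos hv
    rw [h1, if_pos hv]
    cases F v <;> simp
  · have h1 : flip F n x v = F v := if_neg hv
    rw [h1, if_neg hv, add_zero]

theorem cost_flip [Fintype V] (F : V → Bool) {n : ℕ} {x : ℕ → V} (hx : Inj n x) :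
    (cost (flip F n x) : ℤ) = cost F + ∑ a ∈ range n, (if F (x a) then (-1 : ℤ) else 1) := by
  have h1 : ∀ G : V → Bool, (cost G : ℤ) = ∑ v, (if G v then (1 : ℤ) else 0) := by
    intro G
    rw [cost, card_filter]
    push_cast
    rfl
  rw [h1, h1, sum_flip F hx (fun _ => (1 : ℤ))]

theorem flip_ne (F : V → Bool) {n : ℕ} {x : ℕ → V} (hn : 0 < n) : flip F n x ≠ F := by
  intro h
  have h1 : flip F n x (x 0) = !F (x 0) := if_pos ⟨0, hn, rfl⟩
  rw [h] at h1
  cases h2 : F (x 0) <;> rw [h2] at h1 <;> simp at h1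

end ITA
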