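import Pool.Agent.ITA.Defs

/-!
# ITA: potentials

If all cycles of `E` have nonnegative weight (weight `L i` of the arc from `j` to `i`), there are potentials: the minimal
weight of a simple path from a vertex.
-/

set_option autoImplicit false

namespace ITA

open Finset
open scoped Classical

private lemma Pt_cyc {I : Type} (E : I → I → Prop) (L : I → ℤ)
    (h : ∀ (n : ℕ) (x : ℕ → I), Cyc E n x → 0 ≤ ∑ a ∈ range n, L (x a))
    (m : List I) (hm : m ≠ []) (hn : m.Nodup) (hc : m.IsChain E)
    (hl : E (m.getLast hm) (m.head hm)) : 0 ≤ (m.map L).sum := by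
  have hpos : 0 < m.length := List.length_pos_iff.mpr hm
  obtain ⟨x, hx⟩ : ∃ x : ℕ → I, ∀ a, x a = m[a % m.length]'(Nat.mod_lt _ hpos) := ⟨_, fun _ => rfl⟩
  have hx1 : ∀ a (ha : a < m.length), x a = m[a] := by
    intro a ha
    rw [hx]
    simp only [Nat.mod_eq_of_lt ha]
  have hx2 : x m.length = m[0] := by
    rw [hx]
    simp only [Nat.mod_self]
  have hcyc : Cyc E m.length x := by
    refine ⟨hpos, ?_, ?_, ?_⟩
    · intro a ha b hb hab
      rw [hx1 a ha, hx1 b hb] at hab
      exact (List.Nodup.getElem_inj_iff hn).mp hab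
    · intro a ha
      rcases Nat.lt_or_ge (a + 1) m.length with h1 | h1
      · rw [hx1 a ha, hx1 (a + 1) h1]
        exact List.isChain_iff_getElem.mp hc a h1
      · have h2 : a + 1 = m.length := by omega
        rw [h2, hx2, hx1 a ha]
        rw [List.getLast_eq_getElem, List.head_eq_getElem] at hl
        have h3 : a = m.length - 1 := by omega
        subst h3
        exact hl
    · rw [hx2, hx1 0 hpos]
  have h1 := h _ _ hcyc
  rw [Finset.sum_range] at h1
  have h2 : ∑ a : Fin m.length, L (x a) = ∑ a : Fin m.length, L m[a.1] :=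
    Finset.sum_congr rfl fun a _ => by rw [hx1 a a.2]
  rw [h2, Fin.sum_univ_fun_getElem] at h1
  exact h1

private lemma Pt_fin {I : Type} [Fintype I] (E : I → I → Prop) (j : I) :
    {l : List I | (j :: l).Nodup ∧ (j :: l).IsChain E}.Finite := by
  refine (List.finite_length_le I (Fintype.card I)).subset ?_
  intro l hl
  have h1 := List.Nodup.length_le_card hl.1
  rw [List.length_cons] at h1
  show l.length ≤ _
  omega

theorem pot {I : Type} [Fintype I] (E : I → I → Prop) (L : I → ℤ)
    (h : ∀ (n : ℕ) (x : ℕ → I), Cyc E n x → 0 ≤ ∑ a ∈ range n, L (x a)) :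
    ∃ q : I → ℤ, ∀ j i, E j i → q j ≤ L i + q i := by
  have hm : ∀ j : I, ∃ l : List I, ((j :: l).Nodup ∧ (j :: l).IsChain E) ∧
      ∀ l' : List I, (j :: l').Nodup → (j :: l').IsChain E → (l.map L).sum ≤ (l'.map L).sum := by
    intro j
    obtain ⟨l, hl, hmin⟩ := Set.exists_min_image {l : List I | (j :: l).Nodup ∧ (j :: l).IsChain E}
      (fun l => (l.map L).sum) (Pt_fin E j) ⟨[], List.nodup_singleton j, List.IsChain.singleton j⟩
    exact ⟨l, hl, fun l' h1 h2 => hmin l' ⟨h1, h2⟩⟩
  choose l hl hmin using hm
  refine ⟨fun j => ((l j).map L).sum, fun j i hE => ?_⟩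
  show ((l j).map L).sum ≤ L i + ((l i).map L).sum
  have hs : ((i :: l i).map L).sum = L i + ((l i).map L).sum := by
    rw [List.map_cons, List.sum_cons]
  rw [← hs]
  by_cases hj : j ∈ i :: l i
  · obtain ⟨l1, l2, hll⟩ := List.append_of_mem hj
    have hn := (hl i).1
    have hc := (hl i).2
    rw [hll] at hn hc
    rw [List.isChain_split] at hc
    have h1 := hmin j l2 (hn.sublist (List.sublist_append_right l1 (j :: l2))) hc.2
    have hm0 : l1 ++ [j] ≠ [] := by simp
    have hn1 : (l1 ++ [j]).Nodup := by
      refine hn.sublist ?_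
      exact (List.Sublist.refl l1).append (List.cons_sublist_cons.mpr (List.nil_sublist l2))
    have hlast : (l1 ++ [j]).getLast hm0 = j := by simp
    have hhead : (l1 ++ [j]).head hm0 = i := by
      cases l1 with
      | nil =>
        simp only [List.nil_append, List.cons.injEq] at hll
        simp only [List.nil_append, List.head_cons]
        exact hll.1.symm
      | cons c l1 =>
        simp only [List.cons_append, List.cons.injEq] at hll
        simp only [List.cons_append, List.head_cons]
        exact hll.1.symm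
    have h2 := Pt_cyc E L h (l1 ++ [j]) hm0 hn1 hc.1 (by rw [hlast, hhead]; exact hE)
    rw [hll]
    simp only [List.map_append, List.map_cons, List.map_nil, List.sum_append, List.sum_cons,
      List.sum_nil, add_zero] at h2 ⊢
    linarith
  · exact hmin j (i :: l i) (List.nodup_cons.mpr ⟨hj, (hl i).1⟩)
      (List.isChain_cons_cons.mpr ⟨hE, (hl i).2⟩)

end ITA
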