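import Pool.Agent.ITA.Ex2

/-!
# ITA: all arborescences of the same cost have the exit property

`ex_all`: the vertices leaving their component of the level graph of level `l` under `F0` inject into those leaving
under `F`; the sums over all levels agree since the costs do, so the injection is bijective at every level.
-/

set_option autoImplicit false

namespace ITA

open Finset
open scoped Classical

variable {V : Type} {f p : V → V} {r : V} {F : V → Bool} {τ : V → ℤ}

/-- vertices whose edge of `F` has level more than `l` -/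
private noncomputable def Xa_A [Fintype V] (r : V) (τ : V → ℤ) (F : V → Bool) (l : ℤ) : Finset V :=
  (univ.erase r).filter fun v => l < lv τ (F v) v

private theorem Xa_mem [Fintype V] {l : ℤ} {v : V} :
    v ∈ Xa_A r τ F l ↔ v ≠ r ∧ l < lv τ (F v) v := by
  unfold Xa_A
  rw [mem_filter, mem_erase]
  constructor
  · rintro ⟨⟨h1, _⟩, h2⟩
    exact ⟨h1, h2⟩
  · rintro ⟨h1, h2⟩
    exact ⟨⟨h1, mem_univ v⟩, h2⟩

private theorem Xa_sum {a b c : ℤ} (h1 : a ≤ c) (h2 : c ≤ b) :
    ∑ l ∈ Finset.Ico a b, (if l < c then (1 : ℤ) else 0) = c - a := by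
  rw [← Finset.sum_filter]
  have h : (Finset.Ico a b).filter (fun l => l < c) = Finset.Ico a c := by
    ext l
    rw [mem_filter, mem_Ico, mem_Ico]
    constructor
    · rintro ⟨⟨h3, _⟩, h5⟩
      exact ⟨h3, h5⟩
    · rintro ⟨h3, h5⟩
      exact ⟨⟨h3, lt_of_lt_of_le h5 h2⟩, h5⟩
  rw [h, sum_const, Int.card_Ico, nsmul_eq_mul, mul_one]
  exact Int.toNat_of_nonneg (by linarith)

private theorem Xa_card [Fintype V] (l : ℤ) :
    ((Xa_A r τ F l).card : ℤ) = ∑ v ∈ univ.erase r, (if l < lv τ (F v) v then (1 : ℤ) else 0) := by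
  unfold Xa_A
  rw [card_eq_sum_ones, Nat.cast_sum, sum_filter]
  refine sum_congr rfl fun v _ => ?_
  norm_num

private theorem Xa_lv (b : Bool) (v : V) : lv τ b v = τ v + (if b = true then 1 else 0) := by
  cases b
  · simp [lv]
  · simp [lv]

private theorem Xa_cost [Fintype V] (hr : F r = false) :
    (cost F : ℤ) = ∑ v ∈ univ.erase r, (if F v = true then (1 : ℤ) else 0) := by
  unfold cost
  rw [card_eq_sum_ones, Nat.cast_sum, sum_filter, ← Finset.add_sum_erase univ _ (mem_univ r)]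
  rw [if_neg (by rw [hr]; exact Bool.false_ne_true), zero_add]
  refine sum_congr rfl fun v _ => ?_
  norm_num

private theorem Xa_total [Fintype V] (hr : F r = false) {M : ℤ} (hM : ∀ v, |τ v| + 1 ≤ M) :
    ∑ l ∈ Finset.Ico (-M) M, ((Xa_A r τ F l).card : ℤ) =
      ∑ v ∈ univ.erase r, (τ v + M) + cost F := by
  have h1 : ∑ l ∈ Finset.Ico (-M) M, ((Xa_A r τ F l).card : ℤ) =
      ∑ v ∈ univ.erase r, ∑ l ∈ Finset.Ico (-M) M, (if l < lv τ (F v) v then (1 : ℤ) else 0) := by
    rw [sum_comm]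
    exact sum_congr rfl fun l _ => Xa_card l
  rw [h1, Xa_cost hr, ← sum_add_distrib]
  refine sum_congr rfl fun v _ => ?_
  have h2 := hM v
  have h3 := abs_le.mp (le_refl |τ v|)
  have h4 : lv τ (F v) v = τ v + (if F v = true then 1 else 0) := Xa_lv (F v) v
  have h5 : (0 : ℤ) ≤ (if F v = true then 1 else 0) := by split_ifs <;> norm_num
  have h6 : (if F v = true then (1 : ℤ) else 0) ≤ 1 := by split_ifs <;> norm_num
  rw [Xa_sum (by rw [h4]; linarith) (by rw [h4]; linarith), h4]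
  ring

theorem ex_all [Fintype V] (hD : Dat f p r) {F0 : V → Bool} (h0 : Ex f p r τ F0)
    (hF : Acyc f p r F) (hc : cost F = cost F0) : Ex f p r τ F := by
  have key : ∀ l : ℤ, ∃ e : V → V, (∀ v, Conn f p r τ l v (e v)) ∧
      Set.MapsTo e (Xa_A r τ F0 l : Set V) (Xa_A r τ F l : Set V) ∧
      Set.InjOn e (Xa_A r τ F0 l : Set V) := by
    intro l
    choose e h1 h2 _ using fun v => exit_desc hD hF τ l v
    refine ⟨e, h1, ?_, ?_⟩
    · intro v hv
      have hv' := Xa_mem.mp (mem_coe.mp hv)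
      have h3 : e v ≠ r := by
        intro h4
        have h5 := h1 v
        rw [h4] at h5
        exact absurd (h0.root l v hv'.1 h5) (not_le.mpr hv'.2)
      rcases h2 v with h4 | h4
      · exact absurd h4 h3
      · exact mem_coe.mpr (Xa_mem.mpr ⟨h3, h4⟩)
    · intro v hv w hw hvw
      have hv' := Xa_mem.mp (mem_coe.mp hv)
      have hw' := Xa_mem.mp (mem_coe.mp hw)
      have h3 : Conn f p r τ l v w := by
        have h4 := h1 w
        rw [← hvw] at h4
        exact Relation.EqvGen.trans _ _ _ (h1 v) (Relation.EqvGen.symm _ _ h4)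
      exact h0.uni l v w hv'.1 hw'.1 h3 hv'.2 hw'.2
  have hle : ∀ l : ℤ, (Xa_A r τ F0 l).card ≤ (Xa_A r τ F l).card := by
    intro l
    obtain ⟨e, _, h2, h3⟩ := key l
    exact card_le_card_of_injOn e h2 h3
  have heq : ∀ l : ℤ, (Xa_A r τ F l).card ≤ (Xa_A r τ F0 l).card := by
    intro l
    have hS : ∀ v, |τ v| ≤ ∑ v, |τ v| := fun v =>
      single_le_sum (f := fun v => |τ v|) (fun w _ => abs_nonneg (τ w)) (mem_univ v)
    have hM : ∀ v, |τ v| + 1 ≤ ∑ v, |τ v| + |l| + 1 := by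
      intro v
      have h1 := hS v
      have h2 := abs_nonneg l
      linarith
    have t1 := Xa_total (F := F) (r := r) hF.1 hM
    have t0 := Xa_total (F := F0) (r := r) h0.acyc.1 hM
    rw [hc] at t1
    have h4 : ∑ l' ∈ Finset.Ico (-(∑ v, |τ v| + |l| + 1)) (∑ v, |τ v| + |l| + 1), ((Xa_A r τ F0 l').card : ℤ) =
        ∑ l' ∈ Finset.Ico (-(∑ v, |τ v| + |l| + 1)) (∑ v, |τ v| + |l| + 1), ((Xa_A r τ F l').card : ℤ) := by
      rw [t1, t0]
    have h5 := (sum_eq_sum_iff_of_le (fun i _ => by exact_mod_cast hle i)).mp h4 l (by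
      rw [mem_Ico]
      have h6 : 0 ≤ ∑ v, |τ v| := sum_nonneg fun v _ => abs_nonneg (τ v)
      have h7 := abs_le.mp (le_refl |l|)
      constructor
      · linarith
      · linarith)
    exact le_of_eq (by exact_mod_cast h5.symm)
  have hsurj : ∀ (l : ℤ) (v : V), v ≠ r → l < lv τ (F v) v →
      ∃ v0, v0 ≠ r ∧ l < lv τ (F0 v0) v0 ∧ Conn f p r τ l v0 v := by
    intro l v hv hl
    obtain ⟨e, h1, h2, h3⟩ := key l
    obtain ⟨v0, h4, h5⟩ := surjOn_of_injOn_of_card_le e h2 h3 (heq l) (mem_coe.mpr (Xa_mem.mpr ⟨hv, hl⟩))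
    have h6 := Xa_mem.mp (mem_coe.mp h4)
    refine ⟨v0, h6.1, h6.2, ?_⟩
    rw [← h5]
    exact h1 v0
  refine ⟨hF, ?_, ?_⟩
  · intro l v w hv hw hvw hlv hlw
    obtain ⟨e, h1, h2, h3⟩ := key l
    obtain ⟨v0, h4, h5⟩ := surjOn_of_injOn_of_card_le e h2 h3 (heq l) (mem_coe.mpr (Xa_mem.mpr ⟨hv, hlv⟩))
    obtain ⟨w0, h6, h7⟩ := surjOn_of_injOn_of_card_le e h2 h3 (heq l) (mem_coe.mpr (Xa_mem.mpr ⟨hw, hlw⟩))
    have h8 := Xa_mem.mp (mem_coe.mp h4)
    have h9 := Xa_mem.mp (mem_coe.mp h6)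
    have hv0 := h1 v0
    have hw0 := h1 w0
    rw [h5] at hv0
    rw [h7] at hw0
    have h10 : v0 = w0 := h0.uni l v0 w0 h8.1 h9.1
      (Relation.EqvGen.trans _ _ _ hv0 (Relation.EqvGen.trans _ _ _ hvw (Relation.EqvGen.symm _ _ hw0)))
      h8.2 h9.2
    rw [← h5, ← h7, h10]
  · intro l v hv hvr
    by_contra hl
    have hl' := not_le.mp hl
    obtain ⟨v0, h1, h2, h3⟩ := hsurj l v hv hl'
    exact absurd (h0.root l v0 h1 (Relation.EqvGen.trans _ _ _ h3 hvr)) (not_le.mpr h2)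

end ITA
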