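import Pool.Agent.ITA.Ex2

/-!
# ITA: potentials give the exit property

If no edge of level smaller than the level of the edge of `F` at `j` crosses the set of descendants of `j`, then `F`
leaves every component of the level graph exactly once.
-/

set_option autoImplicit false

namespace ITA

open Finset
open scoped Classical

variable {V : Type} {f p : V → V} {r : V} {F : V → Bool} {τ : V → ℤ}

/-- edges of level at most `l` do not cross the set of descendants of `v` -/
private theorem Xz_conn
    (h : ∀ (i j : V) (b : Bool), i ≠ r → j ≠ r →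
      ¬ (Desc f p F j i ↔ Desc f p F j (hd f p b i)) → lv τ (F j) j ≤ lv τ b i)
    {l : ℤ} {v : V} (hv : v ≠ r) (hl : l < lv τ (F v) v) {a b : V} (hab : Conn f p r τ l a b) :
    Desc f p F v a ↔ Desc f p F v b := by
  unfold Conn at hab
  induction hab with
  | rel a b h1 =>
    obtain ⟨ha, c, hc, rfl⟩ := h1
    by_contra h2
    exact absurd (lt_of_lt_of_le hl ((h a v c ha hv h2).trans hc)) (lt_irrefl _)
  | refl a => exact Iff.rfl
  | symm a b _ ih => exact ih.symm
  | trans a b c _ _ ih1 ih2 => exact ih1.trans ih2

theorem ex_of_pot (hD : Dat f p r) (hF : Acyc f p r F)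
    (h : ∀ (i j : V) (b : Bool), i ≠ r → j ≠ r →
      ¬ (Desc f p F j i ↔ Desc f p F j (hd f p b i)) → lv τ (F j) j ≤ lv τ b i) :
    Ex f p r τ F := by
  refine ⟨hF, ?_, ?_⟩
  · intro l v w hv hw hc h1 h2
    exact desc_antisymm hD hF ((Xz_conn h hv h1 hc).1 (desc_self v)) ((Xz_conn h hw h2 hc).2 (desc_self w))
  · intro l v hv hc
    by_contra h1
    exact hv (desc_of_root hD ((Xz_conn h hv (not_le.1 h1) hc).1 (desc_self v)))

end ITA
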