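import Pool.Agent.ITA.Mc
import Pool.Agent.ITA.Pt
import Pool.Agent.ITA.Dt
import Pool.Agent.ITA.Fl
import Pool.Agent.ITA.Xz
import Pool.Agent.ITA.Xa

/-!
# ITA: levels adapted to all minimum arborescences

For a minimum arborescence `F0` the minimal cycle lemma shows that all exchange cycles have nonnegative cost; the
potentials give the levels, and all minimum arborescences have the exit property for these levels.
-/

set_option autoImplicit false

namespace ITA

open Finset
open scoped Classical

variable {V : Type} {f p : V → V} {r : V}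

theorem exists_min [Fintype V] (hD : Dat f p r) : ∃ F, MinArb f p r F := by
  have h1 : tg f p (fun v => decide (v ≠ r)) = p := by
    funext v
    unfold tg hd
    by_cases hv : v = r
    · subst hv
      simp [hD.fr, hD.pr]
    · simp [hv]
  have h2 : Acyc f p r (fun v => decide (v ≠ r)) := by
    refine ⟨by simp, ?_⟩
    intro v
    rw [h1]
    exact hD.tree v
  obtain ⟨F, hF, hmin⟩ := Finset.exists_min_image (univ.filter (fun F => Acyc f p r F))
    (fun F => cost F) ⟨_, Finset.mem_filter.2 ⟨Finset.mem_univ _, h2⟩⟩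
  exact ⟨F, (Finset.mem_filter.1 hF).2, fun F' hF' =>
    hmin F' (Finset.mem_filter.2 ⟨Finset.mem_univ _, hF'⟩)⟩

private theorem tau_ind {P Q : Prop} (h : ind P = ind Q) : P ↔ Q := by
  unfold ind at h
  by_cases hP : P <;> by_cases hQ : Q <;> simp_all

theorem exists_tau [Fintype V] (hD : Dat f p r) :
    ∃ τ : V → ℤ, ∀ F, MinArb f p r F → Ex f p r τ F := by
  obtain ⟨F0, hF0⟩ := exists_min hD
  let L : V → ℤ := fun v => if F0 v then -1 else 1
  have hX : ∀ (n : ℕ) (x : ℕ → V), Inj n x →
      (Matrix.of fun a b : Fin n => QQ f p F0 (x a) (x b)).det ≠ 0 →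
      0 ≤ ∑ a ∈ range n, L (x a) := by
    intro n x hx hdet
    have h1 := hF0.2 _ (acyc_of_det hD hF0.1 hx hdet)
    have h2 := cost_flip F0 hx
    have h3 : (cost F0 : ℤ) ≤ cost (flip F0 n x) := by exact_mod_cast h1
    have h4 : ∑ a ∈ range n, L (x a) = ∑ a ∈ range n, (if F0 (x a) then (-1 : ℤ) else 1) := rfl
    omega
  have hC : ∀ (n : ℕ) (x : ℕ → V), Cyc (fun j i => QQ f p F0 i j ≠ 0) n x →
      0 ≤ ∑ a ∈ range n, L (x a) := by
    intro n x hx
    have h1 := mc (fun i j => QQ f p F0 i j) (fun v => (Fintype.card V : ℤ) * L v + 1)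
      (fun n x hn hx hdet => by
        have h2 := hX n x hx hdet
        rw [Finset.sum_add_distrib, ← Finset.mul_sum]
        simp only [Finset.sum_const, Finset.card_range, nsmul_eq_mul, mul_one]
        have h3 : (0 : ℤ) ≤ (Fintype.card V : ℤ) * ∑ a ∈ range n, L (x a) :=
          mul_nonneg (by positivity) h2
        have h4 : (0 : ℤ) < (n : ℤ) := by exact_mod_cast hn
        omega) n x hx
    rw [Finset.sum_add_distrib, ← Finset.mul_sum] at h1
    simp only [Finset.sum_const, Finset.card_range, nsmul_eq_mul, mul_one] at h1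
    have h5 : (n : ℤ) ≤ (Fintype.card V : ℤ) := by exact_mod_cast cyc_len hx
    by_contra h6
    have h7 : ∑ a ∈ range n, L (x a) ≤ -1 := by omega
    have h8 : (Fintype.card V : ℤ) * ∑ a ∈ range n, L (x a) ≤ (Fintype.card V : ℤ) * (-1) :=
      mul_le_mul_of_nonneg_left h7 (by positivity)
    omega
  obtain ⟨q, hq⟩ := pot (fun j i => QQ f p F0 i j ≠ 0) L hC
  refine ⟨fun v => q v - (if F0 v then 1 else 0), ?_⟩
  have hl1 : ∀ j, lv (fun v => q v - (if F0 v then 1 else 0)) (F0 j) j = q j := by
    intro j
    unfold lv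
    cases h : F0 j
    · simp [h]
    · simp [h]
  have hl2 : ∀ j, lv (fun v => q v - (if F0 v then 1 else 0)) (!F0 j) j = L j + q j := by
    intro j
    have hL : L j = if F0 j then -1 else 1 := rfl
    rw [hL]
    unfold lv
    cases h : F0 j
    · simp [h]
      ring
    · simp [h]
      ring
  have h0 : Ex f p r (fun v => q v - (if F0 v then 1 else 0)) F0 := by
    apply ex_of_pot hD hF0.1
    intro i j b hi hj hb
    by_cases hbi : b = F0 i
    · have h1 := ind_tg hD hF0.1 hj i
      by_cases hij : i = j
      · subst hij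
        rw [hbi]
      · exfalso
        rw [if_neg hij] at h1
        apply hb
        apply tau_ind
        rw [hbi]
        unfold tg at h1
        omega
    · have hb2 : b = !F0 i := by
        cases h : F0 i <;> cases b <;> simp_all
      rw [hb2, hl1, hl2]
      apply hq
      intro h1
      apply hb
      apply tau_ind
      rw [hb2]
      unfold QQ at h1
      omega
  intro F hF
  exact ex_all hD h0 hF.1 (le_antisymm (hF.2 F0 hF0.1) (hF0.2 F hF.1))

end ITA
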