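import Pool.Agent.ITA.Mc
import Pool.Agent.ITA.Dt
import Pool.Agent.ITA.Fl
import Pool.Agent.ITA.Tau

/-!
# ITA: exchange cycles at the best arborescence are positive

`best_exists`: among the finitely many minimum arborescences there is one with least value, and the values of different
minimum arborescences differ by `hsep`. `best_cycle`: the minimal cycle lemma with weights in `ℤ ×ₗ ℚ` (change of the cost,
change of the value).
-/

set_option autoImplicit false

namespace ITA

open Finset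
open scoped Classical

variable {V : Type} {f p : V → V} {r : V} {F : V → Bool} {τ : V → ℤ}

/-- `F` is the best minimum arborescence -/
def Best [Fintype V] (f p : V → V) (r : V) (τ : V → ℤ) (h : V → ℤ → ℚ) (F : V → Bool) : Prop :=
  MinArb f p r F ∧ ∀ F', MinArb f p r F' → F' ≠ F →
    ∑ v, (if F v then h (f v) (τ v) else 0) < ∑ v, (if F' v then h (f v) (τ v) else 0)

private theorem Mi_sub [Fintype V] (F F' : V → Bool) (g : V → ℚ) :
    ∑ v, (eps F F' v : ℚ) * g v = ∑ v, (if F v then g v else 0) - ∑ v, (if F' v then g v else 0) := by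
  rw [← Finset.sum_sub_distrib]
  refine Finset.sum_congr rfl fun v _ => ?_
  unfold eps
  cases F v <;> cases F' v <;> simp

theorem best_exists [Fintype V] (hD : Dat f p r) (hτ : ∀ F, MinArb f p r F → Ex f p r τ F)
    {h : V → ℤ → ℚ} (hsep : ∀ F F', Ex f p r τ F → Ex f p r τ F' → F ≠ F' →
      ∑ v, (eps F F' v : ℚ) * h (f v) (τ v) ≠ 0) : ∃ F, Best f p r τ h F := by
  obtain ⟨F0, hF0⟩ := exists_min hD
  obtain ⟨F, hF, hmin⟩ := Finset.exists_min_image (univ.filter fun F : V → Bool => MinArb f p r F)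
    (fun F => ∑ v, (if F v then h (f v) (τ v) else 0)) ⟨F0, Finset.mem_filter.2 ⟨Finset.mem_univ _, hF0⟩⟩
  have hF1 := (Finset.mem_filter.1 hF).2
  refine ⟨F, hF1, fun F' hF' hne => ?_⟩
  refine lt_of_le_of_ne (hmin F' (Finset.mem_filter.2 ⟨Finset.mem_univ _, hF'⟩)) fun heq => ?_
  refine hsep F' F (hτ F' hF') (hτ F hF1) hne ?_
  rw [Mi_sub F' F (fun v => h (f v) (τ v)), heq, sub_self]

private theorem Mi_sum (n : ℕ) (g1 : ℕ → ℤ) (g2 : ℕ → ℚ) :
    ∑ a ∈ range n, (toLex (g1 a, g2 a) : ℤ ×ₗ ℚ) =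
      toLex (∑ a ∈ range n, g1 a, ∑ a ∈ range n, g2 a) := by
  induction n with
  | zero => rfl
  | succ n ih =>
    rw [Finset.sum_range_succ, Finset.sum_range_succ, Finset.sum_range_succ, ih]
    rfl

private theorem Mi_pos (a : ℤ) (b : ℚ) : (0 : ℤ ×ₗ ℚ) < toLex (a, b) ↔ 0 < a ∨ 0 = a ∧ 0 < b := by
  have h0 : (0 : ℤ ×ₗ ℚ) = toLex ((0 : ℤ), (0 : ℚ)) := rfl
  rw [h0, Prod.Lex.toLex_lt_toLex]

theorem best_cycle [Fintype V] (hD : Dat f p r) {h : V → ℤ → ℚ} (hB : Best f p r τ h F) {n : ℕ}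
    {y : ℕ → V} (hy : Cyc (fun j i => QQ f p F i j ≠ 0) n y)
    (h1 : ∑ a ∈ range n, (if F (y a) then (-1 : ℤ) else 1) = 0)
    (h2 : ∑ a ∈ range n,
      (if F (y a) then - h (f (y a)) (τ (y a)) else h (f (y a)) (τ (y a))) ≤ 0) : False := by
  have key := mc (Γ := ℤ ×ₗ ℚ) (fun i j => QQ f p F i j)
    (fun v => toLex ((if F v then (-1 : ℤ) else 1), (if F v then - h (f v) (τ v) else h (f v) (τ v))))
    (by
      intro m x hm hx hdet
      rw [Mi_sum, Mi_pos]
      have hA : Acyc f p r (flip F m x) := acyc_of_det hD hB.1.1 hx hdet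
      have hc := cost_flip F hx
      have hs := sum_flip F hx (fun v => h (f v) (τ v))
      have hle : cost F ≤ cost (flip F m x) := hB.1.2 _ hA
      rcases lt_or_eq_of_le hle with hlt | heq
      · left
        omega
      · right
        refine ⟨by omega, ?_⟩
        have hM : MinArb f p r (flip F m x) := ⟨hA, fun F' hF' => heq ▸ hB.1.2 F' hF'⟩
        have hlt := hB.2 _ hM (flip_ne F hm)
        rw [hs] at hlt
        linarith) n y hy
  rw [Mi_sum, Mi_pos, h1] at key
  rcases key with key | ⟨_, key⟩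
  · exact lt_irrefl _ key
  · exact absurd h2 (not_le.2 key)

end ITA
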