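import Pool.Agent.ITA.Sn

/-!
# ITA: a harmonic function separating the minimum arborescences

A linear functional on the quotient by the span of the relations which does not vanish on any of the finitely many
differences of values.
-/

set_option autoImplicit false

namespace ITA

open Finset
open scoped Classical

variable {V : Type} {f p : V → V} {r : V}

theorem sep [Fintype V] (hD : Dat f p r) (τ : V → ℤ) :
    ∃ h : V → ℤ → ℚ, Harm f p r h ∧ ∀ F F', Ex f p r τ F → Ex f p r τ F' → F ≠ F' →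
      ∑ v, (eps F F' v : ℚ) * h (f v) (τ v) ≠ 0 := by
  let K : Submodule ℚ ((V × ℤ) →₀ ℚ) := Submodule.span ℚ (Set.range (rl f p r))
  obtain ⟨φ, hφ⟩ := Module.exists_dual_forall_apply_ne_zero (K := ℚ)
    (M := ((V × ℤ) →₀ ℚ) ⧸ K)
    (ι := {x : (V → Bool) × (V → Bool) // Ex f p r τ x.1 ∧ Ex f p r τ x.2 ∧ x.1 ≠ x.2})
    (fun x => K.mkQ (ww f τ x.1.1 x.1.2)) (by
      intro x hx
      have h1 : ww f τ x.1.1 x.1.2 ∈ K := by
        rwa [Submodule.mkQ_apply, Submodule.Quotient.mk_eq_zero] at hx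
      exact x.2.2.2 (not_mem hD x.2.1 x.2.2.1 h1))
  let ψ : ((V × ℤ) →₀ ℚ) →ₗ[ℚ] ℚ := LinearMap.comp φ K.mkQ
  have hψ : ∀ x : V × ℤ, ψ (rl f p r x) = 0 := by
    intro x
    have h1 : K.mkQ (rl f p r x) = 0 := by
      rw [Submodule.mkQ_apply, Submodule.Quotient.mk_eq_zero]
      exact Submodule.subset_span ⟨x, rfl⟩
    show φ (K.mkQ (rl f p r x)) = 0
    rw [h1, map_zero]
  refine ⟨fun v d => ψ (Finsupp.single (v, d) 1), ⟨?_, ?_⟩, ?_⟩
  · intro d
    have h2 := hψ (r, d)
    unfold rl at h2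
    rw [if_pos rfl] at h2
    exact h2
  · intro v hv d
    have h2 := hψ (v, d)
    unfold rl at h2
    rw [if_neg hv, map_sub, map_add, map_sub] at h2
    linarith
  · intro F F' hF hF' hne
    have h3 := hφ ⟨(F, F'), hF, hF', hne⟩
    have h4 : ψ (ww f τ F F') = ∑ v, (eps F F' v : ℚ) * ψ (Finsupp.single (f v, τ v) 1) := by
      unfold ww
      rw [map_sum]
      refine Finset.sum_congr rfl (fun v _ => ?_)
      have h5 : Finsupp.single (f v, τ v) (eps F F' v : ℚ)
          = (eps F F' v : ℚ) • Finsupp.single (f v, τ v) (1 : ℚ) := by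
        rw [Finsupp.smul_single, smul_eq_mul, mul_one]
      rw [h5, map_smul, smul_eq_mul]
    rw [← h4]
    exact h3

end ITA
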