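import Pool.Agent.ITA.Lc
import Pool.Agent.ITA.Mi
import Pool.Agent.ITA.Sp

/-!
# ITA: the Laplacian is injective over the group ring

Assembly: levels adapted to the minimum arborescences, shifted so that the least degree of the solution relative to
the level is `0`, a separating harmonic function, and the best minimum arborescence.
-/

set_option autoImplicit false

namespace ITA

open Finset
open scoped Classical

variable {V : Type} {f p : V → V} {r : V} {F : V → Bool} {τ : V → ℤ}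

private theorem cb_lv (e : ℤ) (b : Bool) (v : V) : lv (fun v => τ v + e) b v = lv τ b v + e := by
  unfold lv
  cases b
  · simp
  · simp only [if_true]
    ring

private theorem cb_conn (e l : ℤ) (v w : V) :
    Conn f p r (fun v => τ v + e) l v w ↔ Conn f p r τ (l - e) v w := by
  have h : (fun a b => a ≠ r ∧ ∃ c : Bool, lv (fun v => τ v + e) c a ≤ l ∧ b = hd f p c a)
      = (fun a b => a ≠ r ∧ ∃ c : Bool, lv τ c a ≤ l - e ∧ b = hd f p c a) := by
    funext a b
    apply propext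
    constructor
    · rintro ⟨h1, c, h2, h3⟩
      rw [cb_lv] at h2
      exact ⟨h1, c, by omega, h3⟩
    · rintro ⟨h1, c, h2, h3⟩
      refine ⟨h1, c, ?_, h3⟩
      rw [cb_lv]
      omega
  unfold Conn
  rw [h]

theorem ex_shift (e : ℤ) (h : Ex f p r τ F) : Ex f p r (fun v => τ v + e) F := by
  refine ⟨h.acyc, ?_, ?_⟩
  · intro l v w hv hw hc h1 h2
    rw [cb_conn] at hc
    rw [cb_lv] at h1 h2
    exact h.uni (l - e) v w hv hw hc (by omega) (by omega)
  · intro l v hv hc
    rw [cb_conn] at hc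
    rw [cb_lv]
    have := h.root (l - e) v hv hc
    omega

theorem core [Fintype V] [DecidableEq V] (hD : Dat f p r) {G : Type} [Group G] (x : V → G)
    (deg : G → ℤ) (hdeg : ∀ g v, deg (g * x v) = deg g + 1)
    (hκ : ∀ h : V → ℤ → ℚ, Harm f p r h → ∃ κ : G → ℚ, ∀ g v, κ (g * x v) = κ g + h v (deg g))
    (c : V → G → ℤ) (hfin : ∀ v, (Function.support (c v)).Finite)
    (hc : ∀ w, w ≠ r → ∀ g, c w g = ∑ v ∈ univ.erase r,
      ((if f v = w then c v g - c v (g * (x (f v))⁻¹) else 0) +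
        (if p v = w then c v (g * (x (f v))⁻¹) else 0))) :
    ∀ v, v ≠ r → ∀ g, c v g = 0 := by
  intro v0 hv0 g0
  by_contra hne0
  obtain ⟨τ0, hτ0⟩ := exists_tau hD
  have hS : ({y : V × G | y.1 ≠ r ∧ c y.1 y.2 ≠ 0} : Set (V × G)).Finite := by
    refine Set.Finite.subset (Set.finite_iUnion (fun v => (hfin v).image (Prod.mk v))) ?_
    rintro ⟨v, g⟩ ⟨_, h2⟩
    exact Set.mem_iUnion.2 ⟨v, g, h2, rfl⟩
  obtain ⟨⟨v1, g1⟩, ⟨h11, h12⟩, hmin⟩ := Set.exists_min_image _
    (fun y : V × G => deg y.2 - τ0 y.1) hS ⟨(v0, g0), hv0, hne0⟩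
  have hEx : ∀ F, MinArb f p r F → Ex f p r (fun v => τ0 v + (deg g1 - τ0 v1)) F :=
    fun F hF => ex_shift _ (hτ0 F hF)
  obtain ⟨h, hh, hsep⟩ := sep hD (fun v => τ0 v + (deg g1 - τ0 v1))
  obtain ⟨κ, hκ'⟩ := hκ h hh
  obtain ⟨F, hB⟩ := best_exists hD hEx hsep
  obtain ⟨n, y, hy, h1, h2⟩ := lead_cycle hD (hEx F hB.1) x h (fun g => (deg g, κ g))
    (fun g v => by
      show (deg (g * x v), κ (g * x v)) = (deg g + 1, κ g + h v (deg g))
      rw [hdeg, hκ']) c hfin hc
    (fun v hv g hg => by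
      have h3 := hmin (v, g) ⟨hv, hg⟩
      have h4 : deg g1 - τ0 v1 ≤ deg g - τ0 v := h3
      show τ0 v + (deg g1 - τ0 v1) ≤ deg g
      omega)
    ⟨v1, g1, h11, h12, by
      show deg g1 = τ0 v1 + (deg g1 - τ0 v1)
      omega⟩
  exact best_cycle hD hB hy h1 h2

end ITA
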