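import Pool.Agent.ITA.Cb

/-!
# ITA: the Laplacian indexed by the edges

MODULE Cc. `core_edges`: `a e` is the child and `b e` the parent of the edge `e`, `l e` its label. For `v ≠ r` let
`c v g` be the coefficient of `g` in `Z e` for the edge `e` with `a e = v`. The coefficient of `hZ w` at `g` is
`hc` of `core`, so `c = 0` and `Z = 0`.
-/

set_option autoImplicit false

namespace ITA

open Finset
open scoped Classical

variable {V : Type}

/-- coefficients of the products with the entries of the Laplacian -/
private lemma Cc_coeff {G : Type} [Group G] (Z : MonoidAlgebra ℤ G) (y g : G) (P Q R : Prop)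
    [Decidable P] [Decidable Q] [Decidable R] :
    (Z * ((if P then 1 else 0) - (if Q then 1 - MonoidAlgebra.single y 1 else 0)
      - (if R then MonoidAlgebra.single y 1 else 0))).coeff g =
    (if P then Z.coeff g else 0) - ((if Q then Z.coeff g - Z.coeff (g * y⁻¹) else 0)
      + (if R then Z.coeff (g * y⁻¹) else 0)) := by
  have h1 : (Z * MonoidAlgebra.single y 1).coeff g = Z.coeff (g * y⁻¹) := by
    rw [MonoidAlgebra.coeff_mul_single_apply, mul_one]
  have h2 : (Z * (1 - MonoidAlgebra.single y 1)).coeff g = Z.coeff g - Z.coeff (g * y⁻¹) := by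
    rw [mul_sub, mul_one, MonoidAlgebra.coeff_sub, Finsupp.sub_apply, h1]
  rw [mul_sub, mul_sub, MonoidAlgebra.coeff_sub, MonoidAlgebra.coeff_sub, Finsupp.sub_apply,
    Finsupp.sub_apply]
  have e1 : (Z * (if P then 1 else 0)).coeff g = if P then Z.coeff g else 0 := by
    split_ifs <;> simp
  have e2 : (Z * (if Q then 1 - MonoidAlgebra.single y 1 else 0)).coeff g =
      if Q then Z.coeff g - Z.coeff (g * y⁻¹) else 0 := by
    split_ifs
    · exact h2
    · simp
  have e3 : (Z * (if R then MonoidAlgebra.single y 1 else 0)).coeff g =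
      if R then Z.coeff (g * y⁻¹) else 0 := by
    split_ifs
    · exact h1
    · simp
  rw [e1, e2, e3]
  ring

theorem core_edges [Fintype V] [DecidableEq V] {f p : V → V} {r : V} (hD : Dat f p r) {G : Type}
    [Group G] (x : V → G) (deg : G → ℤ) (hdeg : ∀ g v, deg (g * x v) = deg g + 1)
    (hκ : ∀ h : V → ℤ → ℚ, Harm f p r h → ∃ κ : G → ℚ, ∀ g v, κ (g * x v) = κ g + h v (deg g))
    {E : Type} [Fintype E] (a b l : E → V) (hinj : Function.Injective a) (har : ∀ e, a e ≠ r)
    (hsurj : ∀ v, v ≠ r → ∃ e, a e = v) (hf : ∀ e, f (a e) = l e) (hp : ∀ e, p (a e) = b e)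
    (Z : E → MonoidAlgebra ℤ G)
    (hZ : ∀ w, w ≠ r → ∑ e, Z e * ((if a e = w then 1 else 0)
      - (if l e = w then 1 - MonoidAlgebra.single (x (l e)) 1 else 0)
      - (if b e = w then MonoidAlgebra.single (x (l e)) 1 else 0)) = 0) :
    ∀ e, Z e = 0 := by
  set c : V → G → ℤ := fun v g => ∑ e, if a e = v then (Z e).coeff g else 0 with hcdef
  have hca : ∀ e g, c (a e) g = (Z e).coeff g := by
    intro e g
    rw [hcdef]
    simp only
    rw [Finset.sum_eq_single e]
    · simp
    · intro e' _ hne
      rw [if_neg]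
      intro h
      exact hne (hinj h)
    · intro h
      exact absurd (Finset.mem_univ e) h
  have hfin : ∀ v, (Function.support (c v)).Finite := by
    intro v
    apply Set.Finite.subset (Set.finite_iUnion (fun e : E => (Z e).coeff.support.finite_toSet))
    intro g hg
    rw [Function.mem_support] at hg
    by_contra hcon
    apply hg
    rw [hcdef]
    simp only
    apply Finset.sum_eq_zero
    intro e _
    have : (Z e).coeff g = 0 := by
      by_contra h0
      apply hcon
      rw [Set.mem_iUnion]
      exact ⟨e, by simpa using h0⟩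
    rw [this, ite_self]
  have hc : ∀ w, w ≠ r → ∀ g, c w g = ∑ v ∈ univ.erase r,
      ((if f v = w then c v g - c v (g * (x (f v))⁻¹) else 0) +
        (if p v = w then c v (g * (x (f v))⁻¹) else 0)) := by
    intro w hw g
    have h0 := congrArg (fun Y : MonoidAlgebra ℤ G => Y.coeff g) (hZ w hw)
    simp only [MonoidAlgebra.coeff_sum, Finsupp.finset_sum_apply, Cc_coeff,
      MonoidAlgebra.coeff_zero, Finsupp.zero_apply] at h0
    rw [Finset.sum_sub_distrib, sub_eq_zero] at h0
    have h1 : c w g = ∑ e, if a e = w then (Z e).coeff g else 0 := rfl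
    rw [h1, h0]
    apply Finset.sum_bij (fun e _ => a e)
    · intro e _
      exact Finset.mem_erase.mpr ⟨har e, Finset.mem_univ _⟩
    · intro e _ e' _ h
      exact hinj h
    · intro v hv
      obtain ⟨e, he⟩ := hsurj v (Finset.mem_erase.mp hv).1
      exact ⟨e, Finset.mem_univ _, he⟩
    · intro e _
      rw [hf e, hp e, hca, hca]
  have hall := core hD x deg hdeg hκ c hfin hc
  intro e
  apply MonoidAlgebra.ext
  apply Finsupp.ext
  intro g
  rw [← hca e g, hall (a e) (har e) g]
  simp

end ITA
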