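import Pool.Agent.ITA.Ex2

/-!
# ITA: counting exits in unions of components

MODULE Cn. `cnt`: in a union `U` of components of the level graph the number of `v ∈ U` with `m < lv τ (F v) v` is
the same for `F` and `F'` (injections given by the exits of `exit_desc`); the indicator of `m < lv τ (F v) v` is the
one of `m < τ v` plus the one of (`τ v = m` and `F v = true`).
-/

set_option autoImplicit false

namespace ITA

open Finset
open scoped Classical

variable {V : Type} {f p : V → V} {r : V} {F F' : V → Bool} {τ : V → ℤ}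

private theorem Cn_le (hD : Dat f p r) (hE : Ex f p r τ F) (hE' : Ex f p r τ F') (m : ℤ) (U : Finset V)
    (hr : r ∉ U) (hU : Sat f p r τ m U) :
    (U.filter fun v => m < lv τ (F v) v).card ≤ (U.filter fun v => m < lv τ (F' v) v).card := by
  choose w hw using fun v => exit_desc hD hE'.acyc τ m v
  refine Finset.card_le_card_of_injOn w ?_ ?_
  · intro v hv
    have hv' := Finset.mem_filter.1 (Finset.mem_coe.1 hv)
    have hwU : w v ∈ U := (hU v (w v) (hw v).1).1 hv'.1
    refine Finset.mem_coe.2 (Finset.mem_filter.2 ⟨hwU, ?_⟩)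
    rcases (hw v).2.1 with h | h
    · exact absurd (h ▸ hwU) hr
    · exact h
  · intro v hv v' hv' hvv
    have h1 := Finset.mem_filter.1 (Finset.mem_coe.1 hv)
    have h2 := Finset.mem_filter.1 (Finset.mem_coe.1 hv')
    have hc : Conn f p r τ m v' (w v) := by
      have h3 := (hw v').1
      rw [← hvv] at h3
      exact h3
    have n1 : v ≠ r := fun h => hr (h ▸ h1.1)
    have n2 : v' ≠ r := fun h => hr (h ▸ h2.1)
    exact hE.uni m v v' n1 n2 (conn_trans (hw v).1 (conn_symm hc)) h1.2 h2.2

private theorem Cn_ind (m : ℤ) (w : V) :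
    (if τ w = m then eps F F' w else 0) =
      (if m < lv τ (F w) w then (1 : ℤ) else 0) - (if m < lv τ (F' w) w then 1 else 0) := by
  unfold eps lv
  by_cases h : τ w = m
  · subst h
    cases F w <;> cases F' w <;> simp
  · rcases lt_or_gt_of_ne h with h1 | h1
    · have a1 : ¬ m < τ w + 1 := by omega
      have a2 : ¬ m < τ w := by omega
      cases F w <;> cases F' w <;> simp [h, a1, a2]
    · have a1 : m < τ w + 1 := by omega
      cases F w <;> cases F' w <;> simp [h, a1, h1]

theorem cnt (hD : Dat f p r) (hE : Ex f p r τ F) (hE' : Ex f p r τ F') (m : ℤ) (U : Finset V)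
    (hr : r ∉ U) (hU : Sat f p r τ m U) :
    ∑ w ∈ U, (if τ w = m then eps F F' w else 0) = 0 := by
  have h := le_antisymm (Cn_le hD hE hE' m U hr hU) (Cn_le hD hE' hE m U hr hU)
  have e1 : ∑ w ∈ U, (if τ w = m then eps F F' w else 0) =
      ∑ w ∈ U, ((if m < lv τ (F w) w then (1 : ℤ) else 0) - (if m < lv τ (F' w) w then 1 else 0)) :=
    Finset.sum_congr rfl fun w _ => Cn_ind m w
  rw [e1, Finset.sum_sub_distrib, Finset.sum_boole, Finset.sum_boole, h, sub_self]

end ITA
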