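import Mathlib

/-!
# ITA (MP_c801b5_gt): asphericity of labelled oriented trees directed to one vertex, definitions

A labelled oriented tree with all edges directed to the vertex `r`: `p v` is the parent of `v` and `f v` the
label of the edge from `v` to `p v` (`p r = f r = r` by convention). A choice `F : V → Bool` sends `v` to `p v`
(if `F v = true`) or to `f v`.
-/

set_option autoImplicit false

namespace ITA

open Finset
open scoped Classical

variable {V : Type}

/-- `p` is a tree with root `r`, `f` any map fixing `r` -/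
structure Dat (f p : V → V) (r : V) : Prop where
  fr : f r = r
  pr : p r = r
  tree : ∀ v, ∃ k : ℕ, p^[k] v = r

/-- head of the edge of type `b` leaving `v` -/
def hd (f p : V → V) (b : Bool) (v : V) : V := if b then p v else f v

/-- the map given by a choice -/
def tg (f p : V → V) (F : V → Bool) (v : V) : V := hd f p (F v) v

/-- the choice `F` is an arborescence directed to `r` -/
def Acyc (f p : V → V) (r : V) (F : V → Bool) : Prop :=
  F r = false ∧ ∀ v, ∃ k : ℕ, (tg f p F)^[k] v = r

/-- number of edges to parents -/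
noncomputable def cost [Fintype V] (F : V → Bool) : ℕ := (univ.filter fun v => F v = true).card

/-- arborescence of minimum cost -/
def MinArb [Fintype V] (f p : V → V) (r : V) (F : V → Bool) : Prop :=
  Acyc f p r F ∧ ∀ F', Acyc f p r F' → cost F ≤ cost F'

/-- level of the edge of type `b` at `v` -/
def lv (τ : V → ℤ) (b : Bool) (v : V) : ℤ := if b then τ v + 1 else τ v

/-- `a` and `b` are joined by edges of level at most `l` -/
def Conn (f p : V → V) (r : V) (τ : V → ℤ) (l : ℤ) : V → V → Prop :=
  Relation.EqvGen fun a b => a ≠ r ∧ ∃ c : Bool, lv τ c a ≤ l ∧ b = hd f p c a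

/-- `F` leaves every component of the level graph exactly once -/
structure Ex (f p : V → V) (r : V) (τ : V → ℤ) (F : V → Bool) : Prop where
  acyc : Acyc f p r F
  uni : ∀ l v w, v ≠ r → w ≠ r → Conn f p r τ l v w → l < lv τ (F v) v → l < lv τ (F w) w → v = w
  root : ∀ l v, v ≠ r → Conn f p r τ l v r → lv τ (F v) v ≤ l

/-- `v` is a descendant of `j`: the path of `F` from `v` passes through `j` -/
def Desc (f p : V → V) (F : V → Bool) (j v : V) : Prop := ∃ k : ℕ, (tg f p F)^[k] v = j

/-- indicator function of a property -/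
noncomputable def ind (P : Prop) : ℤ := if P then 1 else 0

/-- crossing number of the edge at `i` not used by `F` and the set of descendants of `j` -/
noncomputable def QQ (f p : V → V) (F : V → Bool) (i j : V) : ℤ :=
  ind (Desc f p F j i) - ind (Desc f p F j (hd f p (!F i) i))

/-- change the choice `F` at `x 0, ..., x (n - 1)` -/
noncomputable def flip (F : V → Bool) (n : ℕ) (x : ℕ → V) (v : V) : Bool :=
  if ∃ a < n, x a = v then !F v else F v

/-- `x 0, ..., x (n - 1)` are distinct -/
def Inj {I : Type} (n : ℕ) (x : ℕ → I) : Prop := ∀ a < n, ∀ b < n, x a = x b → a = b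

/-- `x 0, ..., x (n - 1)` is a cycle of the relation `R` -/
structure Cyc {I : Type} (R : I → I → Prop) (n : ℕ) (x : ℕ → I) : Prop where
  pos : 0 < n
  inj : Inj n x
  arc : ∀ a < n, R (x a) (x (a + 1))
  close : x n = x 0

/-- difference of two choices -/
def eps (F F' : V → Bool) (v : V) : ℤ := (if F v then 1 else 0) - (if F' v then 1 else 0)

/-- integral flow on the edge of type `b` at `v` -/
def NN (ν : V → ℤ) (F F' : V → Bool) (b : Bool) (v : V) : ℤ := if b then ν v else ν v + eps F F' v

/-- `U` is a union of components of the level graph -/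
def Sat (f p : V → V) (r : V) (τ : V → ℤ) (l : ℤ) (U : Finset V) : Prop :=
  ∀ v w, Conn f p r τ l v w → (v ∈ U ↔ w ∈ U)

/-- the flow equations on unions of components of the level graph -/
def FlowEq [Fintype V] [DecidableEq V] (f p : V → V) (r : V) (τ : V → ℤ) (F F' : V → Bool)
    (ν : V → ℤ) : Prop :=
  ∀ (l : ℤ) (U : Finset V), r ∉ U → Sat f p r τ (l - 1) U →
    ∑ v ∈ univ.erase r, ∑ b : Bool, (if lv τ b v = l then
      NN ν F F' b v * (ind (v ∈ U) - ind (hd f p b v ∈ U)) else 0) =
    ∑ w ∈ U, if τ w = l then eps F F' w else 0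

/-- harmonic functions -/
def Harm (f p : V → V) (r : V) (h : V → ℤ → ℚ) : Prop :=
  (∀ d, h r d = 0) ∧ ∀ v, v ≠ r → ∀ d, h v d = h (f v) d - h (f v) (d + 1) + h (p v) (d + 1)

/-- the flow is positive at `v` -/
def Pos (ν : V → ℤ) (F F' : V → Bool) (v : V) : Prop :=
  0 ≤ ν v ∧ 0 ≤ ν v + eps F F' v ∧ ¬ (ν v = 0 ∧ eps F F' v = 0)

/-- the flow is negative at `v` -/
def Neg (ν : V → ℤ) (F F' : V → Bool) (v : V) : Prop :=
  ν v ≤ 0 ∧ ν v + eps F F' v ≤ 0 ∧ ¬ (ν v = 0 ∧ eps F F' v = 0)

/-- the flow vanishes at `v` -/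
def Zer (ν : V → ℤ) (F F' : V → Bool) (v : V) : Prop := ν v = 0 ∧ eps F F' v = 0

/-- the sign statement at level `l` -/
structure Sgn (f p : V → V) (r : V) (τ : V → ℤ) (F F' : V → Bool) (ν : V → ℤ) (l : ℤ) : Prop where
  root : ∀ v, v ≠ r → Conn f p r τ l v r → Zer ν F F' v
  nmix : ∀ v w, v ≠ r → w ≠ r → Conn f p r τ l v w → Pos ν F F' v → ¬ Neg ν F F' w
  pos : ∀ v y, v ≠ r → y ≠ r → Conn f p r τ l v y → Pos ν F F' v → l < lv τ (F' y) y →
    Pos ν F F' y
  neg : ∀ v y, v ≠ r → y ≠ r → Conn f p r τ l v y → Neg ν F F' v → l < lv τ (F y) y →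
    Neg ν F F' y

end ITA
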