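import Pool.Agent.ITA.Defs

/-!
# ITA: descendants

Elementary facts on the descendants of a vertex in an arborescence: `Desc` is a partial order with the root above
all vertices, and the difference of its indicator functions at `v` and at the image of `v`.
-/

set_option autoImplicit false

namespace ITA

open Finset
open scoped Classical

variable {V : Type} {f p : V → V} {r : V} {F : V → Bool}

theorem tg_root (hD : Dat f p r) (F : V → Bool) : tg f p F r = r := by
  unfold tg hd
  split_ifs
  · exact hD.pr
  · exact hD.fr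

theorem hd_root (hD : Dat f p r) (b : Bool) : hd f p b r = r := by
  unfold hd
  split_ifs
  · exact hD.pr
  · exact hD.fr

theorem desc_self (j : V) : Desc f p F j j := by
  exact ⟨0, rfl⟩

theorem desc_iff (j v : V) : Desc f p F j v ↔ v = j ∨ Desc f p F j (tg f p F v) := by
  constructor
  · rintro ⟨k, hk⟩
    cases k with
    | zero => exact Or.inl hk
    | succ k =>
      rw [Function.iterate_succ_apply] at hk
      exact Or.inr ⟨k, hk⟩
  · rintro (h | ⟨k, hk⟩)
    · exact ⟨0, h⟩
    · refine ⟨k + 1, ?_⟩
      rw [Function.iterate_succ_apply]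
      exact hk

theorem desc_trans {i j v : V} (h : Desc f p F i j) (h' : Desc f p F j v) : Desc f p F i v := by
  obtain ⟨k, hk⟩ := h
  obtain ⟨l, hl⟩ := h'
  refine ⟨k + l, ?_⟩
  rw [Function.iterate_add_apply, hl, hk]

theorem desc_root (hF : Acyc f p r F) (v : V) : Desc f p F r v := by
  exact hF.2 v

theorem desc_of_root (hD : Dat f p r) {j : V} (h : Desc f p F j r) : j = r := by
  obtain ⟨k, hk⟩ := h
  rw [Function.iterate_fixed (tg_root hD F) k] at hk
  exact hk.symm

theorem desc_antisymm (hD : Dat f p r) (hF : Acyc f p r F) {i j : V} (h : Desc f p F i j)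
    (h' : Desc f p F j i) : i = j := by
  obtain ⟨k, hk⟩ := h
  obtain ⟨l, hl⟩ := h'
  by_contra hij
  have hl0 : 0 < l := by
    rcases Nat.eq_zero_or_pos l with h0 | h0
    · rw [h0] at hl
      exact absurd hl hij
    · exact h0
  have hper : Function.IsPeriodicPt (tg f p F) (k + l) i := by
    show (tg f p F)^[k + l] i = i
    rw [Function.iterate_add_apply, hl, hk]
  obtain ⟨N, hN⟩ := hF.2 i
  have h1 : (tg f p F)^[(k + l) * N] i = i := hper.mul_const N
  have h2 : (k + l) * N = ((k + l) * N - N) + N := by
    have h3 : 1 * N ≤ (k + l) * N := Nat.mul_le_mul_right N (by omega)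
    omega
  rw [h2, Function.iterate_add_apply, hN, Function.iterate_fixed (tg_root hD F)] at h1
  rw [← h1, Function.iterate_fixed (tg_root hD F)] at hl
  exact hij (h1.symm.trans hl)

theorem ind_tg (hD : Dat f p r) (hF : Acyc f p r F) {j : V} (hj : j ≠ r) (v : V) :
    ind (Desc f p F j v) - ind (Desc f p F j (tg f p F v)) = if v = j then 1 else 0 := by
  by_cases h : v = j
  · subst h
    have h1 : ¬ Desc f p F v (tg f p F v) := by
      intro h2
      have h3 : v = tg f p F v := desc_antisymm hD hF h2 ⟨1, rfl⟩
      obtain ⟨k, hk⟩ := hF.2 v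
      rw [Function.iterate_fixed h3.symm] at hk
      exact hj hk
    unfold ind
    rw [if_pos (desc_self v), if_neg h1, if_pos rfl]
    norm_num
  · have h1 : Desc f p F j v ↔ Desc f p F j (tg f p F v) := by
      rw [desc_iff]
      exact ⟨fun h2 => h2.resolve_left h, Or.inr⟩
    rw [if_neg h]
    unfold ind
    by_cases h2 : Desc f p F j v
    · rw [if_pos h2, if_pos (h1.1 h2)]
      norm_num
    · rw [if_neg h2, if_neg fun h3 => h2 (h1.2 h3)]
      norm_num

theorem QQ_left (hD : Dat f p r) (F : V → Bool) (j : V) : QQ f p F r j = 0 := by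
  unfold QQ
  rw [hd_root hD]
  exact sub_self _

theorem QQ_right (hF : Acyc f p r F) (i : V) : QQ f p F i r = 0 := by
  unfold QQ ind
  rw [if_pos (desc_root hF i), if_pos (desc_root hF _)]
  norm_num

end ITA
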