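import Pool.Agent.ITA.Defs

/-!
# ITA: summing the flow equation over a set

The flow equations at the vertices of `U` are added and the two sums are exchanged.
-/

set_option autoImplicit false

namespace ITA

open Finset
open scoped Classical

variable {V : Type} {f p : V → V} {r : V} {F F' : V → Bool} {τ : V → ℤ}

private theorem Dx_ind (P : Prop) [Decidable P] (c : ℤ) : (if P then c else 0) = c * ind P := by
  unfold ind
  by_cases h : P
  · rw [if_pos h, if_pos h, mul_one]
  · rw [if_neg h, if_neg h, mul_zero]

theorem flow_sum [Fintype V] [DecidableEq V] (n : V → ℤ → ℤ)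
    (hn : ∀ w, w ≠ r → ∀ d, n w d = ∑ v ∈ univ.erase r,
      ((if f v = w then n v d - n v (d - 1) + (if τ v = d then eps F F' v else 0) else 0) +
        (if p v = w then n v (d - 1) else 0))) (d : ℤ) (U : Finset V) (hU : r ∉ U) :
    ∑ v ∈ univ.erase r,
      ((n v d - n v (d - 1) + (if τ v = d then eps F F' v else 0)) *
          (ind (v ∈ U) - ind (f v ∈ U)) +
        n v (d - 1) * (ind (v ∈ U) - ind (p v ∈ U))) =
      ∑ w ∈ U, (if τ w = d then eps F F' w else 0) := by
  have h1 : ∑ w ∈ U, n w d = ∑ v ∈ univ.erase r,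
      ((n v d - n v (d - 1) + (if τ v = d then eps F F' v else 0)) * ind (f v ∈ U) +
        n v (d - 1) * ind (p v ∈ U)) := by
    have h2 : ∑ w ∈ U, n w d = ∑ w ∈ U, ∑ v ∈ univ.erase r,
        ((if f v = w then n v d - n v (d - 1) + (if τ v = d then eps F F' v else 0) else 0) +
          (if p v = w then n v (d - 1) else 0)) := by
      refine sum_congr rfl fun w hw => ?_
      refine hn w ?_ d
      rintro rfl
      exact hU hw
    rw [h2, sum_comm]
    refine sum_congr rfl fun v _ => ?_
    rw [sum_add_distrib, sum_ite_eq, sum_ite_eq, Dx_ind (f v ∈ U), Dx_ind (p v ∈ U)]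
  have h3 : ∑ v ∈ univ.erase r,
      ((n v d - n v (d - 1) + (if τ v = d then eps F F' v else 0)) + n v (d - 1)) * ind (v ∈ U) =
      ∑ w ∈ U, (n w d + (if τ w = d then eps F F' w else 0)) := by
    have h4 : (univ.erase r).filter (fun v => v ∈ U) = U := by
      ext v
      rw [mem_filter, mem_erase]
      constructor
      · exact fun h => h.2
      · intro h
        refine ⟨⟨?_, mem_univ v⟩, h⟩
        rintro rfl
        exact hU h
    have h5 : ∑ v ∈ (univ.erase r).filter (fun v => v ∈ U),
        (n v d + (if τ v = d then eps F F' v else 0)) = ∑ v ∈ univ.erase r,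
      ((n v d - n v (d - 1) + (if τ v = d then eps F F' v else 0)) + n v (d - 1)) * ind (v ∈ U) := by
      rw [sum_filter]
      refine sum_congr rfl fun v _ => ?_
      rw [Dx_ind (v ∈ U)]
      ring
    rw [← h5, h4]
  have h6 : ∑ v ∈ univ.erase r,
      ((n v d - n v (d - 1) + (if τ v = d then eps F F' v else 0)) *
          (ind (v ∈ U) - ind (f v ∈ U)) +
        n v (d - 1) * (ind (v ∈ U) - ind (p v ∈ U))) =
      ∑ v ∈ univ.erase r,
      ((n v d - n v (d - 1) + (if τ v = d then eps F F' v else 0)) + n v (d - 1)) * ind (v ∈ U) -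
      ∑ v ∈ univ.erase r,
      ((n v d - n v (d - 1) + (if τ v = d then eps F F' v else 0)) * ind (f v ∈ U) +
        n v (d - 1) * ind (p v ∈ U)) := by
    rw [← sum_sub_distrib]
    refine sum_congr rfl fun v _ => ?_
    ring
  rw [h6, h3, ← h1, sum_add_distrib]
  ring

end ITA
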