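import Pool.Agent.ITA.Cn
import Pool.Agent.ITA.Dx

/-!
# ITA: leading coefficients satisfy the flow equations

The summed flow equation is compared term by term with the flow equation for the leading coefficients.
-/

set_option autoImplicit false

namespace ITA

open Finset
open scoped Classical

variable {V : Type} {f p : V → V} {r : V} {F F' : V → Bool} {τ : V → ℤ}

private lemma Dy_ind {l : ℤ} {U : Finset V} (hS : Sat f p r τ (l - 1) U) {v : V} (hv : v ≠ r) (c : Bool)
    (h : lv τ c v ≤ l - 1) : ind (v ∈ U) - ind (hd f p c v ∈ U) = 0 := by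
  have h1 : (v ∈ U ↔ hd f p c v ∈ U) := hS v _ (conn_hd hv h)
  by_cases hU : v ∈ U
  · have h2 := h1.mp hU
    simp only [ind, if_pos hU, if_pos h2, sub_self]
  · have h2 : ¬ hd f p c v ∈ U := fun h => hU (h1.mpr h)
    simp only [ind, if_neg hU, if_neg h2, sub_self]

private lemma Dy_term (n : V → ℤ → ℤ) {m : ℤ} (hm : m ≤ 0)
    (hlow : ∀ v, v ≠ r → ∀ d, d < τ v + m → n v d = 0) {l : ℤ} {U : Finset V}
    (hS : Sat f p r τ (l - 1) U) {v : V} (hv : v ≠ r) (G : V → Bool)
    (he : τ v = l → (if τ v = l + m then eps F F' v else 0) = eps F G v) :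
    (n v (l + m) - n v (l + m - 1) + (if τ v = l + m then eps F F' v else 0)) *
        (ind (v ∈ U) - ind (f v ∈ U)) + n v (l + m - 1) * (ind (v ∈ U) - ind (p v ∈ U)) =
      ∑ b : Bool, (if lv τ b v = l then
        NN (fun v => n v (τ v + m)) F G b v * (ind (v ∈ U) - ind (hd f p b v ∈ U)) else 0) := by
  have h1 : (n v (l + m) - n v (l + m - 1) + (if τ v = l + m then eps F F' v else 0)) *
        (ind (v ∈ U) - ind (f v ∈ U)) = if τ v = l then
        (n v (τ v + m) + eps F G v) * (ind (v ∈ U) - ind (f v ∈ U)) else 0 := by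
    rcases lt_trichotomy (τ v) l with h | h | h
    · have h2 := Dy_ind hS hv false (by show τ v ≤ l - 1; omega)
      have h3 : hd f p false v = f v := rfl
      rw [h3] at h2
      rw [h2, mul_zero, if_neg (ne_of_lt h)]
    · rw [if_pos h, he h, h, hlow v hv (l + m - 1) (by omega), sub_zero]
    · rw [if_neg (ne_of_gt h), hlow v hv (l + m) (by omega), hlow v hv (l + m - 1) (by omega),
        if_neg (by omega)]
      ring
  have h2 : n v (l + m - 1) * (ind (v ∈ U) - ind (p v ∈ U)) = if τ v + 1 = l then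
        n v (τ v + m) * (ind (v ∈ U) - ind (p v ∈ U)) else 0 := by
    rcases lt_trichotomy (τ v + 1) l with h | h | h
    · have h2 := Dy_ind hS hv true (by show τ v + 1 ≤ l - 1; omega)
      have h3 : hd f p true v = p v := rfl
      rw [h3] at h2
      rw [h2, mul_zero, if_neg (ne_of_lt h)]
    · have h4 : l + m - 1 = τ v + m := by omega
      rw [if_pos h, h4]
    · rw [if_neg (ne_of_gt h), hlow v hv (l + m - 1) (by omega), zero_mul]
  rw [Fintype.sum_bool]
  simp only [lv, NN, hd, if_true, Bool.false_eq_true, if_false]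
  rw [h1, h2, add_comm]

private lemma Dy_eps (v : V) : eps F F v = 0 := by
  simp only [eps, sub_self]

theorem flow_neg [Fintype V] [DecidableEq V] (hD : Dat f p r) (hE : Ex f p r τ F)
    (hE' : Ex f p r τ F') (n : V → ℤ → ℤ)
    (hn : ∀ w, w ≠ r → ∀ d, n w d = ∑ v ∈ univ.erase r,
      ((if f v = w then n v d - n v (d - 1) + (if τ v = d then eps F F' v else 0) else 0) +
        (if p v = w then n v (d - 1) else 0))) {m : ℤ} (hm : m < 0)
    (hlow : ∀ v, v ≠ r → ∀ d, d < τ v + m → n v d = 0) :
    FlowEq f p r τ F F (fun v => n v (τ v + m)) := by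
  intro l U hU hS
  have h0 := flow_sum n hn (l + m) U hU
  have hS' : Sat f p r τ (l + m) U := fun v w h => hS v w (conn_mono (by omega) h)
  rw [cnt hD hE hE' (l + m) U hU hS'] at h0
  have h1 : ∑ w ∈ U, (if τ w = l then eps F F w else 0) = 0 := by
    refine Finset.sum_eq_zero fun w _ => ?_
    rw [Dy_eps, ite_self]
  refine Eq.trans (Finset.sum_congr rfl fun v hv => ?_) (h0.trans h1.symm)
  have hv' : v ≠ r := (Finset.mem_erase.mp hv).1
  refine (Dy_term (F := F) (F' := F') n hm.le hlow hS hv' F ?_).symm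
  intro h
  rw [Dy_eps, if_neg (by omega)]

theorem flow_zero [Fintype V] [DecidableEq V] (n : V → ℤ → ℤ)
    (hn : ∀ w, w ≠ r → ∀ d, n w d = ∑ v ∈ univ.erase r,
      ((if f v = w then n v d - n v (d - 1) + (if τ v = d then eps F F' v else 0) else 0) +
        (if p v = w then n v (d - 1) else 0)))
    (hlow : ∀ v, v ≠ r → ∀ d, d < τ v → n v d = 0) :
    FlowEq f p r τ F F' (fun v => n v (τ v)) := by
  intro l U hU hS
  have h0 := flow_sum n hn l U hU
  rw [← h0]
  refine Finset.sum_congr rfl fun v hv => ?_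
  have hv' : v ≠ r := (Finset.mem_erase.mp hv).1
  have hlow' : ∀ v, v ≠ r → ∀ d, d < τ v + 0 → n v d = 0 := by
    intro v hv d hd
    exact hlow v hv d (by omega)
  have h1 := Dy_term (F := F) (F' := F') n le_rfl hlow' hS hv' F' (by
    intro h
    rw [add_zero, if_pos h])
  simp only [add_zero] at h1
  exact h1.symm

end ITA
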