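import Pool.Agent.ITA.Se

/-!
# ITA: the sign lemma

`sign_lemma`: the sign statement `Sgn` holds at a level below all levels of edges (`sgn_base`) and hence at all higher
levels (`sgn_step`). At a level above all levels of edges every vertex is joined to `r`, so all signs vanish.
-/

set_option autoImplicit false

namespace ITA

open Finset
open scoped Classical

variable {V : Type} {f p : V → V} {r : V} {F F' : V → Bool} {τ : V → ℤ} {ν : V → ℤ}

private theorem Sg_conn_iter {l : ℤ} (hl : ∀ v b, lv τ b v ≤ l) (k : ℕ) :
    ∀ v : V, p^[k] v = r → Conn f p r τ l v r := by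
  induction k with
  | zero =>
    intro v hk
    have h : v = r := hk
    rw [h]
    exact conn_refl l r
  | succ k ih =>
    intro v hk
    by_cases hv : v = r
    · rw [hv]
      exact conn_refl l r
    · have h1 : Conn f p r τ l v (hd f p true v) := conn_hd hv (hl v true)
      have h2 : hd f p true v = p v := if_pos rfl
      rw [h2] at h1
      refine conn_trans h1 (ih (p v) ?_)
      rw [Function.iterate_succ_apply] at hk
      exact hk

theorem sign_lemma [Fintype V] [DecidableEq V] (hD : Dat f p r) (hE : Ex f p r τ F)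
    (hE' : Ex f p r τ F') (hfl : FlowEq f p r τ F F' ν) : F = F' ∧ ∀ v, v ≠ r → ν v = 0 := by
  obtain ⟨m, hm⟩ := (Set.finite_range τ).bddBelow
  obtain ⟨M, hM⟩ := (Set.finite_range τ).bddAbove
  have hm' : ∀ v, m ≤ τ v := fun v => hm ⟨v, rfl⟩
  have hM' : ∀ v, τ v ≤ M := fun v => hM ⟨v, rfl⟩
  have hlow : ∀ v b, m - 1 < lv τ b v := by
    intro v b
    have h := hm' v
    unfold lv
    split_ifs <;> omega
  have hupp : ∀ v b, lv τ b v ≤ M + 1 := by
    intro v b
    have h := hM' v
    unfold lv
    split_ifs <;> omega
  have hall : ∀ l, m - 1 ≤ l → Sgn f p r τ F F' ν l := by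
    intro l hl
    induction l, hl using Int.leInduction with
    | base => exact sgn_base hlow
    | succ n _ ih =>
      refine sgn_step hD hE hE' hfl ?_
      rw [add_sub_cancel_right]
      exact ih
  have hmM : m ≤ M := (hm' r).trans (hM' r)
  have hS := hall (M + 1) (by omega)
  have hz : ∀ v, v ≠ r → Zer ν F F' v := by
    intro v hv
    obtain ⟨k, hk⟩ := hD.tree v
    exact hS.root v hv (Sg_conn_iter hupp k v hk)
  refine ⟨?_, fun v hv => (hz v hv).1⟩
  funext v
  by_cases hv : v = r
  · rw [hv, hE.acyc.1, hE'.acyc.1]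
  · exact zer_eq (hz v hv)

end ITA
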