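import Pool.Agent.ITA.Dy
import Pool.Agent.ITA.Sg

/-!
# ITA: the values of the minimum arborescences are distinct

The coefficients of a solution vanish below the levels (otherwise the leading coefficients satisfy the homogeneous flow
equations), and the coefficients at the levels satisfy the flow equations of the sign lemma.
-/

set_option autoImplicit false

namespace ITA

open Finset
open scoped Classical

variable {V : Type} {f p : V → V} {r : V} {F F' : V → Bool} {τ : V → ℤ}

theorem low [Fintype V] [DecidableEq V] (hD : Dat f p r) (hE : Ex f p r τ F)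
    (hE' : Ex f p r τ F') (n : V → ℤ → ℤ) (hb : ∃ d0, ∀ v d, d < d0 → n v d = 0)
    (hn : ∀ w, w ≠ r → ∀ d, n w d = ∑ v ∈ univ.erase r,
      ((if f v = w then n v d - n v (d - 1) + (if τ v = d then eps F F' v else 0) else 0) +
        (if p v = w then n v (d - 1) else 0))) :
    ∀ v, v ≠ r → ∀ d, d < τ v → n v d = 0 := by
  intro v hv d hd
  by_contra hne
  obtain ⟨d0, hd0⟩ := hb
  obtain ⟨T, hT⟩ := (Set.finite_range τ).bddAbove
  have hT' : ∀ v, τ v ≤ T := fun v => hT ⟨v, rfl⟩
  obtain ⟨m, ⟨v1, hv1, d1, hn1, hm1⟩, hmin⟩ := Int.exists_least_of_bdd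
    (P := fun m : ℤ => ∃ v, v ≠ r ∧ ∃ d, n v d ≠ 0 ∧ d - τ v = m)
    ⟨d0 - T, by
      rintro z ⟨u, _, e, he, hz⟩
      have h1 : d0 ≤ e := by
        by_contra h2
        exact he (hd0 u e (by omega))
      have h3 := hT' u
      omega⟩ ⟨d - τ v, v, hv, d, hne, rfl⟩
  have hm : m < 0 := by
    have := hmin (d - τ v) ⟨v, hv, d, hne, rfl⟩
    omega
  have hlow : ∀ v, v ≠ r → ∀ d, d < τ v + m → n v d = 0 := by
    intro u hu e he
    by_contra h4
    have := hmin (e - τ u) ⟨u, hu, e, h4, rfl⟩
    omega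
  have h5 := (sign_lemma hD hE hE (flow_neg hD hE hE' n hn hm hlow)).2 v1 hv1
  apply hn1
  have h6 : d1 = τ v1 + m := by omega
  rw [h6]
  exact h5

theorem distinct [Fintype V] [DecidableEq V] (hD : Dat f p r) (hE : Ex f p r τ F)
    (hE' : Ex f p r τ F') (n : V → ℤ → ℤ) (hb : ∃ d0, ∀ v d, d < d0 → n v d = 0)
    (hn : ∀ w, w ≠ r → ∀ d, n w d = ∑ v ∈ univ.erase r,
      ((if f v = w then n v d - n v (d - 1) + (if τ v = d then eps F F' v else 0) else 0) +
        (if p v = w then n v (d - 1) else 0))) : F = F' :=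
  (sign_lemma hD hE hE' (flow_zero n hn (low hD hE hE' n hb hn))).1

end ITA
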