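import Pool.Agent.ITA.Ext

/-!
# ITA: exits from the components and crossing edges

`exit_desc`: the path of `F` from `v` is followed up to its exit from the component of the level graph; every element
`j` of the path comes before the exit (and then its edge has level at most `l`) or is on the path from the exit.
`cross`: if the edge at `i` of level `l = lv τ b i` crosses the set of descendants of `j`, the exits of both ends
agree, and both ends would be descendants of `j` if the edge of `F` at `j` had level larger than `l`.
-/

set_option autoImplicit false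

namespace ITA

open Finset
open scoped Classical

variable {V : Type} {f p : V → V} {r : V} {F : V → Bool} {τ : V → ℤ}

theorem exit_desc (hD : Dat f p r) (hF : Acyc f p r F) (τ : V → ℤ) (l : ℤ) (v : V) :
    ∃ w, Conn f p r τ l v w ∧ (w = r ∨ l < lv τ (F w) w) ∧ Desc f p F w v ∧
      ∀ j, Desc f p F j v → Desc f p F j w ∨ (j ≠ r ∧ lv τ (F j) j ≤ l) := by
  obtain ⟨k, h1, h2, h3⟩ := exit_iter hD hF τ l v
  refine ⟨(tg f p F)^[k] v, h1, h2, ⟨k, rfl⟩, ?_⟩
  rintro j ⟨m, rfl⟩
  rcases lt_or_ge m k with hm | hm
  · exact Or.inr (h3 m hm).2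
  · refine Or.inl ⟨m - k, ?_⟩
    rw [← Function.iterate_add_apply, Nat.sub_add_cancel hm]

theorem cross (hD : Dat f p r) (hE : Ex f p r τ F) {i j : V} (hi : i ≠ r) (hj : j ≠ r) (b : Bool)
    (h : ¬ (Desc f p F j i ↔ Desc f p F j (hd f p b i))) : lv τ (F j) j ≤ lv τ b i := by
  by_contra hl
  apply h
  have hc : Conn f p r τ (lv τ b i) i (hd f p b i) := conn_hd hi le_rfl
  obtain ⟨w, hw1, hw2, hw3, hw4⟩ := exit_desc hD hE.acyc τ (lv τ b i) i
  obtain ⟨w', hw1', hw2', hw3', hw4'⟩ := exit_desc hD hE.acyc τ (lv τ b i) (hd f p b i)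
  have hww : Conn f p r τ (lv τ b i) w w' := conn_trans (conn_symm hw1) (conn_trans hc hw1')
  have he : w = w' := by
    by_cases hwr : w = r
    · by_cases hwr' : w' = r
      · rw [hwr, hwr']
      · exfalso
        have h4 := conn_symm hww
        rw [hwr] at h4
        have h5 := hE.root (lv τ b i) w' hwr' h4
        rcases hw2' with h6 | h6
        · exact hwr' h6
        · exact absurd h6 (not_lt.2 h5)
    · have h7 : lv τ b i < lv τ (F w) w := hw2.resolve_left hwr
      by_cases hwr' : w' = r
      · exfalso
        have h4 := hww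
        rw [hwr'] at h4
        have h5 := hE.root (lv τ b i) w hwr h4
        exact absurd h7 (not_lt.2 h5)
      · exact hE.uni _ w w' hwr hwr' hww h7 (hw2'.resolve_left hwr')
  subst he
  constructor
  · intro h8
    rcases hw4 j h8 with h9 | h9
    · exact desc_trans h9 hw3'
    · exact absurd h9.2 hl
  · intro h8
    rcases hw4' j h8 with h9 | h9
    · exact desc_trans h9 hw3
    · exact absurd h9.2 hl

end ITA
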