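import Pool.Agent.ITA.Ds

/-!
# ITA: paths inside the components of the level graph

MODULE Ext. Elementary facts on the relation `Conn` (joined by edges of level at most `l`), and the first exit of the path
of `F` from the component of `v` (`exit_iter`).
-/

set_option autoImplicit false

namespace ITA

open Finset
open scoped Classical

variable {V : Type} {f p : V → V} {r : V} {F : V → Bool} {τ : V → ℤ}

theorem conn_refl (l : ℤ) (v : V) : Conn f p r τ l v v := Relation.EqvGen.refl v

theorem conn_symm {l : ℤ} {v w : V} (h : Conn f p r τ l v w) : Conn f p r τ l w v :=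
  Relation.EqvGen.symm _ _ h

theorem conn_trans {l : ℤ} {u v w : V} (h : Conn f p r τ l u v) (h' : Conn f p r τ l v w) :
    Conn f p r τ l u w :=
  Relation.EqvGen.trans _ _ _ h h'

theorem conn_hd {l : ℤ} {v : V} (hv : v ≠ r) {b : Bool} (h : lv τ b v ≤ l) :
    Conn f p r τ l v (hd f p b v) :=
  Relation.EqvGen.rel _ _ ⟨hv, b, h, rfl⟩

theorem conn_mono {l l' : ℤ} (hl : l ≤ l') {v w : V} (h : Conn f p r τ l v w) :
    Conn f p r τ l' v w := by
  induction h with
  | rel a b hab =>
    obtain ⟨ha, c, hc, hb⟩ := hab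
    exact Relation.EqvGen.rel _ _ ⟨ha, c, hc.trans hl, hb⟩
  | refl a => exact Relation.EqvGen.refl a
  | symm a b _ ih => exact Relation.EqvGen.symm _ _ ih
  | trans a b c _ _ ih1 ih2 => exact Relation.EqvGen.trans _ _ _ ih1 ih2

theorem exit_iter (hD : Dat f p r) (hF : Acyc f p r F) (τ : V → ℤ) (l : ℤ) (v : V) :
    ∃ k : ℕ, Conn f p r τ l v ((tg f p F)^[k] v) ∧
      ((tg f p F)^[k] v = r ∨ l < lv τ (F ((tg f p F)^[k] v)) ((tg f p F)^[k] v)) ∧
      ∀ m < k, Conn f p r τ l v ((tg f p F)^[m] v) ∧ (tg f p F)^[m] v ≠ r ∧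
        lv τ (F ((tg f p F)^[m] v)) ((tg f p F)^[m] v) ≤ l := by
  obtain ⟨n, hn⟩ := hF.2 v
  induction n generalizing v with
  | zero =>
    exact ⟨0, conn_refl l v, Or.inl hn, fun m hm => absurd hm (Nat.not_lt_zero m)⟩
  | succ n ih =>
    by_cases h0 : v = r ∨ l < lv τ (F v) v
    · exact ⟨0, conn_refl l v, h0, fun m hm => absurd hm (Nat.not_lt_zero m)⟩
    · rw [not_or, not_lt] at h0
      have h1 : Conn f p r τ l v (tg f p F v) := conn_hd h0.1 h0.2
      obtain ⟨k, h2, h3, h4⟩ := ih (tg f p F v) hn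
      refine ⟨k + 1, ?_, ?_, ?_⟩
      · rw [Function.iterate_succ_apply]
        exact conn_trans h1 h2
      · rw [Function.iterate_succ_apply]
        exact h3
      · intro m hm
        cases m with
        | zero => exact ⟨conn_refl l v, h0.1, h0.2⟩
        | succ m =>
          rw [Function.iterate_succ_apply]
          obtain ⟨h5, h6, h7⟩ := h4 m (by omega)
          exact ⟨conn_trans h1 h5, h6, h7⟩

end ITA
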