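import Mathlib

/-!
# ITA (MP_c801b5_gt): labelled oriented trees, the presentation and the boundary map

The definitions used in the statement of the theorem, the relations in the group and the value of the Fox
derivatives of the relators.
-/

set_option autoImplicit false

namespace ITA

open Finset

/-- A labelled oriented tree on the vertex set `Fin n`, given by the function `L`: `L a b = some c` means that
there is an edge from `a` to `b` with label `c`, `L a b = none` that there is none. Every edge has one direction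
only, and the underlying graph is a tree. -/
def IsLOT {n : ℕ} (L : Fin n → Fin n → Option (Fin n)) : Prop :=
  (∀ a b, (L a b).isSome = true → L b a = none) ∧
    (SimpleGraph.fromRel (fun a b => (L a b).isSome = true)).IsTree

/-- the edges of `L`; `e.1.1 = i(e)` is the initial vertex, `e.1.2 = t(e)` the terminal vertex -/
abbrev Edge {n : ℕ} (L : Fin n → Fin n → Option (Fin n)) : Type :=
  {p : Fin n × Fin n // (L p.1 p.2).isSome = true}

/-- the label `λ(e)` -/
def lab {n : ℕ} (L : Fin n → Fin n → Option (Fin n)) (e : Edge L) : Fin n := (L e.1.1 e.1.2).get e.2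

/-- the relator `i(e) λ(e) t(e)^{-1} λ(e)^{-1}` as a word (`(v, true)` is the letter `v`, `(v, false)` is `v^{-1}`) -/
def relWord {n : ℕ} (L : Fin n → Fin n → Option (Fin n)) (e : Edge L) : List (Fin n × Bool) :=
  [(e.1.1, true), (lab L e, true), (e.1.2, false), (lab L e, false)]

/-- the group of the presentation `P(Γ)`: one generator for every vertex, one relator for every edge -/
abbrev LOTGroup {n : ℕ} (L : Fin n → Fin n → Option (Fin n)) : Type :=
  PresentedGroup (Set.range (fun e : Edge L => FreeGroup.mk (relWord L e)))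

/-- the generator of `LOTGroup L` given by the vertex `v` -/
def gen {n : ℕ} (L : Fin n → Fin n → Option (Fin n)) (v : Fin n) : LOTGroup L := PresentedGroup.of v

/-- Fox derivative with respect to the generator `v` of a word, with values in the group ring of the group of
`L`: `∂(a w) = ∂a + a ∂w`, `∂(a^{-1} w) = -a^{-1} ∂a + a^{-1} ∂w`, `∂a = 1` if `a = v` and `0` otherwise -/
noncomputable def fox {n : ℕ} (L : Fin n → Fin n → Option (Fin n)) (v : Fin n) :
    List (Fin n × Bool) → MonoidAlgebra ℤ (LOTGroup L)
  | [] => 0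
  | (a, true) :: w => (if a = v then 1 else 0) + MonoidAlgebra.single (gen L a) 1 * fox L v w
  | (a, false) :: w => -(MonoidAlgebra.single (gen L a)⁻¹ 1 * (if a = v then 1 else 0))
      + MonoidAlgebra.single (gen L a)⁻¹ 1 * fox L v w

/-- The cellular boundary map `C_2 → C_1` of the universal covering of the presentation complex `K(Γ)`: `C_2` is the
free `ℤ[G]`-module on the edges (2-cells), `C_1` the free `ℤ[G]`-module on the vertices of `Γ` (1-cells), and the
basis element `e` is mapped to `∑ v, (∂ r_e / ∂ v) v`. -/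
noncomputable def boundary {n : ℕ} (L : Fin n → Fin n → Option (Fin n))
    (x : Edge L → MonoidAlgebra ℤ (LOTGroup L)) (v : Fin n) : MonoidAlgebra ℤ (LOTGroup L) :=
  ∑ e, x e * fox L v (relWord L e)

/-- `K(Γ)` is aspherical: `C_2 → C_1` is injective, i.e. `π_2(K(Γ)) = H_2` of the universal covering vanishes -/
def Aspherical {n : ℕ} (L : Fin n → Fin n → Option (Fin n)) : Prop :=
  Function.Injective (boundary L)

theorem relator_trivial {n : ℕ} (L : Fin n → Fin n → Option (Fin n)) (e : Edge L) :
    gen L e.1.1 * gen L (lab L e) = gen L (lab L e) * gen L e.1.2 := by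
  have h : PresentedGroup.mk (Set.range (fun e : Edge L => FreeGroup.mk (relWord L e)))
      (FreeGroup.mk (relWord L e)) = 1 := by
    refine (QuotientGroup.eq_one_iff _).2 (Subgroup.subset_normalClosure ⟨e, rfl⟩)
  have h2 : FreeGroup.mk (relWord L e)
      = FreeGroup.of e.1.1 * FreeGroup.of (lab L e) * (FreeGroup.of e.1.2)⁻¹
        * (FreeGroup.of (lab L e))⁻¹ := by
    rfl
  rw [h2, map_mul, map_mul, map_mul, map_inv, map_inv] at h
  have h3 : gen L e.1.1 * gen L (lab L e) * (gen L e.1.2)⁻¹ * (gen L (lab L e))⁻¹ = 1 := h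
  rw [mul_inv_eq_one, mul_inv_eq_iff_eq_mul] at h3
  exact h3

/-- the entries of the Jacobian matrix of a system of relators `i l t^{-1} l^{-1}` -/
noncomputable def jac {V E : Type} [DecidableEq V] (i t l : E → V) {G : Type} [Group G] (x : V → G)
    (e : E) (v : V) : MonoidAlgebra ℤ G :=
  (if i e = v then 1 else 0)
    + (if l e = v then MonoidAlgebra.single (x (i e)) 1 else 0)
    - (if t e = v then MonoidAlgebra.single (x (l e)) 1 else 0)
    - (if l e = v then 1 else 0)

theorem fox_rel {n : ℕ} (L : Fin n → Fin n → Option (Fin n)) (e : Edge L) (v : Fin n) :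
    fox L v (relWord L e) = jac (fun e : Edge L => e.1.1) (fun e : Edge L => e.1.2) (lab L) (gen L) e v := by
  have h1 := relator_trivial L e
  have h2 : gen L e.1.1 * (gen L (lab L e) * (gen L e.1.2)⁻¹) = gen L (lab L e) := by
    rw [← mul_assoc, h1, mul_inv_cancel_right]
  have h3 : gen L e.1.1 * (gen L (lab L e) * ((gen L e.1.2)⁻¹ * (gen L (lab L e))⁻¹)) = 1 := by
    rw [← mul_assoc (gen L (lab L e)), ← mul_assoc, h2, mul_inv_cancel]
  have h4 : jac (fun e : Edge L => e.1.1) (fun e : Edge L => e.1.2) (lab L) (gen L) e v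
      = (if e.1.1 = v then 1 else 0)
    + (if lab L e = v then MonoidAlgebra.single (gen L e.1.1) 1 else 0)
    - (if e.1.2 = v then MonoidAlgebra.single (gen L (lab L e)) 1 else 0)
    - (if lab L e = v then 1 else 0) := rfl
  rw [h4]
  simp only [fox, relWord]
  have e1 : (MonoidAlgebra.single (gen L e.1.1) (1 : ℤ)) * (MonoidAlgebra.single (gen L (lab L e)) (1 : ℤ)
      * (MonoidAlgebra.single (gen L e.1.2)⁻¹ (1 : ℤ)))
      = MonoidAlgebra.single (gen L (lab L e)) 1 := by
    rw [MonoidAlgebra.single_mul_single, MonoidAlgebra.single_mul_single, h2, one_mul, one_mul]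
  have e2 : (MonoidAlgebra.single (gen L e.1.1) (1 : ℤ)) * (MonoidAlgebra.single (gen L (lab L e)) (1 : ℤ)
      * (MonoidAlgebra.single (gen L e.1.2)⁻¹ (1 : ℤ)
        * MonoidAlgebra.single (gen L (lab L e))⁻¹ (1 : ℤ))) = 1 := by
    rw [MonoidAlgebra.single_mul_single, MonoidAlgebra.single_mul_single,
      MonoidAlgebra.single_mul_single, h3]
    simp [MonoidAlgebra.one_def]
  have e3 : (MonoidAlgebra.single (gen L e.1.1) (1 : ℤ)) * (if lab L e = v then 1 else 0)
      = (if lab L e = v then MonoidAlgebra.single (gen L e.1.1) 1 else 0) := by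
    split_ifs <;> simp
  have e4 : MonoidAlgebra.single (gen L e.1.1) (1 : ℤ) * (MonoidAlgebra.single (gen L (lab L e)) (1 : ℤ)
      * (MonoidAlgebra.single (gen L e.1.2)⁻¹ (1 : ℤ) * (if e.1.2 = v then 1 else 0)))
      = (if e.1.2 = v then MonoidAlgebra.single (gen L (lab L e)) 1 else 0) := by
    split_ifs
    · rw [mul_one, e1]
    · simp
  have e5 : MonoidAlgebra.single (gen L e.1.1) (1 : ℤ) * (MonoidAlgebra.single (gen L (lab L e)) (1 : ℤ)
      * (MonoidAlgebra.single (gen L e.1.2)⁻¹ (1 : ℤ)
        * (MonoidAlgebra.single (gen L (lab L e))⁻¹ (1 : ℤ) * (if lab L e = v then 1 else 0))))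
      = (if lab L e = v then 1 else 0) := by
    split_ifs
    · rw [mul_one, e2]
    · simp
  simp only [mul_add, mul_neg, mul_zero, add_zero, e3, e4, e5]
  abel

end ITA
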