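import Pool.Agent.ITA.Ps
import Pool.Agent.ITA.Lot

/-!
# ITA: degrees and values for the group of a labelled oriented tree

A harmonic function `h` gives the shifts `TT h v`, which satisfy the relations of the group (`tt_rel`), hence a position in `ℤ × ℚ` of every
element of the group (`exists_pos`). The first coordinate is the degree, it does not depend on `h` (`deg_unique`); the second
coordinate is the value. The two theorems are the cases of edges directed to the root and away from the root.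
-/

set_option autoImplicit false

namespace ITA

open Finset

theorem deg_unique {V : Type} {rels : Set (FreeGroup V)} (y : V → PresentedGroup rels)
    (hy : (∀ v, y v = PresentedGroup.of v) ∨ (∀ v, y v = (PresentedGroup.of v)⁻¹))
    (d d' : PresentedGroup rels → ℤ) (h1 : d 1 = d' 1) (h : ∀ g v, d (g * y v) = d g + 1)
    (h' : ∀ g v, d' (g * y v) = d' g + 1) : d = d' := by
  let S : Subgroup (PresentedGroup rels) :=
    { carrier := {u | ∀ g, d (g * u) - d g = d' (g * u) - d' g}
      mul_mem' := by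
        intro a b ha hb g
        have h2 := ha g
        have h3 := hb (g * a)
        rw [← mul_assoc]
        linarith
      one_mem' := by
        intro g
        rw [mul_one]
        ring
      inv_mem' := by
        intro a ha g
        have h2 := ha (g * a⁻¹)
        rw [inv_mul_cancel_right] at h2
        linarith }
  have hyS : ∀ v, y v ∈ S := by
    intro v g
    rw [h, h']
    ring
  have hS : ∀ v, (PresentedGroup.of v : PresentedGroup rels) ∈ S := by
    intro v
    rcases hy with hy | hy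
    · rw [← hy v]
      exact hyS v
    · have h2 := S.inv_mem (hyS v)
      rwa [hy v, inv_inv] at h2
  have hT : S = ⊤ := by
    rw [eq_top_iff, ← PresentedGroup.closure_range_of rels, Subgroup.closure_le]
    rintro _ ⟨v, rfl⟩
    exact hS v
  funext u
  have h2 : u ∈ S := by
    rw [hT]
    exact Subgroup.mem_top u
  have h3 : d (1 * u) - d 1 = d' (1 * u) - d' 1 := h2 1
  rw [one_mul, h1] at h3
  linarith

private theorem Fb_word {n : ℕ} (L : Fin n → Fin n → Option (Fin n)) {G : Type} [Group G] (T : Fin n → G) (e : Edge L) :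
    FreeGroup.lift T (FreeGroup.mk (relWord L e)) = T e.1.1 * T (lab L e) * (T e.1.2)⁻¹ * (T (lab L e))⁻¹ := by
  have h2 : FreeGroup.mk (relWord L e)
      = FreeGroup.of e.1.1 * FreeGroup.of (lab L e) * (FreeGroup.of e.1.2)⁻¹
        * (FreeGroup.of (lab L e))⁻¹ := rfl
  rw [h2, map_mul, map_mul, map_mul, map_inv, map_inv, FreeGroup.lift_apply_of, FreeGroup.lift_apply_of,
    FreeGroup.lift_apply_of]

private theorem Fb_gen {n : ℕ} (L : Fin n → Fin n → Option (Fin n)) {f p : Fin n → Fin n} {r : Fin n} (s : Bool)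
    (y : Fin n → LOTGroup L) (hy : ∀ v, y v = if s then PresentedGroup.of v else (PresentedGroup.of v)⁻¹)
    (hT : ∀ h : Fin n → ℤ → ℚ, Harm f p r h → ∀ ρ ∈ Set.range (fun e : Edge L => FreeGroup.mk (relWord L e)),
      FreeGroup.lift (fun v => if s then (TT h v)⁻¹ else TT h v) ρ = 1) :
    ∃ deg : LOTGroup L → ℤ, (∀ g v, deg (g * y v) = deg g + 1) ∧
      ∀ h : Fin n → ℤ → ℚ, Harm f p r h →
        ∃ κ : LOTGroup L → ℚ, ∀ g v, κ (g * y v) = κ g + h v (deg g) := by
  have hy2 : (∀ v, y v = PresentedGroup.of v) ∨ (∀ v, y v = (PresentedGroup.of v)⁻¹) := by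
    cases s
    · exact Or.inr fun v => by rw [hy v]; rfl
    · exact Or.inl fun v => by rw [hy v]; rfl
  have key : ∀ h : Fin n → ℤ → ℚ, Harm f p r h → ∃ pos : LOTGroup L → ℤ × ℚ, pos 1 = (0, 0) ∧
      ∀ g v, pos (g * y v) = ((pos g).1 + 1, (pos g).2 + h v (pos g).1) := by
    intro h hh
    obtain ⟨pos, h1, h2⟩ := exists_pos _ s (TT h) (hT h hh)
    refine ⟨pos, h1, fun g v => ?_⟩
    rw [hy v, h2 g v]
    rfl
  have h0 : Harm f p r (fun _ _ => 0) := ⟨fun _ => rfl, fun _ _ _ => by ring⟩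
  obtain ⟨pos0, a1, a2⟩ := key _ h0
  refine ⟨fun g => (pos0 g).1, fun g v => by simp only [a2], fun h hh => ?_⟩
  obtain ⟨pos, b1, b2⟩ := key h hh
  have h3 : (fun g => (pos g).1) = fun g => (pos0 g).1 :=
    deg_unique y hy2 _ _ (by simp only [a1, b1]) (fun g v => by simp only [b2]) (fun g v => by simp only [a2])
  refine ⟨fun g => (pos g).2, fun g v => ?_⟩
  have h4 : (pos g).1 = (pos0 g).1 := congrFun h3 g
  simp only [b2, h4]

theorem deg_in {n : ℕ} (L : Fin n → Fin n → Option (Fin n)) {f p : Fin n → Fin n} {r : Fin n}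
    (hr : ∀ e : Edge L, e.1.1 ≠ r) (hf : ∀ e : Edge L, f e.1.1 = lab L e)
    (hp : ∀ e : Edge L, p e.1.1 = e.1.2) :
    ∃ deg : LOTGroup L → ℤ, (∀ g v, deg (g * gen L v) = deg g + 1) ∧
      ∀ h : Fin n → ℤ → ℚ, Harm f p r h →
        ∃ κ : LOTGroup L → ℚ, ∀ g v, κ (g * gen L v) = κ g + h v (deg g) := by
  refine Fb_gen L true (gen L) (fun v => rfl) ?_
  rintro h hh _ ⟨e, rfl⟩
  have h1 := tt_rel hh (hr e)
  rw [hf e, hp e] at h1
  have h2 : FreeGroup.lift (fun v => if true then (TT h v)⁻¹ else TT h v) (FreeGroup.mk (relWord L e)) =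
      (TT h e.1.1)⁻¹ * (TT h (lab L e))⁻¹ * ((TT h e.1.2)⁻¹)⁻¹ * ((TT h (lab L e))⁻¹)⁻¹ :=
    Fb_word L (fun v => (TT h v)⁻¹) e
  refine h2.trans ?_
  rw [inv_inv, inv_inv, mul_assoc, ← h1]
  group

theorem deg_out {n : ℕ} (L : Fin n → Fin n → Option (Fin n)) {f p : Fin n → Fin n} {r : Fin n}
    (hr : ∀ e : Edge L, e.1.2 ≠ r) (hf : ∀ e : Edge L, f e.1.2 = lab L e)
    (hp : ∀ e : Edge L, p e.1.2 = e.1.1) :
    ∃ deg : LOTGroup L → ℤ, (∀ g v, deg (g * (gen L v)⁻¹) = deg g + 1) ∧
      ∀ h : Fin n → ℤ → ℚ, Harm f p r h →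
        ∃ κ : LOTGroup L → ℚ, ∀ g v, κ (g * (gen L v)⁻¹) = κ g + h v (deg g) := by
  refine Fb_gen L false (fun v => (gen L v)⁻¹) (fun v => rfl) ?_
  rintro h hh _ ⟨e, rfl⟩
  have h1 := tt_rel hh (hr e)
  rw [hf e, hp e] at h1
  have h2 : FreeGroup.lift (fun v => if false then (TT h v)⁻¹ else TT h v) (FreeGroup.mk (relWord L e)) =
      TT h e.1.1 * TT h (lab L e) * (TT h e.1.2)⁻¹ * (TT h (lab L e))⁻¹ :=
    Fb_word L (TT h) e
  refine h2.trans ?_
  rw [← h1]
  group

end ITA
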