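import Pool.Agent.ITA.Defs

/-!
# ITA: the transposed Laplacian is injective

`Lap` is the transposed Laplacian with coefficients in a ring, `n v d` being the coefficient of `t ^ d`. `lap_inj`: it is
injective on functions with finite support, over every commutative ring (divide by `1 - t`, induction on the length of
the support).
-/

set_option autoImplicit false

namespace ITA

open Finset
open scoped Classical

variable {V : Type}

/-- the transposed Laplacian -/
def Lap [Fintype V] [DecidableEq V] {R : Type} [Ring R] (f p : V → V) (r : V)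
    (n : V → ℤ → R) (w : V) (d : ℤ) : R :=
  n w d - ∑ v ∈ univ.erase r, ((if f v = w then n v d - n v (d - 1) else 0) +
    (if p v = w then n v (d - 1) else 0))

private theorem It_S {R : Type} [CommRing R] (n : ℤ → R) (a : ℤ) (hs : ∀ d, d < a → n d = 0) (d : ℤ) :
    ∑ e ∈ Icc a d, n e - ∑ e ∈ Icc a (d - 1), n e = n d := by
  rcases lt_or_ge d a with h | h
  · rw [Icc_eq_empty (by omega), Icc_eq_empty (by omega), hs d h]
    simp
  · have h1 : Icc a d = insert d (Icc a (d - 1)) := by
      ext x
      simp only [mem_insert, mem_Icc]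
      omega
    rw [h1, sum_insert (by simp)]
    ring

private theorem It_lin [Fintype V] [DecidableEq V] (f p : V → V) (r : V) {R : Type} [CommRing R]
    (n S : V → ℤ → R) (h : ∀ v d, S v d - S v (d - 1) = n v d) (w : V) (D : ℤ) :
    Lap f p r S w D - Lap f p r S w (D - 1) = Lap f p r n w D := by
  unfold Lap
  simp only [← h]
  rw [sub_sub_sub_comm, ← sum_sub_distrib]
  congr 1
  refine sum_congr rfl fun v _ => ?_
  split_ifs <;> ring

private theorem It_zero [Fintype V] [DecidableEq V] (f p : V → V) (r : V) {R : Type} [CommRing R]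
    (n S : V → ℤ → R) (h : ∀ v d, S v d - S v (d - 1) = n v d) (w : V) (a : ℤ)
    (ha : ∀ v d, d < a → S v d = 0) (hn : ∀ d, Lap f p r n w d = 0) (D : ℤ) :
    Lap f p r S w D = 0 := by
  have h0 : ∀ D : ℤ, D < a → Lap f p r S w D = 0 := by
    intro D hD
    unfold Lap
    rw [ha w D hD, sum_eq_zero, sub_zero]
    intro v _
    rw [ha v D hD, ha v (D - 1) (by omega)]
    simp
  rcases lt_or_ge D a with h1 | h1
  · exact h0 D h1
  · refine Int.leInduction (m := a - 1) (motive := fun D _ => Lap f p r S w D = 0) (h0 _ (by omega)) ?_ D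
      (by omega)
    intro d _ hd
    have h2 := It_lin f p r n S h w (d + 1)
    rw [hn, add_sub_cancel_right, hd, sub_zero] at h2
    exact h2

private theorem It_tree [Fintype V] [DecidableEq V] {f p : V → V} {r : V} (hD : Dat f p r) {R : Type}
    [CommRing R] (s : V → R) (h : ∀ w, w ≠ r → s w = ∑ v ∈ univ.erase r, if p v = w then s v else 0) :
    ∀ v, v ≠ r → s v = 0 := by
  have hk : ∀ u, u ≠ r → ∀ v, v ≠ r → p u = v → Nat.find (hD.tree v) + 1 ≤ Nat.find (hD.tree u) := by
    intro u hu v hv huv
    have h1 := Nat.find_spec (hD.tree u)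
    cases hm : Nat.find (hD.tree u) with
    | zero =>
      rw [hm] at h1
      exact absurd h1 hu
    | succ m =>
      rw [hm, Function.iterate_succ_apply, huv] at h1
      exact Nat.succ_le_succ (Nat.find_min' (hD.tree v) h1)
  obtain ⟨K, hK⟩ : ∃ K : ℕ, ∀ v, Nat.find (hD.tree v) ≤ K :=
    ⟨univ.sup fun v => Nat.find (hD.tree v), fun v => le_sup (f := fun v => Nat.find (hD.tree v)) (mem_univ v)⟩
  have key : ∀ j : ℕ, ∀ v, v ≠ r → K ≤ Nat.find (hD.tree v) + j → s v = 0 := by
    intro j
    induction j with
    | zero =>
      intro v hv hj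
      rw [h v hv]
      refine sum_eq_zero fun u hu => ?_
      rw [if_neg]
      intro hp
      have h1 := hk u (ne_of_mem_erase hu) v hv hp
      have h2 := hK u
      omega
    | succ j ih =>
      intro v hv hj
      rw [h v hv]
      refine sum_eq_zero fun u hu => ?_
      split_ifs with hp
      · refine ih u (ne_of_mem_erase hu) ?_
        have h1 := hk u (ne_of_mem_erase hu) v hv hp
        omega
      · rfl
  exact fun v hv => key K v hv (by omega)

theorem lap_inj [Fintype V] [DecidableEq V] {f p : V → V} {r : V} (hD : Dat f p r) {R : Type}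
    [CommRing R] (n : V → ℤ → R) (a b : ℤ) (hs : ∀ v d, d < a ∨ b < d → n v d = 0)
    (h : ∀ w, w ≠ r → ∀ d, Lap f p r n w d = 0) : ∀ v, v ≠ r → ∀ d, n v d = 0 := by
  obtain ⟨m, hm⟩ : ∃ m : ℕ, b + 1 - a ≤ m := ⟨(b + 1 - a).toNat, Int.self_le_toNat _⟩
  induction m generalizing n b with
  | zero =>
    intro v _ d
    refine hs v d ?_
    push_cast at hm
    omega
  | succ m ih =>
    set S : V → ℤ → R := fun v d => ∑ e ∈ Icc a d, n v e with hS
    have h1 : ∀ v d, S v d - S v (d - 1) = n v d := fun v d => It_S (n v) a (fun d hd => hs v d (Or.inl hd)) d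
    have h2 : ∀ v d, d < a → S v d = 0 := by
      intro v d hd
      rw [hS]
      simp only
      rw [Icc_eq_empty (by omega), sum_empty]
    have h3 : ∀ w, w ≠ r → ∀ d, Lap f p r S w d = 0 := fun w hw d => It_zero f p r n S h1 w a h2 (h w hw) d
    have h4 : ∀ v d, b ≤ d → S v d = S v b := by
      intro v d hd
      refine Int.leInduction (m := b) (motive := fun D _ => S v D = S v b) rfl ?_ d hd
      intro e he hS'
      have h5 := h1 v (e + 1)
      rw [hs v (e + 1) (Or.inr (by omega)), add_sub_cancel_right, hS', sub_eq_zero] at h5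
      exact h5
    have h5 : ∀ v, v ≠ r → S v b = 0 := by
      refine It_tree hD (fun v => S v b) fun w hw => ?_
      have h6 := h3 w hw (b + 1)
      unfold Lap at h6
      rw [sub_eq_zero, h4 w (b + 1) (by omega)] at h6
      rw [h6]
      refine sum_congr rfl fun v _ => ?_
      rw [h4 v (b + 1) (by omega), add_sub_cancel_right, sub_self, ite_self, zero_add]
    have h7 : ∀ v, v ≠ r → ∀ d, (if v = r then (0 : R) else S v d) = 0 := by
      refine ih (fun v d => if v = r then 0 else S v d) (b - 1) ?_ ?_ (by push_cast at hm; omega)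
      · intro v d hd
        by_cases hv : v = r
        · simp only [if_pos hv]
        · simp only [if_neg hv]
          rcases hd with hd | hd
          · exact h2 v d hd
          · rw [h4 v d (by omega), h5 v hv]
      · intro w hw d
        have h8 := h3 w hw d
        unfold Lap at h8 ⊢
        simp only [if_neg hw]
        refine Eq.trans ?_ h8
        congr 1
        refine sum_congr rfl fun v hv => ?_
        simp only [if_neg (ne_of_mem_erase hv)]
    intro v hv d
    have h8 := h7 v hv d
    have h9 := h7 v hv (d - 1)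
    rw [if_neg hv] at h8 h9
    rw [← h1 v d, h8, h9, sub_zero]

end ITA
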