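import Pool.Agent.ITA.It

/-!
# ITA: integrality

`lap_int`: a rational solution with integral right hand side is integral. Strong induction on a common denominator
`m`: for a prime divisor `q` of `m` the integers `m * n v d` solve the homogeneous system modulo `q`, hence they are
divisible by `q` (`lap_inj` over `ZMod q`), and `m / q` is a common denominator.
-/

set_option autoImplicit false

namespace ITA

open Finset
open scoped Classical

variable {V : Type}

private theorem Iu_cast [Fintype V] [DecidableEq V] {f p : V → V} {r : V} {n : V → ℤ → ℚ} {m : ℚ}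
    {k : V → ℤ → ℤ} (hk : ∀ v, v ≠ r → ∀ d, m * n v d = (k v d : ℚ)) {w : V} (hw : w ≠ r) (d : ℤ) :
    ((Lap f p r k w d : ℤ) : ℚ) = m * Lap f p r n w d := by
  unfold Lap
  rw [Int.cast_sub, Int.cast_sum, mul_sub, Finset.mul_sum, hk w hw d]
  congr 1
  refine sum_congr rfl fun v hv => ?_
  have hv' : v ≠ r := (mem_erase.mp hv).1
  rw [Int.cast_add, mul_add]
  have h1 := hk v hv' d
  have h2 := hk v hv' (d - 1)
  congr 1
  · split_ifs
    · rw [Int.cast_sub, mul_sub, h1, h2]
    · rw [Int.cast_zero, mul_zero]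
  · split_ifs
    · exact h2.symm
    · rw [Int.cast_zero, mul_zero]

private theorem Iu_mod [Fintype V] [DecidableEq V] {f p : V → V} {r : V} (q : ℕ)
    (k : V → ℤ → ℤ) (w : V) (d : ℤ) :
    ((Lap f p r k w d : ℤ) : ZMod q) = Lap f p r (fun v e => ((k v e : ℤ) : ZMod q)) w d := by
  unfold Lap
  rw [Int.cast_sub, Int.cast_sum]
  congr 1
  refine sum_congr rfl fun v _ => ?_
  rw [Int.cast_add]
  congr 1
  · split_ifs
    · rw [Int.cast_sub]
    · rw [Int.cast_zero]
  · split_ifs
    · rfl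
    · rw [Int.cast_zero]

private theorem Iu_main [Fintype V] [DecidableEq V] {f p : V → V} {r : V} (hD : Dat f p r)
    (n : V → ℤ → ℚ) (a b : ℤ) (hs : ∀ v d, d < a ∨ b < d → n v d = 0)
    (h : ∀ w, w ≠ r → ∀ d, ∃ m : ℤ, Lap f p r n w d = m) :
    ∀ m : ℕ, 0 < m → (∀ v, v ≠ r → ∀ d, ∃ k : ℤ, (m : ℚ) * n v d = k) →
      ∀ v, v ≠ r → ∀ d, ∃ k : ℤ, n v d = k := by
  intro m
  induction m using Nat.strong_induction_on with
  | _ m ih =>
    intro hm hk
    rcases eq_or_ne m 1 with h1 | h1
    · intro v hv d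
      obtain ⟨k, hk'⟩ := hk v hv d
      refine ⟨k, ?_⟩
      rw [h1, Nat.cast_one, one_mul] at hk'
      exact hk'
    · have hq : m.minFac.Prime := Nat.minFac_prime h1
      obtain ⟨m', hm'⟩ := Nat.minFac_dvd m
      have hm'0 : 0 < m' := by
        rcases Nat.eq_zero_or_pos m' with h2 | h2
        · rw [h2, mul_zero] at hm'
          omega
        · exact h2
      have hlt : m' < m := by
        have h2 := hq.two_le
        have h3 : 2 * m' ≤ m.minFac * m' := Nat.mul_le_mul_right m' h2
        omega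
      have hk2 : ∀ v d, ∃ k : ℤ, (v ≠ r → (m : ℚ) * n v d = k) ∧ (v = r → k = 0) := by
        intro v d
        by_cases hv : v = r
        · exact ⟨0, fun h2 => absurd hv h2, fun _ => rfl⟩
        · obtain ⟨k, hk'⟩ := hk v hv d
          exact ⟨k, fun _ => hk', fun h2 => absurd h2 hv⟩
      choose k hk3 hk4 using hk2
      have hk5 : ∀ v, v ≠ r → ∀ d, (m : ℚ) * n v d = (k v d : ℚ) := fun v hv d => hk3 v d hv
      have hsup : ∀ v d, d < a ∨ b < d → ((k v d : ℤ) : ZMod m.minFac) = 0 := by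
        intro v d hd
        have h2 : k v d = 0 := by
          by_cases hv : v = r
          · exact hk4 v d hv
          · have h3 := hk5 v hv d
            rw [hs v d hd, mul_zero] at h3
            exact_mod_cast h3.symm
        rw [h2, Int.cast_zero]
      have hlap : ∀ w, w ≠ r → ∀ d,
          Lap f p r (fun v e => ((k v e : ℤ) : ZMod m.minFac)) w d = 0 := by
        intro w hw d
        obtain ⟨M, hM⟩ := h w hw d
        have h2 := Iu_cast (f := f) (p := p) hk5 hw d
        rw [hM] at h2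
        have h3 : Lap f p r k w d = (m : ℤ) * M := by exact_mod_cast h2
        rw [← Iu_mod, h3, ZMod.intCast_zmod_eq_zero_iff_dvd]
        have h4 : ((m.minFac : ℕ) : ℤ) ∣ (m : ℤ) := by exact_mod_cast Nat.minFac_dvd m
        exact Dvd.dvd.mul_right h4 M
      have hzero := lap_inj hD (fun v e => ((k v e : ℤ) : ZMod m.minFac)) a b hsup hlap
      refine ih m' hlt hm'0 ?_
      intro v hv d
      have h2 : ((k v d : ℤ) : ZMod m.minFac) = 0 := hzero v hv d
      rw [ZMod.intCast_zmod_eq_zero_iff_dvd] at h2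
      obtain ⟨c, hc⟩ := h2
      refine ⟨c, ?_⟩
      have h3 := hk5 v hv d
      rw [hc, hm'] at h3
      have h4 : ((m.minFac : ℕ) : ℚ) ≠ 0 := by exact_mod_cast hq.ne_zero
      have h5 : ((m.minFac : ℕ) : ℚ) * ((m' : ℚ) * n v d) = ((m.minFac : ℕ) : ℚ) * (c : ℚ) := by
        have h6 : ((m.minFac * m' : ℕ) : ℚ) = ((m.minFac : ℕ) : ℚ) * (m' : ℚ) := Nat.cast_mul _ _
        rw [← hm'] at h3 h6
        rw [← mul_assoc, ← h6, h3]
        push_cast
        ring
      exact mul_left_cancel₀ h4 h5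

theorem lap_int [Fintype V] [DecidableEq V] {f p : V → V} {r : V} (hD : Dat f p r)
    (n : V → ℤ → ℚ) (a b : ℤ) (hs : ∀ v d, d < a ∨ b < d → n v d = 0)
    (h : ∀ w, w ≠ r → ∀ d, ∃ m : ℤ, Lap f p r n w d = m) :
    ∀ v, v ≠ r → ∀ d, ∃ m : ℤ, n v d = m := by
  refine Iu_main hD n a b hs h (∏ v : V, ∏ d ∈ Finset.Icc a b, (n v d).den) ?_ ?_
  · exact prod_pos fun v _ => prod_pos fun d _ => (n v d).den_pos
  · intro v _ d
    by_cases hd : d ∈ Finset.Icc a b
    · obtain ⟨c, hc⟩ : (n v d).den ∣ ∏ v : V, ∏ d ∈ Finset.Icc a b, (n v d).den :=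
        (dvd_prod_of_mem (fun d => (n v d).den) hd).trans
          (dvd_prod_of_mem (fun v => ∏ d ∈ Finset.Icc a b, (n v d).den) (mem_univ v))
      refine ⟨(c : ℤ) * (n v d).num, ?_⟩
      rw [hc, Nat.cast_mul]
      have h1 : ((n v d).den : ℚ) * n v d = (n v d).num := by
        rw [mul_comm]
        exact Rat.mul_den_eq_num (n v d)
      calc (((n v d).den : ℕ) : ℚ) * (c : ℚ) * n v d = (c : ℚ) * ((((n v d).den : ℕ) : ℚ) * n v d) := by ring
        _ = (c : ℚ) * ((n v d).num : ℚ) := by rw [h1]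
        _ = (((c : ℤ) * (n v d).num : ℤ) : ℚ) := by push_cast; ring
    · refine ⟨0, ?_⟩
      have h1 : n v d = 0 := by
        apply hs v d
        rw [mem_Icc] at hd
        by_contra h2
        rw [not_or, not_lt, not_lt] at h2
        exact hd h2
      rw [h1, mul_zero, Int.cast_zero]

end ITA
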