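import Mathlib

/-!
# ITA: a nonzero divisor

The coefficients of `y` are constant on the infinite sets `u * g ^ k`, so they vanish.
-/

set_option autoImplicit false

namespace ITA

open Finset

theorem sub_one_inj {G : Type} [Group G] {g : G} (deg : G → ℤ)
    (hg : (∀ u, deg (u * g) = deg u + 1) ∨ (∀ u, deg (u * g) = deg u - 1)) {y : MonoidAlgebra ℤ G}
    (hy : y * (MonoidAlgebra.single g 1 - 1) = 0) : y = 0 := by
  have h1 : y * MonoidAlgebra.single g 1 = y := by
    rw [mul_sub, mul_one] at hy
    exact sub_eq_zero.1 hy
  have h2 : ∀ u, y.coeff (u * g) = y.coeff u := by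
    intro u
    have h3 := MonoidAlgebra.coeff_mul_single_apply y (1 : ℤ) g (u * g)
    rw [h1, mul_inv_cancel_right, mul_one] at h3
    exact h3
  have h4 : ∀ (k : ℕ) (u : G), y.coeff (u * g ^ k) = y.coeff u := by
    intro k
    induction k with
    | zero => intro u; rw [pow_zero, mul_one]
    | succ k ih => intro u; rw [pow_succ, ← mul_assoc, h2, ih]
  have h5 : ∀ u : G, Function.Injective fun k : ℕ => u * g ^ k := by
    intro u
    rcases hg with hg | hg
    · have h6 : ∀ k : ℕ, deg (u * g ^ k) = deg u + k := by
        intro k
        induction k with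
        | zero => rw [pow_zero, mul_one]; simp
        | succ k ih => rw [pow_succ, ← mul_assoc, hg, ih]; push_cast; ring
      intro a b hab
      have h7 := congrArg deg hab
      simp only [h6] at h7
      omega
    · have h6 : ∀ k : ℕ, deg (u * g ^ k) = deg u - k := by
        intro k
        induction k with
        | zero => rw [pow_zero, mul_one]; simp
        | succ k ih => rw [pow_succ, ← mul_assoc, hg, ih]; push_cast; ring
      intro a b hab
      have h7 := congrArg deg hab
      simp only [h6] at h7
      omega
  apply MonoidAlgebra.coeff_injective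
  ext u
  by_contra hu
  have hu' : y.coeff u ≠ 0 := hu
  have h8 : ∀ k : ℕ, (fun k : ℕ => u * g ^ k) k ∈ (y.coeff.support : Set G) := by
    intro k
    rw [mem_coe, Finsupp.mem_support_iff]
    show y.coeff (u * g ^ k) ≠ 0
    rw [h4]
    exact hu'
  exact Set.infinite_of_injective_forall_mem (h5 u) h8 (finite_toSet _)

end ITA
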