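import Pool.Agent.ITA.Cc
import Pool.Agent.ITA.So
import Pool.Agent.ITA.Lot

/-!
# ITA: the Jacobian matrix, edges directed to the root

`jac_in`: with `⟦g⟧ = MonoidAlgebra.single g 1` and `N e w = [i e = w] - [l e = w] (1 - ⟦x (l e)⟧) - [t e = w] ⟦x (l e)⟧`
one has `jac i t l x e w * (⟦x w⟧ - 1) = (⟦x (i e)⟧ - 1) * N e w`, so `core_edges` for `Z e = y e * (⟦x (i e)⟧ - 1)` gives
`Z = 0`, and `y = 0` by `sub_one_inj`.
-/

set_option autoImplicit false

namespace ITA

open Finset
open scoped Classical

variable {V : Type}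

private theorem Ji_mul {G : Type} [Group G] (g h : G) :
    (MonoidAlgebra.single g (1 : ℤ)) * MonoidAlgebra.single h (1 : ℤ)
      = MonoidAlgebra.single (g * h) 1 := by
  rw [MonoidAlgebra.single_mul_single, one_mul]

private theorem Ji_key [DecidableEq V] {G : Type} [Group G] (x : V → G) {E : Type} (i t l : E → V)
    (hrel : ∀ e, x (i e) * x (l e) = x (l e) * x (t e)) (e : E) (w : V) :
    jac i t l x e w * (MonoidAlgebra.single (x w) 1 - 1) =
      (MonoidAlgebra.single (x (i e)) 1 - 1) *
        ((if i e = w then 1 else 0)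
          - (if l e = w then 1 - MonoidAlgebra.single (x (l e)) (1 : ℤ) else 0)
          - (if t e = w then MonoidAlgebra.single (x (l e)) (1 : ℤ) else 0)) := by
  have h2 : (MonoidAlgebra.single (x (l e)) (1 : ℤ)) * MonoidAlgebra.single (x (t e)) (1 : ℤ)
      = (MonoidAlgebra.single (x (i e)) (1 : ℤ)) * MonoidAlgebra.single (x (l e)) (1 : ℤ) := by
    rw [Ji_mul, Ji_mul, hrel]
  have ei : (if i e = w then (1 : MonoidAlgebra ℤ G) else 0) * (MonoidAlgebra.single (x w) 1 - 1)
      = if i e = w then MonoidAlgebra.single (x (i e)) 1 - 1 else 0 := by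
    split_ifs with h
    · rw [one_mul, h]
    · rw [zero_mul]
  have el : (if l e = w then MonoidAlgebra.single (x (i e)) (1 : ℤ) else 0)
        * (MonoidAlgebra.single (x w) 1 - 1)
      = if l e = w then MonoidAlgebra.single (x (i e)) (1 : ℤ)
        * (MonoidAlgebra.single (x (l e)) 1 - 1) else 0 := by
    split_ifs with h
    · rw [h]
    · rw [zero_mul]
  have el' : (if l e = w then (1 : MonoidAlgebra ℤ G) else 0) * (MonoidAlgebra.single (x w) 1 - 1)
      = if l e = w then MonoidAlgebra.single (x (l e)) 1 - 1 else 0 := by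
    split_ifs with h
    · rw [one_mul, h]
    · rw [zero_mul]
  have et : (if t e = w then MonoidAlgebra.single (x (l e)) (1 : ℤ) else 0)
        * (MonoidAlgebra.single (x w) 1 - 1)
      = if t e = w then (MonoidAlgebra.single (x (i e)) (1 : ℤ) - 1)
        * MonoidAlgebra.single (x (l e)) 1 else 0 := by
    split_ifs with h
    · rw [← h, mul_sub, mul_one, h2, sub_mul, one_mul]
    · rw [zero_mul]
  have hj : jac i t l x e w = (if i e = w then 1 else 0)
    + (if l e = w then MonoidAlgebra.single (x (i e)) 1 else 0)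
    - (if t e = w then MonoidAlgebra.single (x (l e)) 1 else 0)
    - (if l e = w then 1 else 0) := rfl
  rw [hj, sub_mul, sub_mul, add_mul, ei, el, el', et]
  set I : MonoidAlgebra ℤ G := MonoidAlgebra.single (x (i e)) 1
  set L : MonoidAlgebra ℤ G := MonoidAlgebra.single (x (l e)) 1
  have hA : (I - 1) * (if i e = w then 1 else 0) = if i e = w then I - 1 else 0 := by
    split_ifs
    · rw [mul_one]
    · rw [mul_zero]
  have hB : (I - 1) * (if l e = w then 1 - L else 0)
      = - (if l e = w then I * (L - 1) else 0) + (if l e = w then L - 1 else 0) := by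
    split_ifs
    · noncomm_ring
    · rw [mul_zero, neg_zero, add_zero]
  have hC : (I - 1) * (if t e = w then L else 0) = if t e = w then (I - 1) * L else 0 := by
    split_ifs
    · rfl
    · rw [mul_zero]
  rw [mul_sub (I - 1), mul_sub (I - 1), hA, hB, hC]
  abel

theorem jac_in [Fintype V] [DecidableEq V] {f p : V → V} {r : V} (hD : Dat f p r) {G : Type}
    [Group G] (x : V → G) (deg : G → ℤ) (hdeg : ∀ g v, deg (g * x v) = deg g + 1)
    (hκ : ∀ h : V → ℤ → ℚ, Harm f p r h → ∃ κ : G → ℚ, ∀ g v, κ (g * x v) = κ g + h v (deg g))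
    {E : Type} [Fintype E] (i t l : E → V) (hrel : ∀ e, x (i e) * x (l e) = x (l e) * x (t e))
    (hinj : Function.Injective i) (har : ∀ e, i e ≠ r)
    (hsurj : ∀ v, v ≠ r → ∃ e, i e = v) (hf : ∀ e, f (i e) = l e) (hp : ∀ e, p (i e) = t e)
    (y : E → MonoidAlgebra ℤ G) (hy : ∀ v, ∑ e, y e * jac i t l x e v = 0) : y = 0 := by
  have hZ := core_edges hD x deg hdeg hκ i t l hinj har hsurj hf hp
    (fun e => y e * (MonoidAlgebra.single (x (i e)) 1 - 1))
    (by
      intro w _
      have h1 := congrArg (fun z => z * (MonoidAlgebra.single (x w) (1 : ℤ) - 1)) (hy w)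
      simp only [Finset.sum_mul, zero_mul] at h1
      refine Eq.trans ?_ h1
      refine Finset.sum_congr rfl (fun e _ => ?_)
      rw [mul_assoc (y e), mul_assoc (y e), Ji_key x i t l hrel e w])
  funext e
  exact sub_one_inj (g := x (i e)) deg (Or.inl (fun u => hdeg u (i e))) (hZ e)

end ITA
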