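import Pool.Agent.ITA.Le
import Pool.Agent.ITA.Ce

/-!
# ITA: a cycle of leading terms

`lead_step` gives a map on the set of vertices with a leading value; its cycle has total level change zero and total
value change at most zero.
-/

set_option autoImplicit false

namespace ITA

open Finset
open scoped Classical

variable {V : Type} {f p : V → V} {r : V} {F : V → Bool} {τ : V → ℤ}

theorem lead_cycle [Fintype V] [DecidableEq V] (hD : Dat f p r) (hE : Ex f p r τ F) {G : Type}
    [Group G] (x : V → G) (h : V → ℤ → ℚ) (pos : G → ℤ × ℚ)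
    (hpos : ∀ g v, pos (g * x v) = ((pos g).1 + 1, (pos g).2 + h v (pos g).1))
    (c : V → G → ℤ) (hfin : ∀ v, (Function.support (c v)).Finite)
    (hc : ∀ w, w ≠ r → ∀ g, c w g = ∑ v ∈ univ.erase r,
      ((if f v = w then c v g - c v (g * (x (f v))⁻¹) else 0) +
        (if p v = w then c v (g * (x (f v))⁻¹) else 0)))
    (hlow : ∀ v, v ≠ r → ∀ g, c v g ≠ 0 → τ v ≤ (pos g).1)
    (hne : ∃ v g, v ≠ r ∧ c v g ≠ 0 ∧ (pos g).1 = τ v) :
    ∃ (n : ℕ) (y : ℕ → V), Cyc (fun j i => QQ f p F i j ≠ 0) n y ∧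
      ∑ a ∈ range n, (if F (y a) then (-1 : ℤ) else 1) = 0 ∧
      ∑ a ∈ range n, (if F (y a) then - h (f (y a)) (τ (y a)) else h (f (y a)) (τ (y a))) ≤ 0 := by
  have hnV : Nonempty V := ⟨r⟩
  set J : Set V := {j | j ≠ r ∧ ∃ a, Lead c pos τ j a} with hJ
  have hJne : J.Nonempty := by
    obtain ⟨v, g, hv, hg, hd⟩ := hne
    exact ⟨v, hv, lead_exists c pos (hfin v) hg hd⟩
  have hval : ∀ j ∈ J, ∃ a, Lead c pos τ j a := fun j hj => hj.2
  choose! av hav using hval
  have hstep : ∀ j ∈ J, ∃ i, i ∈ J ∧ QQ f p F i j ≠ 0 ∧ lv τ (!F i) i = lv τ (F j) j ∧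
      av i + (if F i then 0 else h (f i) (τ i)) ≤ av j + (if F j then h (f j) (τ j) else 0) := by
    intro j hj
    obtain ⟨i, a', hir, hQ, ha', hlv, hle⟩ :=
      lead_step hD hE x h pos hpos c hfin hc hlow hj.1 (hav j hj)
    have hi : i ∈ J := ⟨hir, a', ha'⟩
    refine ⟨i, hi, hQ, hlv, ?_⟩
    rw [lead_unique (hav i hi) ha']
    exact hle
  choose! s hs using hstep
  obtain ⟨n, y, hy, hyJ⟩ := cyc_exists J hJne s (fun j hj => (hs j hj).1)
  have hsucc : ∀ a ∈ range n, y (a + 1) = s (y a) := fun a ha => hy.arc a (mem_range.1 ha)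
  refine ⟨n, y, ⟨hy.pos, hy.inj, ?_, hy.close⟩, ?_, ?_⟩
  · intro a ha
    show QQ f p F (y (a + 1)) (y a) ≠ 0
    rw [hsucc a (mem_range.2 ha)]
    exact (hs (y a) (hyJ a)).2.1
  · have h1 : ∀ a ∈ range n, τ (y (a + 1)) + (if F (y (a + 1)) then (0 : ℤ) else 1) =
        τ (y a) + (if F (y a) then (1 : ℤ) else 0) := by
      intro a ha
      have h2 := (hs (y a) (hyJ a)).2.2.1
      rw [← hsucc a ha] at h2
      unfold lv at h2
      cases hF1 : F (y (a + 1)) <;> cases hF2 : F (y a) <;> rw [hF1, hF2] at h2 <;> simp at h2 ⊢ <;>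
        omega
    have h3 := sum_congr rfl h1
    rw [sum_add_distrib, sum_add_distrib, cyc_sum hy τ,
      cyc_sum hy (fun v => if F v then (0 : ℤ) else 1)] at h3
    have h4 : ∑ a ∈ range n, (if F (y a) then (-1 : ℤ) else 1) =
        ∑ a ∈ range n, (if F (y a) then (0 : ℤ) else 1) -
          ∑ a ∈ range n, (if F (y a) then (1 : ℤ) else 0) := by
      rw [← sum_sub_distrib]
      refine sum_congr rfl (fun a _ => ?_)
      cases F (y a) <;> simp
    rw [h4]
    linarith
  · have h1 : ∀ a ∈ range n,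
        (fun v => av v + (if F v then h (f v) (τ v) else 0)) (y (a + 1)) +
          (fun v => if F v then - h (f v) (τ v) else h (f v) (τ v)) (y (a + 1)) ≤
        (fun v => av v + (if F v then h (f v) (τ v) else 0)) (y a) := by
      intro a ha
      have h2 := (hs (y a) (hyJ a)).2.2.2
      rw [← hsucc a ha] at h2
      show av (y (a + 1)) + (if F (y (a + 1)) then h (f (y (a + 1))) (τ (y (a + 1))) else 0) +
        (if F (y (a + 1)) then - h (f (y (a + 1))) (τ (y (a + 1)))
          else h (f (y (a + 1))) (τ (y (a + 1)))) ≤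
        av (y a) + (if F (y a) then h (f (y a)) (τ (y a)) else 0)
      cases hF1 : F (y (a + 1)) <;> rw [hF1] at h2 <;> simp at h2 ⊢ <;> linarith
    have h3 := sum_le_sum h1
    have h4 := cyc_sum hy (fun v => av v + (if F v then h (f v) (τ v) else 0))
    have h5 := cyc_sum hy (fun v => if F v then - h (f v) (τ v) else h (f v) (τ v))
    rw [sum_add_distrib, h4, h5] at h3
    exact nonpos_of_add_le_right h3

end ITA
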