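import Pool.Agent.ITA.Ex2
import Pool.Agent.ITA.Ca

/-!
# ITA: leading terms

MODULE Le. `pos g = (degree, value)` is the position of `g`, `pos (g * x v) = ((pos g).1 + 1, (pos g).2 + h v (pos g).1)`.
`Lead j a`: `a` is the least value of `(pos g).2` over the `g` with `c j g ≠ 0` of degree `τ j` (and there is such a `g`).
`lead_step`: from `g0` with `c j g0 ≠ 0`, `pos g0 = (τ j, a)` one gets `g` with `co j (F j) g ≠ 0` of degree
`lv τ (F j) j`; by `flow_desc` some `i ≠ r` has `QQ i j ≠ 0` and `co i (!F i) g ≠ 0`; `cross` and `hlow` force the degree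
to be `lv τ (!F i) i`, and the leading value of `i` is bounded by the value at `g`.
-/

set_option autoImplicit false

namespace ITA

open Finset
open scoped Classical

variable {V : Type} {f p : V → V} {r : V} {F : V → Bool} {τ : V → ℤ}

/-- `a` is the least value over the support of `c j` in degree `τ j` -/
def Lead {G : Type} (c : V → G → ℤ) (pos : G → ℤ × ℚ) (τ : V → ℤ) (j : V) (a : ℚ) : Prop :=
  (∃ g, c j g ≠ 0 ∧ pos g = (τ j, a)) ∧ ∀ g, c j g ≠ 0 → (pos g).1 = τ j → a ≤ (pos g).2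

theorem lead_exists {G : Type} (c : V → G → ℤ) (pos : G → ℤ × ℚ) {j : V}
    (hfin : (Function.support (c j)).Finite) {g : G} (hg : c j g ≠ 0) (hd : (pos g).1 = τ j) :
    ∃ a, Lead c pos τ j a := by
  have hne : (hfin.toFinset.filter fun g => (pos g).1 = τ j).Nonempty :=
    ⟨g, Finset.mem_filter.2 ⟨hfin.mem_toFinset.2 hg, hd⟩⟩
  obtain ⟨g0, hg0, hmin⟩ := Finset.exists_min_image _ (fun g => (pos g).2) hne
  have h0 := Finset.mem_filter.1 hg0
  refine ⟨(pos g0).2, ⟨g0, hfin.mem_toFinset.1 h0.1, Prod.ext h0.2 rfl⟩, ?_⟩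
  intro g1 hg1 hd1
  exact hmin g1 (Finset.mem_filter.2 ⟨hfin.mem_toFinset.2 hg1, hd1⟩)

theorem lead_unique {G : Type} {c : V → G → ℤ} {pos : G → ℤ × ℚ} {j : V} {a a' : ℚ}
    (h : Lead c pos τ j a) (h' : Lead c pos τ j a') : a = a' := by
  obtain ⟨⟨g, hg, hp⟩, hmin⟩ := h
  obtain ⟨⟨g', hg', hp'⟩, hmin'⟩ := h'
  have h1 := hmin g' hg' (by rw [hp'])
  have h2 := hmin' g hg (by rw [hp])
  rw [hp'] at h1
  rw [hp] at h2
  exact le_antisymm h1 h2

private theorem Le_start {G : Type} [Group G] (x : V → G) (h : V → ℤ → ℚ) (pos : G → ℤ × ℚ)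
    (hpos : ∀ g v, pos (g * x v) = ((pos g).1 + 1, (pos g).2 + h v (pos g).1))
    (c : V → G → ℤ) (hlow : ∀ v, v ≠ r → ∀ g, c v g ≠ 0 → τ v ≤ (pos g).1)
    {j : V} (hj : j ≠ r) {a : ℚ} (ha : Lead c pos τ j a) :
    ∃ g, co f x c j (F j) g ≠ 0 ∧ (pos g).1 = lv τ (F j) j ∧
      (pos g).2 = a + (if F j then h (f j) (τ j) else 0) := by
  obtain ⟨⟨g0, hg0, hp0⟩, _⟩ := ha
  cases hF : F j with
  | true =>
    refine ⟨g0 * x (f j), ?_, ?_, ?_⟩
    · simp only [co, if_true, mul_inv_cancel_right]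
      exact hg0
    · rw [hpos, hp0]
      simp [lv]
    · rw [hpos, hp0]
      simp
  | false =>
    refine ⟨g0, ?_, ?_, ?_⟩
    · have hz : c j (g0 * (x (f j))⁻¹) = 0 := by
        by_contra hne
        have h1 := hlow j hj _ hne
        have h2 := hpos (g0 * (x (f j))⁻¹) (f j)
        rw [inv_mul_cancel_right, hp0] at h2
        have h3 := congrArg Prod.fst h2
        simp only at h3
        omega
      simp only [co, Bool.false_eq_true, if_false, hz, sub_zero]
      exact hg0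
    · rw [hp0]
      simp [lv]
    · rw [hp0]
      simp

theorem lead_step [Fintype V] [DecidableEq V] (hD : Dat f p r) (hE : Ex f p r τ F) {G : Type}
    [Group G] (x : V → G) (h : V → ℤ → ℚ) (pos : G → ℤ × ℚ)
    (hpos : ∀ g v, pos (g * x v) = ((pos g).1 + 1, (pos g).2 + h v (pos g).1))
    (c : V → G → ℤ) (hfin : ∀ v, (Function.support (c v)).Finite)
    (hc : ∀ w, w ≠ r → ∀ g, c w g = ∑ v ∈ univ.erase r,
      ((if f v = w then c v g - c v (g * (x (f v))⁻¹) else 0) +
        (if p v = w then c v (g * (x (f v))⁻¹) else 0)))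
    (hlow : ∀ v, v ≠ r → ∀ g, c v g ≠ 0 → τ v ≤ (pos g).1)
    {j : V} (hj : j ≠ r) {a : ℚ} (ha : Lead c pos τ j a) :
    ∃ i a', i ≠ r ∧ QQ f p F i j ≠ 0 ∧ Lead c pos τ i a' ∧ lv τ (!F i) i = lv τ (F j) j ∧
      a' + (if F i then 0 else h (f i) (τ i)) ≤ a + (if F j then h (f j) (τ j) else 0) := by
  obtain ⟨g, hg, hg1, hg2⟩ := Le_start (f := f) (F := F) (τ := τ) x h pos hpos c hlow hj ha
  have hflow := flow_desc hD hE.acyc x c hc hj g
  have hsum : ∑ v ∈ univ.erase r, QQ f p F v j * co f x c v (!F v) g ≠ 0 := by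
    intro h0
    rw [h0, add_zero] at hflow
    exact hg hflow
  obtain ⟨i, hi, hne⟩ := Finset.exists_ne_zero_of_sum_ne_zero hsum
  have hir : i ≠ r := (Finset.mem_erase.1 hi).1
  have hQ : QQ f p F i j ≠ 0 := left_ne_zero_of_mul hne
  have hco : co f x c i (!F i) g ≠ 0 := right_ne_zero_of_mul hne
  have hcross : lv τ (F j) j ≤ lv τ (!F i) i := by
    refine cross hD hE hir hj (!F i) ?_
    intro hiff
    apply hQ
    unfold QQ
    rw [sub_eq_zero]
    unfold ind
    by_cases hd1 : Desc f p F j i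
    · rw [if_pos hd1, if_pos (hiff.1 hd1)]
    · rw [if_neg hd1, if_neg (fun h2 => hd1 (hiff.2 h2))]
  have hp' : pos g = ((pos (g * (x (f i))⁻¹)).1 + 1,
      (pos (g * (x (f i))⁻¹)).2 + h (f i) (pos (g * (x (f i))⁻¹)).1) := by
    have h2 := hpos (g * (x (f i))⁻¹) (f i)
    rw [inv_mul_cancel_right] at h2
    exact h2
  have hp1 : (pos g).1 = (pos (g * (x (f i))⁻¹)).1 + 1 := congrArg Prod.fst hp'
  have hp2 : (pos g).2 = (pos (g * (x (f i))⁻¹)).2 + h (f i) (pos (g * (x (f i))⁻¹)).1 :=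
    congrArg Prod.snd hp'
  rw [← hg1] at hcross
  cases hFi : F i with
  | false =>
    rw [hFi] at hco hcross
    simp only [co, Bool.not_false, if_true] at hco
    simp only [lv, Bool.not_false, if_true] at hcross
    have hlo := hlow i hir _ hco
    have hdeg : (pos (g * (x (f i))⁻¹)).1 = τ i := by omega
    obtain ⟨a', ha'⟩ := lead_exists (τ := τ) c pos (hfin i) hco hdeg
    refine ⟨i, a', hir, hQ, ha', ?_, ?_⟩
    · rw [← hg1, hFi]
      simp only [lv, Bool.not_false, if_true]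
      omega
    · rw [hFi, ← hg2, hp2, hdeg]
      simp only [Bool.false_eq_true, if_false]
      have := ha'.2 _ hco hdeg
      linarith
  | true =>
    rw [hFi] at hco hcross
    simp only [co, Bool.not_true, Bool.false_eq_true, if_false] at hco
    simp only [lv, Bool.not_true, Bool.false_eq_true, if_false] at hcross
    have hz : c i (g * (x (f i))⁻¹) = 0 := by
      by_contra hne'
      have hlo := hlow i hir _ hne'
      omega
    rw [hz, sub_zero] at hco
    have hlo := hlow i hir _ hco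
    have hdeg : (pos g).1 = τ i := by omega
    obtain ⟨a', ha'⟩ := lead_exists (τ := τ) c pos (hfin i) hco hdeg
    refine ⟨i, a', hir, hQ, ha', ?_, ?_⟩
    · rw [← hg1, hFi]
      simp only [lv, Bool.not_true, Bool.false_eq_true, if_false]
      omega
    · rw [hFi, ← hg2]
      simp only [if_true, add_zero]
      exact ha'.2 _ hco hdeg

end ITA
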