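import Pool.Agent.ITA.Ext

/-!
# ITA: leaving a set, upper bounds for the sources

`leave`: the path of `F` from `v` leaves the set `S` over an edge of level exactly `l`.  `rhs_le`, `rhs_zero`, `rhs_neg`:
bounds for the sum of `eps` over the vertices of `S` of level `l`.
-/

set_option autoImplicit false

namespace ITA

open Finset
open scoped Classical

variable {V : Type} {f p : V → V} {r : V} {F F' : V → Bool} {τ : V → ℤ}

theorem leave (hF : Acyc f p r F) {l : ℤ} {S : Finset V} (hr : r ∉ S)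
    (hS : Sat f p r τ (l - 1) S) {v : V} (hv : v ∈ S)
    (hy : ∀ y ∈ S, Conn f p r τ l v y → lv τ (F y) y ≤ l) :
    ∃ a ∈ S, Conn f p r τ l v a ∧ tg f p F a ∉ S ∧ lv τ (F a) a = l ∧
      Conn f p r τ l v (tg f p F a) := by
  have hex : ∃ k : ℕ, (tg f p F)^[k] v ∉ S := by
    obtain ⟨k, hk⟩ := hF.2 v
    exact ⟨k, by rw [hk]; exact hr⟩
  obtain ⟨k, hk, hmin⟩ : ∃ k : ℕ, (tg f p F)^[k] v ∉ S ∧ ∀ m < k, (tg f p F)^[m] v ∈ S :=
    ⟨Nat.find hex, Nat.find_spec hex, fun m hm => not_not.1 (Nat.find_min hex hm)⟩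
  have hstep : ∀ u ∈ S, Conn f p r τ l v u → lv τ (F u) u ≤ l ∧ Conn f p r τ l v (tg f p F u) := by
    intro u hu hc
    have h1 := hy u hu hc
    have hur : u ≠ r := fun h => hr (h ▸ hu)
    exact ⟨h1, conn_trans hc (conn_hd hur h1)⟩
  have hconn : ∀ m, m < k → Conn f p r τ l v ((tg f p F)^[m] v) := by
    intro m
    induction m with
    | zero => exact fun _ => conn_refl l v
    | succ m ih =>
        intro hm
        rw [Function.iterate_succ_apply']
        exact (hstep _ (hmin m (by omega)) (ih (by omega))).2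
  obtain ⟨m, rfl⟩ : ∃ m, k = m + 1 := by
    cases k with
    | zero => exact absurd hv hk
    | succ m => exact ⟨m, rfl⟩
  have ha := hmin m (Nat.lt_succ_self m)
  have hca := hconn m (Nat.lt_succ_self m)
  rw [Function.iterate_succ_apply'] at hk
  obtain ⟨h1, h2⟩ := hstep _ ha hca
  have har : (tg f p F)^[m] v ≠ r := fun h => hr (h ▸ ha)
  refine ⟨_, ha, hca, hk, ?_, h2⟩
  by_contra hne
  have hlt : lv τ (F ((tg f p F)^[m] v)) ((tg f p F)^[m] v) ≤ l - 1 := by omega
  exact hk ((hS _ _ (conn_hd har hlt)).1 ha)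

theorem rhs_le (hE : Ex f p r τ F) {l : ℤ} {S : Finset V} (hr : r ∉ S) {v : V}
    (hS : ∀ w ∈ S, Conn f p r τ l v w) :
    ∑ w ∈ S, (if τ w = l then eps F F' w else 0) ≤ 1 := by
  have h1 : ∑ w ∈ S, (if τ w = l then eps F F' w else 0) ≤
      ∑ w ∈ S, (if τ w = l ∧ F w = true then (1 : ℤ) else 0) := by
    refine Finset.sum_le_sum fun w _ => ?_
    unfold eps
    by_cases h : τ w = l <;> cases F w <;> cases F' w <;> simp [h]
  refine h1.trans ?_
  rw [← Finset.sum_filter, Finset.sum_const, nsmul_eq_mul, mul_one]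
  have h2 : (S.filter fun w => τ w = l ∧ F w = true).card ≤ 1 := by
    refine Finset.card_le_one.2 fun a ha b hb => ?_
    rw [Finset.mem_filter] at ha hb
    have har : a ≠ r := fun h => hr (h ▸ ha.1)
    have hbr : b ≠ r := fun h => hr (h ▸ hb.1)
    refine hE.uni l a b har hbr (conn_trans (conn_symm (hS a ha.1)) (hS b hb.1)) ?_ ?_
    · rw [ha.2.2]
      simp only [lv, if_true]
      omega
    · rw [hb.2.2]
      simp only [lv, if_true]
      omega
  exact_mod_cast h2

theorem rhs_zero {l : ℤ} {S : Finset V} (hy : ∀ w ∈ S, lv τ (F w) w ≤ l) :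
    ∑ w ∈ S, (if τ w = l then eps F F' w else 0) ≤ 0 := by
  refine Finset.sum_nonpos fun w hw => ?_
  have h1 := hy w hw
  by_cases h : τ w = l
  · rw [if_pos h]
    cases hF : F w with
    | true =>
        rw [hF] at h1
        simp only [lv, if_true] at h1
        omega
    | false =>
        unfold eps
        rw [hF]
        cases F' w <;> simp
  · rw [if_neg h]

theorem rhs_neg {l : ℤ} {S : Finset V} (hy : ∀ w ∈ S, lv τ (F w) w ≤ l) {y : V} (hyS : y ∈ S)
    (hyτ : τ y = l) (hyF : F' y = true) :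
    ∑ w ∈ S, (if τ w = l then eps F F' w else 0) ≤ -1 := by
  rw [← Finset.add_sum_erase S _ hyS]
  have h1 : ∑ w ∈ S.erase y, (if τ w = l then eps F F' w else 0) ≤ 0 :=
    rhs_zero fun w hw => hy w (Finset.mem_of_mem_erase hw)
  have h2 : (if τ y = l then eps F F' y else 0) = -1 := by
    have h3 := hy y hyS
    rw [if_pos hyτ]
    cases hF : F y with
    | true =>
        rw [hF] at h3
        simp only [lv, if_true] at h3
        omega
    | false =>
        unfold eps
        rw [hF, hyF]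
        simp
  rw [h2]
  omega

end ITA
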