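import Pool.Agent.ITA.Defs

/-!
# ITA: trees with at most one outgoing edge at every vertex

`R a b` means that there is an edge from `a` to `b`; the graph `SimpleGraph.fromRel R` is a tree, no edge is
present in both directions, and no vertex is the tail of two edges. There are `n - 1` edges and the tails of
the edges are distinct, so exactly one vertex `r` has no outgoing edge (`Tr_card`); by connectivity every vertex
reaches `r` along the outgoing edges (`out_tree`).
-/

set_option autoImplicit false

namespace ITA

open Finset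
open scoped Classical

private theorem Tr_card {n : ℕ} (R : Fin n → Fin n → Prop) (hR : ∀ a b, R a b → ¬ R b a)
    (ht : (SimpleGraph.fromRel R).IsTree) (hu : ∀ a b c, R a b → R a c → b = c) :
    (univ.filter fun v => ∃ b, R v b).card + 1 = n := by
  have h := ht.card_edgeFinset
  rw [Fintype.card_fin] at h
  refine Eq.trans ?_ h
  have h2 : (univ.filter fun v => ∃ b, R v b).card = (SimpleGraph.fromRel R).edgeFinset.card := by
    refine Finset.card_bij (fun v hv => s(v, (mem_filter.1 hv).2.choose)) ?_ ?_ ?_
    · intro v hv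
      have h1 := (mem_filter.1 hv).2.choose_spec
      rw [SimpleGraph.mem_edgeFinset, SimpleGraph.mem_edgeSet, SimpleGraph.fromRel_adj]
      refine ⟨fun he => ?_, Or.inl h1⟩
      rw [← he] at h1
      exact hR _ _ h1 h1
    · intro v hv w hw he
      have h1 := (mem_filter.1 hv).2.choose_spec
      have h3 := (mem_filter.1 hw).2.choose_spec
      rcases Sym2.eq_iff.1 he with h4 | h4
      · exact h4.1
      · exfalso
        rw [h4.2] at h1
        rw [← h4.1] at h3
        exact hR _ _ h1 h3
    · intro e he
      induction e using Sym2.inductionOn with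
      | _ a b =>
        rw [SimpleGraph.mem_edgeFinset, SimpleGraph.mem_edgeSet, SimpleGraph.fromRel_adj] at he
        rcases he.2 with h1 | h1
        · have hm : a ∈ univ.filter fun v => ∃ b, R v b := mem_filter.2 ⟨mem_univ _, b, h1⟩
          refine ⟨a, hm, ?_⟩
          have h3 := (mem_filter.1 hm).2.choose_spec
          rw [hu _ _ _ h3 h1]
        · have hm : b ∈ univ.filter fun v => ∃ b, R v b := mem_filter.2 ⟨mem_univ _, a, h1⟩
          refine ⟨b, hm, ?_⟩
          have h3 := (mem_filter.1 hm).2.choose_spec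
          rw [hu _ _ _ h3 h1]
          exact Sym2.eq_swap
  rw [h2]

theorem out_tree {n : ℕ} (R : Fin n → Fin n → Prop) (hR : ∀ a b, R a b → ¬ R b a)
    (ht : (SimpleGraph.fromRel R).IsTree) (hu : ∀ a b c, R a b → R a c → b = c) :
    ∃ (r : Fin n) (p : Fin n → Fin n), p r = r ∧ (∀ a b, R a b → a ≠ r ∧ p a = b) ∧
      (∀ v, v ≠ r → R v (p v)) ∧ ∀ v, ∃ k : ℕ, p^[k] v = r := by
  have hc := Tr_card R hR ht hu
  have hc2 : (univ.filter fun v : Fin n => ¬ ∃ b, R v b).card = 1 := by
    have h1 := Finset.card_filter_add_card_filter_not (s := (univ : Finset (Fin n))) (fun v => ∃ b, R v b)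
    rw [card_univ, Fintype.card_fin] at h1
    omega
  obtain ⟨r, hr⟩ := Finset.card_eq_one.1 hc2
  have hr0 : ¬ ∃ b, R r b := by
    have h1 : r ∈ univ.filter fun v : Fin n => ¬ ∃ b, R v b := by
      rw [hr]
      exact mem_singleton_self r
    exact (mem_filter.1 h1).2
  have hr1 : ∀ v, v ≠ r → ∃ b, R v b := by
    intro v hv
    by_contra h1
    have h2 : v ∈ univ.filter fun v : Fin n => ¬ ∃ b, R v b := mem_filter.2 ⟨mem_univ _, h1⟩
    rw [hr] at h2
    exact hv (mem_singleton.1 h2)
  have hp : ∃ p : Fin n → Fin n, p r = r ∧ ∀ v, v ≠ r → R v (p v) := by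
    refine ⟨fun v => if h : ∃ b, R v b then h.choose else v, ?_, ?_⟩
    · exact dif_neg hr0
    · intro v hv
      have h1 : (fun v => if h : ∃ b, R v b then h.choose else v) v = (hr1 v hv).choose :=
        dif_pos (hr1 v hv)
      rw [h1]
      exact (hr1 v hv).choose_spec
  obtain ⟨p, hpr, hp⟩ := hp
  have hq : ∀ a b, R a b → a ≠ r ∧ p a = b := by
    intro a b hab
    have h1 : a ≠ r := fun h => hr0 ⟨b, h ▸ hab⟩
    exact ⟨h1, hu _ _ _ (hp a h1) hab⟩
  refine ⟨r, p, hpr, hq, hp, ?_⟩
  have hw : ∀ v w : Fin n, (SimpleGraph.fromRel R).Walk v w → (∃ k : ℕ, p^[k] v = r) →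
      ∃ k : ℕ, p^[k] w = r := by
    intro v w W
    induction W with
    | nil => exact id
    | @cons a b c hab W ih =>
      rintro ⟨k, hk⟩
      refine ih ?_
      rw [SimpleGraph.fromRel_adj] at hab
      rcases hab.2 with h1 | h1
      · obtain ⟨h2, h3⟩ := hq a b h1
        cases k with
        | zero => exact absurd hk h2
        | succ k =>
          refine ⟨k, ?_⟩
          rw [Function.iterate_succ_apply, h3] at hk
          exact hk
      · obtain ⟨h2, h3⟩ := hq b a h1
        refine ⟨k + 1, ?_⟩
        rw [Function.iterate_succ_apply, h3]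
        exact hk
  intro v
  obtain ⟨W⟩ := ht.connected.preconnected r v
  exact hw r v W ⟨0, rfl⟩

end ITA
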