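import Pool.Agent.ITA.Ji
import Pool.Agent.ITA.Jo
import Pool.Agent.ITA.Fb
import Pool.Agent.ITA.Tr

/-!
# ITA: labelled oriented trees directed to one vertex are aspherical

Assembly of the theorem: the tree gives the maps `p` (parent) and `f` (label), the Fox derivatives are the entries
of `jac`, and `jac_in`, `jac_out` show that the kernel of the boundary map is zero.
-/

set_option autoImplicit false

namespace ITA

open Finset
open scoped Classical

private theorem main_inj {n : ℕ} (L : Fin n → Fin n → Option (Fin n))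
    (h : ∀ y : Edge L → MonoidAlgebra ℤ (LOTGroup L),
      (∀ v, ∑ e, y e * jac (fun e : Edge L => e.1.1) (fun e : Edge L => e.1.2) (lab L) (gen L) e v = 0) →
        y = 0) : Aspherical L := by
  intro a b hab
  have h1 : (fun e => a e - b e) = 0 := by
    apply h
    intro v
    have h2 : boundary L a v = boundary L b v := by rw [hab]
    have h3 : boundary L a v - boundary L b v = 0 := sub_eq_zero.2 h2
    unfold boundary at h3
    rw [← Finset.sum_sub_distrib] at h3
    rw [← h3]
    refine Finset.sum_congr rfl (fun e _ => ?_)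
    rw [fox_rel, sub_mul]
  funext e
  have h2 := congrFun h1 e
  exact sub_eq_zero.1 h2

theorem asph_in {n : ℕ} (L : Fin n → Fin n → Option (Fin n)) (hL : IsLOT L)
    (h : ∀ a b c, (L a b).isSome = true → (L a c).isSome = true → b = c) : Aspherical L := by
  obtain ⟨r, p, hpr, h1, h2, h3⟩ := out_tree (fun a b => (L a b).isSome = true)
    (fun a b hab => by rw [hL.1 a b hab]; simp) hL.2 h
  let f : Fin n → Fin n := fun v => if hv : v ≠ r then (L v (p v)).get (h2 v hv) else r
  have hD : Dat f p r := ⟨by simp [f], hpr, h3⟩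
  have hr : ∀ e : Edge L, e.1.1 ≠ r := fun e => (h1 e.1.1 e.1.2 e.2).1
  have hp : ∀ e : Edge L, p e.1.1 = e.1.2 := fun e => (h1 e.1.1 e.1.2 e.2).2
  have hf : ∀ e : Edge L, f e.1.1 = lab L e := by
    intro e
    have h4 : f e.1.1 = (L e.1.1 (p e.1.1)).get (h2 e.1.1 (hr e)) := by
      simp only [f]
      rw [dif_pos (hr e)]
    rw [h4]
    unfold lab
    congr 1
    rw [hp e]
  obtain ⟨deg, hdeg, hκ⟩ := deg_in L hr hf hp
  apply main_inj
  intro y hy
  refine jac_in hD (gen L) deg hdeg hκ (fun e : Edge L => e.1.1) (fun e : Edge L => e.1.2) (lab L)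
    (relator_trivial L) ?_ hr ?_ hf hp y hy
  · intro e e' hee
    have h5 : e.1.1 = e'.1.1 := hee
    apply Subtype.ext
    refine Prod.ext h5 ?_
    rw [← hp e, ← hp e', h5]
  · intro v hv
    exact ⟨⟨(v, p v), h2 v hv⟩, rfl⟩

theorem asph_out {n : ℕ} (L : Fin n → Fin n → Option (Fin n)) (hL : IsLOT L)
    (h : ∀ a b c, (L b a).isSome = true → (L c a).isSome = true → b = c) : Aspherical L := by
  have hg : SimpleGraph.fromRel (fun a b => (L b a).isSome = true)
      = SimpleGraph.fromRel (fun a b => (L a b).isSome = true) := by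
    ext a b
    simp only [SimpleGraph.fromRel_adj]
    rw [or_comm]
  obtain ⟨r, p, hpr, h1, h2, h3⟩ := out_tree (fun a b => (L b a).isSome = true)
    (fun a b hab => by rw [hL.1 b a hab]; simp) (hg ▸ hL.2) h
  let f : Fin n → Fin n := fun v => if hv : v ≠ r then (L (p v) v).get (h2 v hv) else r
  have hD : Dat f p r := ⟨by simp [f], hpr, h3⟩
  have hr : ∀ e : Edge L, e.1.2 ≠ r := fun e => (h1 e.1.2 e.1.1 e.2).1
  have hp : ∀ e : Edge L, p e.1.2 = e.1.1 := fun e => (h1 e.1.2 e.1.1 e.2).2
  have hf : ∀ e : Edge L, f e.1.2 = lab L e := by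
    intro e
    have h4 : f e.1.2 = (L (p e.1.2) e.1.2).get (h2 e.1.2 (hr e)) := by
      simp only [f]
      rw [dif_pos (hr e)]
    rw [h4]
    unfold lab
    congr 1
    rw [hp e]
  obtain ⟨deg, hdeg, hκ⟩ := deg_out L hr hf hp
  apply main_inj
  intro y hy
  refine jac_out hD (gen L) deg hdeg hκ (fun e : Edge L => e.1.1) (fun e : Edge L => e.1.2) (lab L)
    (relator_trivial L) ?_ hr ?_ hf hp y hy
  · intro e e' hee
    have h5 : e.1.2 = e'.1.2 := hee
    apply Subtype.ext
    refine Prod.ext ?_ h5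
    rw [← hp e, ← hp e', h5]
  · intro v hv
    exact ⟨⟨(p v, v), h2 v hv⟩, rfl⟩

end ITA
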