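import Pool.Agent.ITA.Defs

/-!
# ITA: the minimal cycle lemma

`mc`: if the sum of `L` is positive for every list of distinct indices with nonzero principal minor of `Q`, then it is
positive for every cycle of the relation `Q i j ≠ 0`. Strong induction on the length: for a cycle with vanishing minor the
expansion of the determinant has a second nonzero term `σ`; the arcs `b ↦ σ b` close shorter cycles, and the sums over
these cycles, which are positive, add up to the sum over the cycle.
-/

set_option autoImplicit false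

namespace ITA

open Finset
open scoped Classical

private theorem Mc_sub1 {I : Type} {R : I → I → Prop} {n : ℕ} {x : ℕ → I} (hx : Cyc R n x) {t b : ℕ}
    (htb : t ≤ b) (hb : b < n) (hR : R (x b) (x t)) :
    Cyc R (b + 1 - t) (fun u => x (t + u % (b + 1 - t))) := by
  have hm : b + 1 - t = b - t + 1 := by omega
  refine ⟨by omega, ?_, ?_, ?_⟩
  · intro a ha c hc h
    simp only [Nat.mod_eq_of_lt ha, Nat.mod_eq_of_lt hc] at h
    have := hx.inj (t + a) (by omega) (t + c) (by omega) h
    omega
  · intro a ha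
    show R (x (t + a % (b + 1 - t))) (x (t + (a + 1) % (b + 1 - t)))
    rw [Nat.mod_eq_of_lt ha]
    by_cases h : a + 1 < b + 1 - t
    · rw [Nat.mod_eq_of_lt h]
      exact hx.arc (t + a) (by omega)
    · have h' : a + 1 = b + 1 - t := by omega
      have h2 : t + a = b := by omega
      rw [h', Nat.mod_self, add_zero, h2]
      exact hR
  · show x (t + (b + 1 - t) % (b + 1 - t)) = x (t + 0 % (b + 1 - t))
    rw [Nat.mod_self, Nat.zero_mod]

private theorem Mc_sum1 {I Γ : Type} [AddCommGroup Γ] (L : I → Γ) (x : ℕ → I) {t b : ℕ} (htb : t ≤ b) :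
    ∑ u ∈ range (b + 1 - t), L (x (t + u % (b + 1 - t))) =
      ∑ a ∈ range (b + 1), L (x a) - ∑ a ∈ range t, L (x a) := by
  rw [← Finset.sum_Ico_eq_sub _ (by omega : t ≤ b + 1), Finset.sum_Ico_eq_sum_range]
  refine Finset.sum_congr rfl fun u hu => ?_
  rw [Nat.mod_eq_of_lt (Finset.mem_range.1 hu)]

private theorem Mc_sub3 {I : Type} {R : I → I → Prop} {n : ℕ} {x : ℕ → I} (hx : Cyc R n x) {t b : ℕ}
    (htb : b + 1 < t) (ht : t < n) (hR : R (x b) (x t)) :
    Cyc R (n - t + (b + 1)) (fun u => x ((t + u % (n - t + (b + 1))) % n)) := by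
  have hn := hx.pos
  refine ⟨by omega, ?_, ?_, ?_⟩
  · intro a ha c hc h
    simp only [Nat.mod_eq_of_lt ha, Nat.mod_eq_of_lt hc] at h
    have h1 := hx.inj ((t + a) % n) (Nat.mod_lt _ hn) ((t + c) % n) (Nat.mod_lt _ hn) h
    have h2 : ∀ u, u < n - t + (b + 1) → (t + u) % n = if t + u < n then t + u else t + u - n := by
      intro u hu
      split_ifs with h3
      · exact Nat.mod_eq_of_lt h3
      · rw [Nat.mod_eq_sub_mod (by omega), Nat.mod_eq_of_lt (by omega)]
    rw [h2 a ha, h2 c hc] at h1
    split_ifs at h1 <;> omega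
  · intro a ha
    show R (x ((t + a % (n - t + (b + 1))) % n)) (x ((t + (a + 1) % (n - t + (b + 1))) % n))
    rw [Nat.mod_eq_of_lt ha]
    by_cases h : a + 1 < n - t + (b + 1)
    · rw [Nat.mod_eq_of_lt h]
      have h3 := hx.arc ((t + a) % n) (Nat.mod_lt _ hn)
      by_cases h4 : (t + a) % n + 1 < n
      · have h5 : (t + (a + 1)) % n = (t + a) % n + 1 := by
          rw [← add_assoc, Nat.add_mod (t + a) 1 n, Nat.mod_eq_of_lt (by omega : 1 < n), Nat.mod_eq_of_lt h4]
        rw [h5]
        exact h3
      · have h4' : (t + a) % n + 1 = n := by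
          have := Nat.mod_lt (t + a) hn
          omega
        have h5 : (t + (a + 1)) % n = 0 := by
          rw [← add_assoc, Nat.add_mod (t + a) 1 n, Nat.mod_eq_of_lt (by omega : 1 < n), h4', Nat.mod_self]
        rw [h5, ← hx.close]
        rw [h4'] at h3
        exact h3
    · have h' : a + 1 = n - t + (b + 1) := by omega
      have h2 : t + a = b + n := by omega
      rw [h', Nat.mod_self, add_zero, h2, Nat.add_mod_right, Nat.mod_eq_of_lt ht, Nat.mod_eq_of_lt (by omega : b < n)]
      exact hR
  · show x ((t + (n - t + (b + 1)) % (n - t + (b + 1))) % n) = x ((t + 0 % (n - t + (b + 1))) % n)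
    rw [Nat.mod_self, Nat.zero_mod]

private theorem Mc_sum3 {I Γ : Type} [AddCommGroup Γ] (L : I → Γ) (x : ℕ → I) {n t b : ℕ} (htb : b + 1 < t)
    (ht : t < n) :
    ∑ u ∈ range (n - t + (b + 1)), L (x ((t + u % (n - t + (b + 1))) % n)) =
      ∑ a ∈ range n, L (x a) + (∑ a ∈ range (b + 1), L (x a) - ∑ a ∈ range t, L (x a)) := by
  have h1 : ∑ u ∈ range (n - t + (b + 1)), L (x ((t + u % (n - t + (b + 1))) % n)) =
      ∑ u ∈ range (n - t + (b + 1)), L (x ((t + u) % n)) := by
    refine Finset.sum_congr rfl fun u hu => ?_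
    rw [Nat.mod_eq_of_lt (Finset.mem_range.1 hu)]
  have h2 : ∑ u ∈ range (n - t), L (x ((t + u) % n)) =
      ∑ a ∈ range n, L (x a) - ∑ a ∈ range t, L (x a) := by
    rw [← Finset.sum_Ico_eq_sub _ (by omega : t ≤ n), Finset.sum_Ico_eq_sum_range]
    refine Finset.sum_congr rfl fun u hu => ?_
    have := Finset.mem_range.1 hu
    rw [Nat.mod_eq_of_lt (by omega)]
  have h3 : ∑ u ∈ range (b + 1), L (x ((t + (n - t + u)) % n)) = ∑ a ∈ range (b + 1), L (x a) := by
    refine Finset.sum_congr rfl fun u hu => ?_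
    have := Finset.mem_range.1 hu
    have h4 : t + (n - t + u) = u + n := by omega
    rw [h4, Nat.add_mod_right, Nat.mod_eq_of_lt (by omega)]
  rw [h1, Finset.sum_range_add, h2, h3]
  abel

theorem mc {I Γ : Type} [AddCommGroup Γ] [LinearOrder Γ] [IsOrderedAddMonoid Γ]
    (Q : I → I → ℤ) (L : I → Γ)
    (h : ∀ (n : ℕ) (x : ℕ → I), 0 < n → Inj n x →
      (Matrix.of fun a b : Fin n => Q (x a) (x b)).det ≠ 0 → 0 < ∑ a ∈ range n, L (x a))
    (n : ℕ) (x : ℕ → I) (hx : Cyc (fun j i => Q i j ≠ 0) n x) :
    0 < ∑ a ∈ range n, L (x a) := by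
  induction n using Nat.strong_induction_on generalizing x with
  | _ n ih =>
    by_contra hneg
    have hS : ∑ a ∈ range n, L (x a) ≤ 0 := not_lt.1 hneg
    have hdet : (Matrix.of fun a b : Fin n => Q (x a) (x b)).det = 0 := by
      by_contra hd
      exact hneg (h n x hx.pos hx.inj hd)
    have hA : ∀ b t, b < n → t < n → Q (x t) (x b) ≠ 0 → ¬ (t = 0 ∧ b + 1 = n) → t ≠ b + 1 →
        0 < ∑ a ∈ range (b + 1), L (x a) - ∑ a ∈ range t, L (x a) := by
      intro b t hb ht hq h1 h2
      rcases lt_or_gt_of_ne h2 with h3 | h3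
      · have h4 := ih (b + 1 - t) (by omega) _ (Mc_sub1 hx (by omega : t ≤ b) hb hq)
        rw [Mc_sum1 L x (by omega : t ≤ b)] at h4
        exact h4
      · have h4 := ih (n - t + (b + 1)) (by omega) _ (Mc_sub3 hx h3 ht hq)
        rw [Mc_sum3 L x h3 ht] at h4
        refine lt_of_lt_of_le h4 ?_
        exact add_le_of_nonpos_left hS
    obtain ⟨m, rfl⟩ : ∃ m, n = m + 1 := ⟨n - 1, by have := hx.pos; omega⟩
    have hrot : ∀ b : Fin (m + 1), Q (x (finRotate (m + 1) b)) (x b) ≠ 0 := by
      intro b
      by_cases hb : b = Fin.last m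
      · subst hb
        rw [finRotate_last]
        have h1 := hx.arc m (by omega)
        rw [hx.close] at h1
        exact h1
      · rw [coe_finRotate_of_ne_last hb]
        exact hx.arc b b.2
    obtain ⟨σ, hσ, hne⟩ : ∃ σ : Equiv.Perm (Fin (m + 1)), (∀ b, Q (x (σ b)) (x b) ≠ 0) ∧
        σ ≠ finRotate (m + 1) := by
      by_contra hcon
      push Not at hcon
      rw [Matrix.det_apply, Finset.sum_eq_single (finRotate (m + 1))] at hdet
      · have h1 : ∏ b, Q (x (finRotate (m + 1) b)) (x b) ≠ 0 := Finset.prod_ne_zero_iff.2 fun b _ => hrot b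
        rw [Units.smul_def, smul_eq_mul] at hdet
        rcases mul_eq_zero.1 hdet with h2 | h2
        · exact (Units.ne_zero _) h2
        · exact h1 h2
      · intro σ _ hσ
        by_contra h1
        refine hσ (hcon σ ?_)
        intro b hb
        apply h1
        rw [Finset.prod_eq_zero (Finset.mem_univ b) hb, smul_zero]
      · intro h1
        exact absurd (Finset.mem_univ _) h1
    -- the telescoping sum
    have htel : ∑ b : Fin (m + 1), (∑ a ∈ range ((b : ℕ) + 1), L (x a) - ∑ a ∈ range (σ b : ℕ), L (x a)) =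
        ∑ a ∈ range (m + 1), L (x a) := by
      rw [Finset.sum_sub_distrib, Equiv.sum_comp σ (fun b : Fin (m + 1) => ∑ a ∈ range (b : ℕ), L (x a)),
        ← Finset.sum_sub_distrib, Finset.sum_range (fun a => L (x a))]
      refine Finset.sum_congr rfl fun b _ => ?_
      rw [Finset.sum_range_succ, add_sub_cancel_left]
    rw [Fin.sum_univ_castSucc] at htel
    have hnn : ∀ b : Fin m, 0 ≤ ∑ a ∈ range ((b.castSucc : ℕ) + 1), L (x a) -
        ∑ a ∈ range (σ b.castSucc : ℕ), L (x a) := by
      intro b
      by_cases h1 : (σ b.castSucc : ℕ) = (b.castSucc : ℕ) + 1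
      · rw [h1, sub_self]
      · refine (hA _ _ b.castSucc.2 (σ b.castSucc).2 (hσ _) ?_ h1).le
        intro h2
        have := b.2
        simp only [Fin.val_castSucc] at h2
        omega
    by_cases h0 : (σ (Fin.last m) : ℕ) = 0
    · rw [h0] at htel
      simp only [Fin.val_last, Finset.range_zero, Finset.sum_empty, sub_zero] at htel
      have h1 : ∑ b : Fin m, (∑ a ∈ range ((b.castSucc : ℕ) + 1), L (x a) -
          ∑ a ∈ range (σ b.castSucc : ℕ), L (x a)) = 0 := by
        exact add_eq_right.1 htel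
      rw [Finset.sum_eq_zero_iff_of_nonneg fun b _ => hnn b] at h1
      apply hne
      ext b
      refine Fin.lastCases ?_ (fun b => ?_) b
      · rw [finRotate_last, h0]; rfl
      · rw [coe_finRotate_of_ne_last (Fin.castSucc_lt_last b).ne]
        by_contra h2
        have h3 := hA _ _ b.castSucc.2 (σ b.castSucc).2 (hσ _) (by
          intro h2
          have := b.2
          simp only [Fin.val_castSucc] at h2
          omega) h2
        exact h3.ne' (h1 b (Finset.mem_univ b))
    · have h3 := hA _ _ (Fin.last m).2 (σ (Fin.last m)).2 (hσ _) (fun h2 => h0 h2.1) (by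
        have := (σ (Fin.last m)).2
        simp only [Fin.val_last]
        omega)
      have h4 := Finset.sum_nonneg fun b (_ : b ∈ (Finset.univ : Finset (Fin m))) => hnn b
      have h5 := add_pos_of_nonneg_of_pos h4 h3
      rw [htel] at h5
      exact hneg h5

end ITA
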