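import Pool.Agent.ITA.Defs

/-!
# ITA: positions of the elements of a presented group

`exists_pos`: the position of `g` is the image of `(0, 0)` under the permutation of `g⁻¹` given by the action `T` of
the generators. `TT h v` is the shift `(d, q) ↦ (d + 1, q + h v d)`; `tt_rel` is the harmonicity of `h`.
-/

set_option autoImplicit false

namespace ITA

open Finset
open scoped Classical

variable {V : Type}

theorem exists_pos (rels : Set (FreeGroup V)) (s : Bool) (T : V → Equiv.Perm (ℤ × ℚ))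
    (hT : ∀ ρ ∈ rels, FreeGroup.lift (fun v => if s then (T v)⁻¹ else T v) ρ = 1) :
    ∃ pos : PresentedGroup rels → ℤ × ℚ, pos 1 = (0, 0) ∧ ∀ g v,
      pos (g * (if s then PresentedGroup.of v else (PresentedGroup.of v)⁻¹)) = T v (pos g) := by
  refine ⟨fun g => (PresentedGroup.toGroup hT) g⁻¹ (0, 0), ?_, ?_⟩
  · show (PresentedGroup.toGroup hT) (1 : PresentedGroup rels)⁻¹ (0, 0) = (0, 0)
    rw [inv_one, map_one]
    rfl
  · intro g v
    show (PresentedGroup.toGroup hT) (g * (if s then PresentedGroup.of v else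
      (PresentedGroup.of v)⁻¹))⁻¹ (0, 0) = T v ((PresentedGroup.toGroup hT) g⁻¹ (0, 0))
    rw [mul_inv_rev, map_mul, Equiv.Perm.mul_apply]
    congr 1
    cases s with
    | false =>
      simp
    | true =>
      have h1 : PresentedGroup.toGroup hT (PresentedGroup.of v) = (T v)⁻¹ := by
        rw [PresentedGroup.toGroup.of]
        simp
      simp [h1]

/-- the shift `(d, q) ↦ (d + 1, q + h v d)` -/
def TT (h : V → ℤ → ℚ) (v : V) : Equiv.Perm (ℤ × ℚ) where
  toFun x := (x.1 + 1, x.2 + h v x.1)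
  invFun x := (x.1 - 1, x.2 - h v (x.1 - 1))
  left_inv x := by simp
  right_inv x := by simp

theorem tt_rel {f p : V → V} {r : V} {h : V → ℤ → ℚ} (hh : Harm f p r h) {v : V} (hv : v ≠ r) :
    TT h (f v) * TT h v = TT h (p v) * TT h (f v) := by
  refine Equiv.ext fun x => ?_
  show ((x.1 + 1) + 1, (x.2 + h v x.1) + h (f v) (x.1 + 1))
    = ((x.1 + 1) + 1, (x.2 + h (f v) x.1) + h (p v) (x.1 + 1))
  rw [hh.2 v hv x.1]
  refine Prod.ext rfl ?_
  show (x.2 + (h (f v) x.1 - h (f v) (x.1 + 1) + h (p v) (x.1 + 1))) + h (f v) (x.1 + 1)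
    = (x.2 + h (f v) x.1) + h (p v) (x.1 + 1)
  ring

end ITA
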