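import Pool.Agent.ITA.Ext

/-!
# ITA: signs

Elementary properties of the signs `Pos`, `Neg`, `Zer` of a flow, and the effect of exchanging the two choices (the
flow changes its sign).
-/

set_option autoImplicit false

namespace ITA

open Finset
open scoped Classical

variable {V : Type} {f p : V → V} {r : V} {F F' : V → Bool} {τ : V → ℤ} {ν : V → ℤ}

theorem tri (ν : V → ℤ) (F F' : V → Bool) (v : V) :
    Pos ν F F' v ∨ Neg ν F F' v ∨ Zer ν F F' v := by
  unfold Pos Neg Zer eps
  cases F v <;> cases F' v <;> simp <;> omega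

theorem pos_not_neg {v : V} (h : Pos ν F F' v) : ¬ Neg ν F F' v := by
  intro h'
  obtain ⟨h1, h2, h3⟩ := h
  obtain ⟨h4, h5, _⟩ := h'
  exact h3 ⟨by omega, by omega⟩

theorem pos_not_zer {v : V} (h : Pos ν F F' v) : ¬ Zer ν F F' v := by
  exact h.2.2

theorem neg_not_zer {v : V} (h : Neg ν F F' v) : ¬ Zer ν F F' v := by
  exact h.2.2

theorem nn_nonneg {v : V} (h : ¬ Neg ν F F' v) (b : Bool) : 0 ≤ NN ν F F' b v := by
  rcases tri ν F F' v with h1 | h1 | h1
  · obtain ⟨h2, h3, _⟩ := h1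
    cases b
    · exact h3
    · exact h2
  · exact absurd h1 h
  · obtain ⟨h2, h3⟩ := h1
    cases b
    · change 0 ≤ ν v + eps F F' v
      omega
    · change 0 ≤ ν v
      omega

theorem nn_nonpos {v : V} (h : ¬ Pos ν F F' v) (b : Bool) : NN ν F F' b v ≤ 0 := by
  rcases tri ν F F' v with h1 | h1 | h1
  · exact absurd h1 h
  · obtain ⟨h2, h3, _⟩ := h1
    cases b
    · exact h3
    · exact h2
  · obtain ⟨h2, h3⟩ := h1
    cases b
    · change ν v + eps F F' v ≤ 0
      omega
    · change ν v ≤ 0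
      omega

theorem nn_pos {v : V} (h : Pos ν F F' v) : 1 ≤ NN ν F F' (F' v) v := by
  obtain ⟨h1, h2, h3⟩ := h
  unfold eps at h2 h3
  unfold NN eps
  cases hF : F v <;> cases hF' : F' v <;> simp [hF, hF'] at h2 h3 ⊢ <;> omega

theorem nn_neg {v : V} (h : Neg ν F F' v) : NN ν F F' (F v) v ≤ -1 := by
  obtain ⟨h1, h2, h3⟩ := h
  unfold eps at h2 h3
  unfold NN eps
  cases hF : F v <;> cases hF' : F' v <;> simp [hF, hF'] at h2 h3 ⊢ <;> omega

theorem zer_eq {v : V} (h : Zer ν F F' v) : F v = F' v := by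
  have h2 := h.2
  unfold eps at h2
  cases hF : F v <;> cases hF' : F' v <;> simp [hF, hF'] at h2 ⊢

private theorem Sa_eps (F F' : V → Bool) (v : V) : eps F' F v = - eps F F' v := by
  unfold eps
  omega

theorem pos_swap {v : V} : Pos (fun v => - ν v) F' F v ↔ Neg ν F F' v := by
  unfold Pos Neg
  rw [Sa_eps F F' v]
  beta_reduce
  omega

theorem neg_swap {v : V} : Neg (fun v => - ν v) F' F v ↔ Pos ν F F' v := by
  unfold Pos Neg
  rw [Sa_eps F F' v]
  beta_reduce
  omega

theorem zer_swap {v : V} : Zer (fun v => - ν v) F' F v ↔ Zer ν F F' v := by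
  unfold Zer
  rw [Sa_eps F F' v]
  beta_reduce
  omega

private theorem Sa_NN (b : Bool) (v : V) : NN (fun v => - ν v) F' F b v = - NN ν F F' b v := by
  unfold NN
  rw [Sa_eps F F' v]
  cases b
  · simp only [Bool.false_eq_true, if_false]
    omega
  · simp only [if_true]

theorem flow_swap [Fintype V] [DecidableEq V] (h : FlowEq f p r τ F F' ν) :
    FlowEq f p r τ F' F (fun v => - ν v) := by
  intro l U hr hU
  have h1 := h l U hr hU
  have h2 : (∑ v ∈ univ.erase r, ∑ b : Bool, (if lv τ b v = l then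
      NN (fun v => - ν v) F' F b v * (ind (v ∈ U) - ind (hd f p b v ∈ U)) else 0)) =
      -(∑ v ∈ univ.erase r, ∑ b : Bool, (if lv τ b v = l then
        NN ν F F' b v * (ind (v ∈ U) - ind (hd f p b v ∈ U)) else 0)) := by
    rw [← Finset.sum_neg_distrib]
    refine Finset.sum_congr rfl fun v _ => ?_
    rw [← Finset.sum_neg_distrib]
    refine Finset.sum_congr rfl fun b _ => ?_
    rw [Sa_NN]
    split_ifs
    · ring
    · ring
  have h3 : (∑ w ∈ U, if τ w = l then eps F' F w else 0) = -(∑ w ∈ U, if τ w = l then eps F F' w else 0) := by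
    rw [← Finset.sum_neg_distrib]
    refine Finset.sum_congr rfl fun w _ => ?_
    rw [Sa_eps F F' w]
    split_ifs
    · rfl
    · ring
  rw [h2, h3, h1]

theorem sgn_swap {l : ℤ} (h : Sgn f p r τ F F' ν l) : Sgn f p r τ F' F (fun v => - ν v) l := by
  refine ⟨?_, ?_, ?_, ?_⟩
  · intro v hv hc
    exact zer_swap.2 (h.root v hv hc)
  · intro v w hv hw hc h1 h2
    exact h.nmix w v hw hv (Relation.EqvGen.symm _ _ hc) (neg_swap.1 h2) (pos_swap.1 h1)
  · intro v y hv hy hc h1 h2
    exact pos_swap.2 (h.neg v y hv hy hc (pos_swap.1 h1) h2)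
  · intro v y hv hy hc h1 h2
    exact neg_swap.2 (h.pos v y hv hy hc (neg_swap.1 h1) h2)

end ITA
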