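import Pool.Agent.ITA.Sa

/-!
# ITA: lower bound for the flow through the boundary of a set

All terms of the sum are nonnegative (`Sb_term`), and for `v ∈ A` one of them is at least `1`.
-/

set_option autoImplicit false

namespace ITA

open Finset
open scoped Classical

variable {V : Type} {f p : V → V} {r : V} {F F' : V → Bool} {τ : V → ℤ} {ν : V → ℤ}

private theorem Sb_ind1 {P : Prop} (h : P) : ind P = 1 := if_pos h

private theorem Sb_ind0 {P : Prop} (h : ¬ P) : ind P = 0 := if_neg h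

private theorem Sb_term {l : ℤ} {S : Finset V}
    (h1 : ∀ v ∈ S, ¬ Neg ν F F' v)
    (h2 : ∀ v, v ∉ S → v ≠ r → ∀ b, lv τ b v = l → hd f p b v ∈ S → ¬ Pos ν F F' v)
    {v : V} (hv : v ≠ r) (b : Bool) :
    0 ≤ (if lv τ b v = l then NN ν F F' b v * (ind (v ∈ S) - ind (hd f p b v ∈ S)) else 0) := by
  by_cases hl : lv τ b v = l
  · rw [if_pos hl]
    by_cases hvS : v ∈ S
    · rw [Sb_ind1 hvS]
      apply mul_nonneg (nn_nonneg (h1 v hvS) b)
      by_cases hh : hd f p b v ∈ S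
      · rw [Sb_ind1 hh]; norm_num
      · rw [Sb_ind0 hh]; norm_num
    · rw [Sb_ind0 hvS]
      by_cases hh : hd f p b v ∈ S
      · rw [Sb_ind1 hh]
        have h3 := nn_nonpos (h2 v hvS hv b hl hh) b
        linarith
      · rw [Sb_ind0 hh]; norm_num
  · rw [if_neg hl]

theorem flow_lower [Fintype V] [DecidableEq V] {l : ℤ} {S : Finset V} (hr : r ∉ S)
    (h1 : ∀ v ∈ S, ¬ Neg ν F F' v)
    (h2 : ∀ v, v ∉ S → v ≠ r → ∀ b, lv τ b v = l → hd f p b v ∈ S → ¬ Pos ν F F' v)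
    (A : Finset V)
    (hA : ∀ v ∈ A, (v ∈ S ∧ Pos ν F F' v ∧ tg f p F' v ∉ S ∧ lv τ (F' v) v = l) ∨
      (v ∉ S ∧ v ≠ r ∧ Neg ν F F' v ∧ tg f p F v ∈ S ∧ lv τ (F v) v = l)) :
    (A.card : ℤ) ≤ ∑ v ∈ univ.erase r, ∑ b : Bool, (if lv τ b v = l then
      NN ν F F' b v * (ind (v ∈ S) - ind (hd f p b v ∈ S)) else 0) := by
  have hAr : ∀ v ∈ A, v ≠ r := by
    intro v hv
    rcases hA v hv with h | h
    · intro hvr
      rw [hvr] at h
      exact hr h.1
    · exact h.2.1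
  have h3 : (A.card : ℤ) = ∑ v ∈ univ.erase r, (if v ∈ A then (1 : ℤ) else 0) := by
    have h4 : univ.erase r ∩ A = A := by
      ext v
      simp only [mem_inter, mem_erase, mem_univ, and_true]
      exact ⟨fun h => h.2, fun h => ⟨hAr v h, h⟩⟩
    rw [sum_ite_mem, h4, sum_const, nsmul_eq_mul, mul_one]
  rw [h3]
  apply sum_le_sum
  intro v hv
  have hvr : v ≠ r := ne_of_mem_erase hv
  have hnn : ∀ b ∈ (univ : Finset Bool), 0 ≤ (if lv τ b v = l then
      NN ν F F' b v * (ind (v ∈ S) - ind (hd f p b v ∈ S)) else 0) :=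
    fun b _ => Sb_term h1 h2 hvr b
  by_cases hvA : v ∈ A
  · rw [if_pos hvA]
    rcases hA v hvA with ⟨a1, a2, a3, a4⟩ | ⟨a1, _, a2, a3, a4⟩
    · refine le_trans ?_ (single_le_sum hnn (mem_univ (F' v)))
      have a3' : hd f p (F' v) v ∉ S := a3
      rw [if_pos a4, Sb_ind1 a1, Sb_ind0 a3']
      have := nn_pos a2
      linarith
    · refine le_trans ?_ (single_le_sum hnn (mem_univ (F v)))
      have a3' : hd f p (F v) v ∈ S := a3
      rw [if_pos a4, Sb_ind0 a1, Sb_ind1 a3']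
      have := nn_neg a2
      linarith
  · rw [if_neg hvA]
    exact sum_nonneg hnn

end ITA
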