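import Pool.Agent.ITA.Sb
import Pool.Agent.ITA.Lv

/-!
# ITA: a component with a positive vertex

`claimA`: the flow through the boundary of the union `Sc_U` of the components of level `l - 1` with a positive vertex
inside the component of `v` at level `l`. If no vertex of `Sc_U` has its `F'`-edge above `l`, the last edge of level `l`
by which the path of `F'` leaves `Sc_U` gives flow at least `1` (`flow_lower`, `leave`), but the sources contribute at
most `0` (`rhs_zero`); if the `F'`-edge of `y` is above `l` and its `F`-edge is not, the sources contribute at most `-1`.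
-/

set_option autoImplicit false

namespace ITA

open Finset
open scoped Classical

variable {V : Type} {f p : V → V} {r : V} {F F' : V → Bool} {τ : V → ℤ} {ν : V → ℤ}

/-- the union of the components at level `l - 1` with a positive vertex, in the component of `v` at level `l` -/
private noncomputable def Sc_U [Fintype V] (f p : V → V) (r : V) (τ : V → ℤ) (F F' : V → Bool)
    (ν : V → ℤ) (l : ℤ) (v : V) : Finset V :=
  univ.filter fun w => w ≠ r ∧ Conn f p r τ l v w ∧ ∃ u, u ≠ r ∧ Conn f p r τ (l - 1) u w ∧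
    Pos ν F F' u

private theorem Sc_mem [Fintype V] {l : ℤ} {v w : V} :
    w ∈ Sc_U f p r τ F F' ν l v ↔ w ≠ r ∧ Conn f p r τ l v w ∧
      ∃ u, u ≠ r ∧ Conn f p r τ (l - 1) u w ∧ Pos ν F F' u := by
  unfold Sc_U
  rw [mem_filter]
  exact ⟨fun h => h.2, fun h => ⟨mem_univ _, h⟩⟩

private theorem Sc_step [Fintype V] {l : ℤ} (hs : Sgn f p r τ F F' ν (l - 1)) {v a b : V}
    (h : Conn f p r τ (l - 1) a b) (ha : a ∈ Sc_U f p r τ F F' ν l v) :
    b ∈ Sc_U f p r τ F F' ν l v := by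
  rw [Sc_mem] at ha ⊢
  obtain ⟨_, h2, u, hu, hua, hP⟩ := ha
  have hub := conn_trans hua h
  refine ⟨?_, conn_trans h2 (conn_mono (by omega) h), u, hu, hub, hP⟩
  rintro rfl
  exact pos_not_zer hP (hs.root u hu hub)

private theorem Sc_sat [Fintype V] {l : ℤ} (hs : Sgn f p r τ F F' ν (l - 1)) {v : V} :
    Sat f p r τ (l - 1) (Sc_U f p r τ F F' ν l v) := by
  intro a b h
  exact ⟨Sc_step hs h, Sc_step hs (conn_symm h)⟩

private theorem Sc_notr [Fintype V] {l : ℤ} {v : V} : r ∉ Sc_U f p r τ F F' ν l v := by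
  rw [Sc_mem]
  exact fun h => h.1 rfl

private theorem Sc_low [Fintype V] [DecidableEq V] (hfl : FlowEq f p r τ F F' ν) {l : ℤ}
    (hs : Sgn f p r τ F F' ν (l - 1)) {v : V} (A : Finset V)
    (hA : ∀ a ∈ A, a ∈ Sc_U f p r τ F F' ν l v ∧ tg f p F' a ∉ Sc_U f p r τ F F' ν l v ∧
      lv τ (F' a) a = l) :
    (A.card : ℤ) ≤ ∑ w ∈ Sc_U f p r τ F F' ν l v, if τ w = l then eps F F' w else 0 := by
  rw [← hfl l _ Sc_notr (Sc_sat hs)]
  refine flow_lower Sc_notr ?_ ?_ A ?_
  · intro w hw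
    rw [Sc_mem] at hw
    obtain ⟨hw1, _, u, hu, huw, hP⟩ := hw
    exact hs.nmix u w hu hw1 huw hP
  · intro w hw hwr b hb hbU hP
    apply hw
    rw [Sc_mem] at hbU ⊢
    have h1 : Conn f p r τ l w (hd f p b w) := conn_hd hwr hb.le
    exact ⟨hwr, conn_trans hbU.2.1 (conn_symm h1), w, hwr, conn_refl _ _, hP⟩
  · intro a ha
    obtain ⟨h1, h2, h3⟩ := hA a ha
    refine Or.inl ⟨h1, ?_, h2, h3⟩
    rw [Sc_mem] at h1
    obtain ⟨har, _, u, hu, hua, hP⟩ := h1
    exact hs.pos u a hu har hua hP (by omega)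

private theorem Sc_key [Fintype V] [DecidableEq V] (hE' : Ex f p r τ F')
    (hfl : FlowEq f p r τ F F' ν) {l : ℤ} (hs : Sgn f p r τ F F' ν (l - 1)) {v : V}
    (hv : v ∈ Sc_U f p r τ F F' ν l v)
    (h' : ∀ y ∈ Sc_U f p r τ F F' ν l v, lv τ (F' y) y ≤ l)
    (h : ∀ y ∈ Sc_U f p r τ F F' ν l v, lv τ (F y) y ≤ l) : False := by
  obtain ⟨a, ha, _, ha2, ha3, _⟩ := leave hE'.acyc Sc_notr (Sc_sat hs) hv (fun y hy _ => h' y hy)
  have h1 := Sc_low hfl hs (v := v) {a} (by
    intro b hb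
    rw [mem_singleton] at hb
    subst hb
    exact ⟨ha, ha2, ha3⟩)
  have h2 := rhs_zero (F' := F') h
  rw [card_singleton] at h1
  have h3 := h1.trans h2
  norm_num at h3

theorem claimA [Fintype V] [DecidableEq V] (hD : Dat f p r) (hE : Ex f p r τ F)
    (hE' : Ex f p r τ F') (hfl : FlowEq f p r τ F F' ν) {l : ℤ}
    (hs : Sgn f p r τ F F' ν (l - 1)) {v : V} (hv : v ≠ r) (hP : Pos ν F F' v) :
    ¬ Conn f p r τ l v r ∧ ∃ y u, y ≠ r ∧ u ≠ r ∧ Conn f p r τ l v y ∧ l < lv τ (F y) y ∧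
      Conn f p r τ (l - 1) u y ∧ Pos ν F F' u := by
  have hvU : v ∈ Sc_U f p r τ F F' ν l v := by
    rw [Sc_mem]
    exact ⟨hv, conn_refl _ _, v, hv, conn_refl _ _, hP⟩
  constructor
  · intro hc
    have h1 : ∀ y ∈ Sc_U f p r τ F F' ν l v, y ≠ r ∧ Conn f p r τ l y r := by
      intro y hy
      rw [Sc_mem] at hy
      exact ⟨hy.1, conn_trans (conn_symm hy.2.1) hc⟩
    exact Sc_key hE' hfl hs hvU (fun y hy => hE'.root l y (h1 y hy).1 (h1 y hy).2)
      (fun y hy => hE.root l y (h1 y hy).1 (h1 y hy).2)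
  · by_contra hcon
    have h : ∀ y ∈ Sc_U f p r τ F F' ν l v, lv τ (F y) y ≤ l := by
      intro y hy
      by_contra hlt
      rw [Sc_mem] at hy
      obtain ⟨hyr, hvy, u, hu, huy, hPu⟩ := hy
      exact hcon ⟨y, u, hyr, hu, hvy, by omega, huy, hPu⟩
    refine Sc_key hE' hfl hs hvU ?_ h
    intro y hy
    by_contra hlt
    have hy1 := h y hy
    have hτ : τ y = l ∧ F' y = true := by
      unfold lv at hlt hy1
      cases hF : F' y <;> cases hF2 : F y <;> simp only [hF, hF2, if_true, if_false,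
        Bool.false_eq_true] at hlt hy1 <;> first | omega | exact ⟨by omega, rfl⟩
    have h1 := Sc_low hfl hs (v := v) ∅ (by
      intro b hb
      exact absurd hb (notMem_empty b))
    have h2 := rhs_neg (F' := F') h hy hτ.1 hτ.2
    rw [card_empty] at h1
    have h3 := h1.trans h2
    norm_num at h3

end ITA
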