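import Pool.Agent.ITA.Sa

/-!
# ITA: the side of a vertex

`UU` and `WW`: `a` lies in the component of `v` at level `l` and its component at level `l - 1` contains a positive
(negative) vertex. `Side a`: the path of `F'` from `a` meets `UU` before `WW`. `neutral_zer`: if neither `UU a` nor `WW a`,
the same holds on the whole component at level `l - 1`; `neutral_step`, `side_exit`: for such `a` the side does not change
along the path of `F'` to the exit of this component.
-/

set_option autoImplicit false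

namespace ITA

open Finset
open scoped Classical

variable {V : Type} {f p : V → V} {r : V} {F F' : V → Bool} {τ : V → ℤ} {ν : V → ℤ}

/-- the component at level `l - 1` of `a` contains a positive vertex -/
def UU (f p : V → V) (r : V) (τ : V → ℤ) (F F' : V → Bool) (ν : V → ℤ) (l : ℤ) (v a : V) : Prop :=
  Conn f p r τ l v a ∧ ∃ u, u ≠ r ∧ Conn f p r τ (l - 1) u a ∧ Pos ν F F' u

/-- the component at level `l - 1` of `a` contains a negative vertex -/
def WW (f p : V → V) (r : V) (τ : V → ℤ) (F F' : V → Bool) (ν : V → ℤ) (l : ℤ) (v a : V) : Prop :=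
  Conn f p r τ l v a ∧ ∃ u, u ≠ r ∧ Conn f p r τ (l - 1) u a ∧ Neg ν F F' u

/-- the path of `F'` from `a` meets `UU` before `WW` -/
def Side (f p : V → V) (r : V) (τ : V → ℤ) (F F' : V → Bool) (ν : V → ℤ) (l : ℤ) (v a : V) : Prop :=
  Conn f p r τ l v a ∧ ∃ k : ℕ, UU f p r τ F F' ν l v ((tg f p F')^[k] a) ∧
    ∀ m < k, ¬ WW f p r τ F F' ν l v ((tg f p F')^[m] a)

theorem uw {l : ℤ} (hs : Sgn f p r τ F F' ν (l - 1)) {v a : V}
    (hU : UU f p r τ F F' ν l v a) : ¬ WW f p r τ F F' ν l v a := by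
  rintro ⟨_, w, hw, hwa, hn⟩
  obtain ⟨_, u, hu, hua, hp⟩ := hU
  exact hs.nmix u w hu hw (conn_trans hua (conn_symm hwa)) hp hn

theorem uu_side {l : ℤ} {v a : V} (hU : UU f p r τ F F' ν l v a) : Side f p r τ F F' ν l v a := by
  exact ⟨hU.1, 0, hU, fun m hm => absurd hm (Nat.not_lt_zero m)⟩

theorem ww_side {l : ℤ} (hs : Sgn f p r τ F F' ν (l - 1)) {v a : V}
    (hW : WW f p r τ F F' ν l v a) : ¬ Side f p r τ F F' ν l v a := by
  rintro ⟨_, k, hk, hm⟩
  rcases Nat.eq_zero_or_pos k with h | h
  · subst h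
    exact uw hs hk hW
  · exact hm 0 h hW

theorem neutral_zer {l : ℤ} {v a a' : V} (hr : ¬ Conn f p r τ l v r) (hc : Conn f p r τ l v a)
    (hU : ¬ UU f p r τ F F' ν l v a) (hW : ¬ WW f p r τ F F' ν l v a)
    (h : Conn f p r τ (l - 1) a a') :
    a' ≠ r ∧ Conn f p r τ l v a' ∧ ¬ UU f p r τ F F' ν l v a' ∧ ¬ WW f p r τ F F' ν l v a' ∧
      Zer ν F F' a' := by
  have h1 : Conn f p r τ l v a' := conn_trans hc (conn_mono (by omega) h)
  refine ⟨?_, h1, ?_, ?_, ?_⟩
  · rintro rfl
    exact hr h1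
  · rintro ⟨_, u, hu, hua, hp⟩
    exact hU ⟨hc, u, hu, conn_trans hua (conn_symm h), hp⟩
  · rintro ⟨_, u, hu, hua, hp⟩
    exact hW ⟨hc, u, hu, conn_trans hua (conn_symm h), hp⟩
  · have h2 : a' ≠ r := by
      rintro rfl
      exact hr h1
    rcases tri ν F F' a' with h3 | h3 | h3
    · exact absurd ⟨hc, a', h2, conn_symm h, h3⟩ hU
    · exact absurd ⟨hc, a', h2, conn_symm h, h3⟩ hW
    · exact h3

theorem neutral_step {l : ℤ} {v a : V} (hc : Conn f p r τ l v a)
    (hU : ¬ UU f p r τ F F' ν l v a) (hW : ¬ WW f p r τ F F' ν l v a)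
    (ht : Conn f p r τ l v (tg f p F' a)) :
    Side f p r τ F F' ν l v a ↔ Side f p r τ F F' ν l v (tg f p F' a) := by
  constructor
  · rintro ⟨_, k, hk, hm⟩
    cases k with
    | zero => exact absurd hk hU
    | succ k =>
      rw [Function.iterate_succ_apply] at hk
      refine ⟨ht, k, hk, fun m hm' => ?_⟩
      have h := hm (m + 1) (by omega)
      rw [Function.iterate_succ_apply] at h
      exact h
  · rintro ⟨_, k, hk, hm⟩
    refine ⟨hc, k + 1, ?_, fun m hm' => ?_⟩
    · rw [Function.iterate_succ_apply]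
      exact hk
    · cases m with
      | zero => exact hW
      | succ m =>
        rw [Function.iterate_succ_apply]
        exact hm m (by omega)

theorem side_exit (hD : Dat f p r) (hE' : Ex f p r τ F') {l : ℤ} {v a : V}
    (hr : ¬ Conn f p r τ l v r) (hc : Conn f p r τ l v a)
    (hU : ¬ UU f p r τ F F' ν l v a) (hW : ¬ WW f p r τ F F' ν l v a) :
    ∃ z, z ≠ r ∧ Conn f p r τ (l - 1) a z ∧ l - 1 < lv τ (F' z) z ∧
      (Side f p r τ F F' ν l v a ↔ Side f p r τ F F' ν l v z) := by
  obtain ⟨k, h1, h2, h3⟩ := exit_iter hD hE'.acyc τ (l - 1) a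
  have h4 := neutral_zer hr hc hU hW h1
  refine ⟨(tg f p F')^[k] a, h4.1, h1, ?_, ?_⟩
  · rcases h2 with h2 | h2
    · exact absurd h2 h4.1
    · exact h2
  · have h5 : ∀ m ≤ k, (Side f p r τ F F' ν l v a ↔ Side f p r τ F F' ν l v ((tg f p F')^[m] a)) := by
      intro m
      induction m with
      | zero => intro _; exact Iff.rfl
      | succ m ih =>
        intro hm
        refine (ih (by omega)).trans ?_
        have h6 := neutral_zer hr hc hU hW (h3 m (by omega)).1
        have h7 : Conn f p r τ (l - 1) a ((tg f p F')^[m + 1] a) := by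
          rcases Nat.lt_or_ge (m + 1) k with h8 | h8
          · exact (h3 (m + 1) h8).1
          · have h9 : m + 1 = k := by omega
            rw [h9]
            exact h1
        have h8 := neutral_zer hr hc hU hW h7
        rw [Function.iterate_succ_apply'] at h8 ⊢
        exact neutral_step h6.2.1 h6.2.2.1 h6.2.2.2.1 h8.2.1
    exact h5 k le_rfl

end ITA
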