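import Pool.Agent.ITA.Sd
import Pool.Agent.ITA.Sc

/-!
# ITA: the set of vertices on the positive side is a union of components

`side_sat`: the set of all `a` with `Side a` is a union of components at level `l - 1`. If the component of `a` has a
positive (negative) vertex, all its vertices are inside (outside); otherwise two vertices of it have the same exit for
the path of `F'` (`side_exit` and uniqueness of the exit), and the side does not change on the way to the exit.
`side_comp_sat`: the rest of the component of `v` at level `l` is a union of components at level `l - 1` as well.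
-/

set_option autoImplicit false

namespace ITA

open Finset
open scoped Classical

variable {V : Type} {f p : V → V} {r : V} {F F' : V → Bool} {τ : V → ℤ} {ν : V → ℤ}

private theorem Sd2_key (hD : Dat f p r) (hE' : Ex f p r τ F') {l : ℤ}
    (hs : Sgn f p r τ F F' ν (l - 1)) {v : V} (hr : ¬ Conn f p r τ l v r) {a a' : V}
    (h : Conn f p r τ (l - 1) a a') (ha : Side f p r τ F F' ν l v a) :
    Side f p r τ F F' ν l v a' := by
  have hc : Conn f p r τ l v a := ha.1
  have hc' : Conn f p r τ l v a' := conn_trans hc (conn_mono (by omega) h)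
  by_cases hU : UU f p r τ F F' ν l v a
  · obtain ⟨_, u, hu, hua, hp⟩ := hU
    exact uu_side ⟨hc', u, hu, conn_trans hua h, hp⟩
  · by_cases hW : WW f p r τ F F' ν l v a
    · exact absurd ha (ww_side hs hW)
    · obtain ⟨_, _, hU', hW', _⟩ := neutral_zer hr hc hU hW h
      obtain ⟨z, hz, haz, hlz, hiff⟩ := side_exit hD hE' hr hc hU hW
      obtain ⟨z', hz', haz', hlz', hiff'⟩ := side_exit hD hE' hr hc' hU' hW'
      have hzz : z = z' :=
        hE'.uni (l - 1) z z' hz hz' (conn_trans (conn_symm haz) (conn_trans h haz')) hlz hlz'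
      subst hzz
      exact hiff'.2 (hiff.1 ha)

theorem side_sat [Fintype V] (hD : Dat f p r) (hE' : Ex f p r τ F') {l : ℤ}
    (hs : Sgn f p r τ F F' ν (l - 1)) {v : V} (hr : ¬ Conn f p r τ l v r) :
    Sat f p r τ (l - 1) (univ.filter fun a => Side f p r τ F F' ν l v a) := by
  intro a a' h
  simp only [mem_filter, mem_univ, true_and]
  exact ⟨Sd2_key hD hE' hs hr h, Sd2_key hD hE' hs hr (conn_symm h)⟩

theorem side_comp_sat [Fintype V] (hD : Dat f p r) (hE' : Ex f p r τ F') {l : ℤ}
    (hs : Sgn f p r τ F F' ν (l - 1)) {v : V} (hr : ¬ Conn f p r τ l v r) :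
    Sat f p r τ (l - 1)
      (univ.filter fun a => Conn f p r τ l v a ∧ ¬ Side f p r τ F F' ν l v a) := by
  intro a a' h
  simp only [mem_filter, mem_univ, true_and]
  constructor
  · rintro ⟨h1, h2⟩
    exact ⟨conn_trans h1 (conn_mono (by omega) h),
      fun h3 => h2 (Sd2_key hD hE' hs hr (conn_symm h) h3)⟩
  · rintro ⟨h1, h2⟩
    exact ⟨conn_trans h1 (conn_mono (by omega) (conn_symm h)),
      fun h3 => h2 (Sd2_key hD hE' hs hr h h3)⟩

end ITA
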