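import Pool.Agent.ITA.Sf

/-!
# ITA: the sign statement from level to level

MODULE Se. `sgn_base`: below all levels the components are single vertices, so the sign statement is trivial.
`sgn_step`: from level `l - 1` to level `l`, by `claimA` and `claimB`; the negative half follows from the positive half for
the swapped data (`F'`, `F`, `-ν`).
-/

set_option autoImplicit false

namespace ITA

open Finset
open scoped Classical

variable {V : Type} {f p : V → V} {r : V} {F F' : V → Bool} {τ : V → ℤ} {ν : V → ℤ}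

private theorem Se_conn_eq {l : ℤ} (hl : ∀ v b, l < lv τ b v) {v w : V}
    (h : Conn f p r τ l v w) : v = w := by
  induction h with
  | rel a b hab =>
    obtain ⟨_, c, hc, _⟩ := hab
    exact absurd hc (not_le.2 (hl a c))
  | refl a => rfl
  | symm a b _ ih => exact ih.symm
  | trans a b c _ _ ih1 ih2 => exact ih1.trans ih2

theorem sgn_base {l : ℤ} (hl : ∀ v b, l < lv τ b v) : Sgn f p r τ F F' ν l := by
  refine ⟨?_, ?_, ?_, ?_⟩
  · intro v hv hc
    exact absurd (Se_conn_eq hl hc) hv
  · intro v w _ _ hc hP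
    rw [← Se_conn_eq hl hc]
    exact pos_not_neg hP
  · intro v y _ _ hc hP _
    rw [← Se_conn_eq hl hc]
    exact hP
  · intro v y _ _ hc hN _
    rw [← Se_conn_eq hl hc]
    exact hN

private theorem Se_pos [Fintype V] [DecidableEq V] (hD : Dat f p r) (hE : Ex f p r τ F)
    (hE' : Ex f p r τ F') (hfl : FlowEq f p r τ F F' ν) {l : ℤ}
    (hs : Sgn f p r τ F F' ν (l - 1)) (v y : V) (hv : v ≠ r) (hy : y ≠ r)
    (hc : Conn f p r τ l v y) (hP : Pos ν F F' v) (hlt : l < lv τ (F' y) y) : Pos ν F F' y := by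
  by_cases hu : ∃ u, u ≠ r ∧ Conn f p r τ (l - 1) u y ∧ Pos ν F F' u
  · obtain ⟨u, hur, huc, huP⟩ := hu
    exact hs.pos u y hur hy huc huP (by omega)
  · have hyP : ¬ Pos ν F F' y := fun h => hu ⟨y, hy, conn_refl _ _, h⟩
    have hyN : ¬ Neg ν F F' y := fun h => claimB hD hE hE' hfl hs hv hy hc hP h
    have hyZ : Zer ν F F' y := by
      rcases tri ν F F' y with h | h | h
      · exact absurd h hyP
      · exact absurd h hyN
      · exact h
    have hFF := zer_eq hyZ
    obtain ⟨_, y0, u0, hy0, hu0, hc0, hlt0, hcu, hPu⟩ := claimA hD hE hE' hfl hs hv hP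
    have hyy : y = y0 := by
      refine hE.uni l y y0 hy hy0 (conn_trans (conn_symm hc) hc0) ?_ hlt0
      rw [hFF]
      exact hlt
    exact absurd ⟨u0, hu0, by rw [hyy]; exact hcu, hPu⟩ hu

theorem sgn_step [Fintype V] [DecidableEq V] (hD : Dat f p r) (hE : Ex f p r τ F)
    (hE' : Ex f p r τ F') (hfl : FlowEq f p r τ F F' ν) {l : ℤ}
    (hs : Sgn f p r τ F F' ν (l - 1)) : Sgn f p r τ F F' ν l := by
  refine ⟨?_, ?_, ?_, ?_⟩
  · intro v hv hc
    rcases tri ν F F' v with h | h | h
    · exact absurd hc (claimA hD hE hE' hfl hs hv h).1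
    · exact absurd hc (claimA hD hE' hE (flow_swap hfl) (sgn_swap hs) hv (pos_swap.2 h)).1
    · exact h
  · intro v w hv hw hc hP hN
    exact claimB hD hE hE' hfl hs hv hw hc hP hN
  · exact Se_pos hD hE hE' hfl hs
  · intro v y hv hy hc hN hlt
    exact pos_swap.1 (Se_pos hD hE' hE (flow_swap hfl) (sgn_swap hs) v y hv hy hc (pos_swap.2 hN) hlt)

end ITA
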