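import Pool.Agent.ITA.Sd2

/-!
# ITA: no component contains positive and negative vertices

`claimB`: if a component of the level graph contains a positive vertex `v` and a negative vertex `w`, the set `S`
of the vertices on the side of `v` is left by `F'` along an edge of level `l` which starts in a positive vertex, and
entered by `F` along an edge of level `l` which starts in a negative vertex. So the flow through the boundary of
`S` is at least `2` (`flow_lower`), but the sources in `S` are at most `1` (`rhs_le`).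
-/

set_option autoImplicit false

namespace ITA

open Finset
open scoped Classical

variable {V : Type} {f p : V → V} {r : V} {F F' : V → Bool} {τ : V → ℤ} {ν : V → ℤ}

theorem claimB [Fintype V] [DecidableEq V] (hD : Dat f p r) (hE : Ex f p r τ F)
    (hE' : Ex f p r τ F') (hfl : FlowEq f p r τ F F' ν) {l : ℤ}
    (hs : Sgn f p r τ F F' ν (l - 1)) {v w : V} (hv : v ≠ r) (hw : w ≠ r)
    (hc : Conn f p r τ l v w) (hP : Pos ν F F' v) (hN : Neg ν F F' w) : False := by
  obtain ⟨hr, y, u, hyr, hur, hcy, hly, huy, hPu⟩ := claimA hD hE hE' hfl hs hv hP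
  obtain ⟨-, y', u', hyr', hur', hcy', hly', huy', hPu'⟩ :=
    claimA hD hE' hE (flow_swap hfl) (sgn_swap hs) hw (pos_swap.2 hN)
  have hNu' : Neg ν F F' u' := pos_swap.1 hPu'
  have hUy : UU f p r τ F F' ν l v y := ⟨hcy, u, hur, huy, hPu⟩
  have hWy' : WW f p r τ F F' ν l v y' := ⟨conn_trans hc hcy', u', hur', huy', hNu'⟩
  set S : Finset V := univ.filter fun a => Side f p r τ F F' ν l v a with hSdef
  have hmS : ∀ a, a ∈ S ↔ Side f p r τ F F' ν l v a := by
    intro a
    rw [hSdef, Finset.mem_filter]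
    exact ⟨fun h => h.2, fun h => ⟨Finset.mem_univ _, h⟩⟩
  have hrS : r ∉ S := fun h => hr ((hmS r).1 h).1
  have hneS : ∀ a, a ∈ S → a ≠ r := fun a ha h => hrS (h ▸ ha)
  have hvS : v ∈ S := (hmS v).2 (uu_side ⟨conn_refl l v, v, hv, conn_refl (l - 1) v, hP⟩)
  have hwW : WW f p r τ F F' ν l v w := ⟨hc, w, hw, conn_refl (l - 1) w, hN⟩
  have hSsat : Sat f p r τ (l - 1) S := side_sat hD hE' hs hr
  obtain ⟨a, haS, hca, htaS, hla, hcta⟩ := leave (F := F') hE'.acyc hrS hSsat hvS (by
    intro y0 hy0 hc0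
    by_contra hcon
    have h1 : y0 = y' := hE'.uni l y0 y' (hneS y0 hy0) hyr'
      (conn_trans (conn_symm hc0) hWy'.1) (by omega) hly'
    exact ww_side hs (h1 ▸ hWy') ((hmS y0).1 hy0))
  have hPa : Pos ν F F' a := by
    by_cases hU : UU f p r τ F F' ν l v a
    · obtain ⟨-, u1, hu1, hcu1, hPu1⟩ := hU
      exact hs.pos u1 a hu1 (hneS a haS) hcu1 hPu1 (by omega)
    · exfalso
      by_cases hW : WW f p r τ F F' ν l v a
      · exact ww_side hs hW ((hmS a).1 haS)
      · exact htaS ((hmS _).2 ((neutral_step hca hU hW hcta).1 ((hmS a).1 haS)))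
  set S' : Finset V := univ.filter fun a => Conn f p r τ l v a ∧ ¬ Side f p r τ F F' ν l v a
    with hS'def
  have hmS' : ∀ a, a ∈ S' ↔ Conn f p r τ l v a ∧ ¬ Side f p r τ F F' ν l v a := by
    intro a
    rw [hS'def, Finset.mem_filter]
    exact ⟨fun h => h.2, fun h => ⟨Finset.mem_univ _, h⟩⟩
  have hrS' : r ∉ S' := fun h => hr ((hmS' r).1 h).1
  have hwS' : w ∈ S' := (hmS' w).2 ⟨hc, ww_side hs hwW⟩
  have hS'sat : Sat f p r τ (l - 1) S' := side_comp_sat hD hE' hs hr
  obtain ⟨a', haS', hca', htaS', hla', hcta'⟩ := leave (F := F) hE.acyc hrS' hS'sat hwS' (by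
    intro y0 hy0 hc0
    by_contra hcon
    have hne : y0 ≠ r := fun h => hrS' (h ▸ hy0)
    have h1 : y0 = y := hE.uni l y0 y hne hyr
      (conn_trans (conn_symm ((hmS' y0).1 hy0).1) hcy) (by omega) hly
    exact ((hmS' y0).1 hy0).2 (uu_side (h1 ▸ hUy)))
  have hva' : Conn f p r τ l v a' := ((hmS' a').1 haS').1
  have hsa' : ¬ Side f p r τ F F' ν l v a' := ((hmS' a').1 haS').2
  have hna' : a' ≠ r := fun h => hrS' (h ▸ haS')
  have htS : Side f p r τ F F' ν l v (tg f p F a') := by
    by_contra hcon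
    exact htaS' ((hmS' _).2 ⟨conn_trans hc hcta', hcon⟩)
  have hNa' : Neg ν F F' a' := by
    by_cases hU : UU f p r τ F F' ν l v a'
    · exact absurd (uu_side hU) hsa'
    · by_cases hW : WW f p r τ F F' ν l v a'
      · obtain ⟨-, u1, hu1, hcu1, hNu1⟩ := hW
        exact hs.neg u1 a' hu1 hna' hcu1 hNu1 (by omega)
      · exfalso
        have hz : Zer ν F F' a' :=
          (neutral_zer hr hva' hU hW (conn_refl (l - 1) a')).2.2.2.2
        have htt : tg f p F a' = tg f p F' a' := by
          unfold tg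
          rw [zer_eq hz]
        rw [htt] at htS
        exact hsa' ((neutral_step hva' hU hW htS.1).2 htS)
  have haa' : a ≠ a' := fun h => hsa' (h ▸ (hmS a).1 haS)
  have hlow := flow_lower (f := f) (p := p) (r := r) (τ := τ) (ν := ν) (F := F) (F' := F')
    (l := l) (S := S) hrS
    (by
      intro v0 hv0 hN0
      exact ww_side hs ⟨((hmS v0).1 hv0).1, v0, hneS v0 hv0, conn_refl (l - 1) v0, hN0⟩
        ((hmS v0).1 hv0))
    (by
      intro v0 hv0 hne0 b hlb hd0 hP0
      have h1 : Conn f p r τ l v0 (hd f p b v0) := conn_hd hne0 (le_of_eq hlb)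
      have h2 : Conn f p r τ l v v0 := conn_trans ((hmS _).1 hd0).1 (conn_symm h1)
      exact hv0 ((hmS v0).2 (uu_side ⟨h2, v0, hne0, conn_refl (l - 1) v0, hP0⟩)))
    {a, a'}
    (by
      intro v0 hv0
      rw [Finset.mem_insert, Finset.mem_singleton] at hv0
      rcases hv0 with rfl | rfl
      · exact Or.inl ⟨haS, hPa, htaS, hla⟩
      · exact Or.inr ⟨fun h => hsa' ((hmS _).1 h), hna', hNa', (hmS _).2 htS, hla'⟩)
  rw [Finset.card_pair haa'] at hlow
  have heq := hfl l S hrS hSsat
  have hup := rhs_le (f := f) (p := p) (r := r) (τ := τ) (F := F) (F' := F') hE (l := l) hrS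
    (v := v) (fun w0 hw0 => ((hmS w0).1 hw0).1)
  rw [heq] at hlow
  have h3 := le_trans hlow hup
  norm_num at h3

end ITA
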