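import Pool.Agent.ITA.Dz
import Pool.Agent.ITA.Iu

/-!
# ITA: the value differences are not in the span of the relations

A linear combination of the relations with coefficients `n v d` has the coordinate `Lap n w d` at `(w, d)`, `w ≠ r`.
If it is equal to the difference of the values of two choices, all coefficients `n v d` with `v ≠ r` are integers
(`lap_int`), they satisfy the hypothesis of `distinct`, and the choices are equal.
-/

set_option autoImplicit false

namespace ITA

open Finset
open scoped Classical

variable {V : Type} {f p : V → V} {r : V} {F F' : V → Bool} {τ : V → ℤ}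

/-- the relations of harmonic functions -/
noncomputable def rl (f p : V → V) (r : V) (x : V × ℤ) : (V × ℤ) →₀ ℚ :=
  if x.1 = r then Finsupp.single x 1 else
    Finsupp.single x 1 - Finsupp.single (f x.1, x.2) 1 + Finsupp.single (f x.1, x.2 + 1) 1
      - Finsupp.single (p x.1, x.2 + 1) 1

/-- difference of the values of two choices -/
noncomputable def ww [Fintype V] (f : V → V) (τ : V → ℤ) (F F' : V → Bool) : (V × ℤ) →₀ ℚ :=
  ∑ v, Finsupp.single (f v, τ v) (eps F F' v : ℚ)

private theorem Sn_single (a b : V) (d e : ℤ) (c : ℚ) :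
    Finsupp.single (a, d) c (b, e) = if a = b ∧ d = e then c else 0 := by
  rw [Finsupp.single_apply]
  simp only [Prod.mk.injEq]

private theorem Sn_lap [Fintype V] (w : V) (hw : w ≠ r) (d : ℤ) (c : (V × ℤ) →₀ ℚ) :
    (c.sum fun x a => a • rl f p r x) (w, d) = Lap f p r (fun v d => c (v, d)) w d := by
  induction c using Finsupp.induction_linear with
  | zero => simp [Lap]
  | add c1 c2 h1 h2 =>
    rw [Finsupp.sum_add_index' (fun x => by simp) (fun x a b => by rw [add_smul]), Finsupp.add_apply, h1, h2]
    simp only [Lap, Finsupp.add_apply]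
    have : ∀ v : V, ((if f v = w then c1 (v, d) + c2 (v, d) - (c1 (v, d - 1) + c2 (v, d - 1)) else 0) +
        (if p v = w then c1 (v, d - 1) + c2 (v, d - 1) else 0)) =
        ((if f v = w then c1 (v, d) - c1 (v, d - 1) else 0) + (if p v = w then c1 (v, d - 1) else 0)) +
        ((if f v = w then c2 (v, d) - c2 (v, d - 1) else 0) + (if p v = w then c2 (v, d - 1) else 0)) := by
      intro v
      split_ifs <;> ring
    have hsum := (Finset.sum_congr (s₁ := univ.erase r) rfl fun v _ => this v).trans Finset.sum_add_distrib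
    rw [hsum]
    ring
  | single x a =>
    obtain ⟨v0, e0⟩ := x
    rw [Finsupp.sum_single_index (by rw [zero_smul]), Finsupp.smul_apply, smul_eq_mul, Lap]
    by_cases hv : v0 = r
    · have h0 : ∑ v ∈ univ.erase r, ((if f v = w then Finsupp.single (v0, e0) a (v, d) -
          Finsupp.single (v0, e0) a (v, d - 1) else 0) +
          (if p v = w then Finsupp.single (v0, e0) a (v, d - 1) else 0)) = 0 := by
        refine Finset.sum_eq_zero fun v hv' => ?_
        have hne : v0 ≠ v := fun h => (Finset.mem_erase.1 hv').1 (h.symm.trans hv)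
        simp [Sn_single, hne]
      rw [h0, rl, if_pos hv, Sn_single, Sn_single]
      have : v0 ≠ w := fun h => hw (h.symm.trans hv)
      simp [this]
    · have h0 : ∑ v ∈ univ.erase r, ((if f v = w then Finsupp.single (v0, e0) a (v, d) -
          Finsupp.single (v0, e0) a (v, d - 1) else 0) +
          (if p v = w then Finsupp.single (v0, e0) a (v, d - 1) else 0)) =
          (if f v0 = w then (if e0 = d then a else 0) - (if e0 = d - 1 then a else 0) else 0) +
          (if p v0 = w then (if e0 = d - 1 then a else 0) else 0) := by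
        rw [Finset.sum_eq_single v0]
        · simp [Sn_single]
        · intro v _ hne
          have hne' : v0 ≠ v := fun h => hne h.symm
          simp [Sn_single, hne']
        · intro h
          exact absurd (Finset.mem_erase.2 ⟨hv, Finset.mem_univ _⟩) h
      have he : (e0 + 1 = d) ↔ (e0 = d - 1) := by omega
      rw [h0, rl, if_neg hv]
      simp only [Finsupp.sub_apply, Finsupp.add_apply, Sn_single, he]
      split_ifs <;> first | ring1 | (exfalso; tauto)

private theorem Sn_ww [Fintype V] (h0 : eps F F' r = 0) (w : V) (d : ℤ) :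
    ww f τ F F' (w, d) = ((∑ v ∈ univ.erase r, if f v = w then (if τ v = d then eps F F' v else 0) else 0 : ℤ) : ℚ) := by
  rw [ww, Finsupp.finsetSum_apply, ← Finset.add_sum_erase _ _ (Finset.mem_univ r), h0]
  simp only [Int.cast_zero, Finsupp.single_zero, Finsupp.coe_zero, Pi.zero_apply, zero_add, Int.cast_sum]
  refine Finset.sum_congr rfl fun v _ => ?_
  rw [Sn_single]
  by_cases h1 : f v = w <;> by_cases h2 : τ v = d <;> simp [h1, h2]

theorem not_mem [Fintype V] (hD : Dat f p r) (hE : Ex f p r τ F) (hE' : Ex f p r τ F')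
    (h : ww f τ F F' ∈ Submodule.span ℚ (Set.range (rl f p r))) : F = F' := by
  obtain ⟨c, hc⟩ := Finsupp.mem_span_range_iff_exists_finsupp.1 h
  have h0 : eps F F' r = 0 := by
    rw [eps, hE.acyc.1, hE'.acyc.1]
    simp
  set n : V → ℤ → ℚ := fun v d => c (v, d) with hn
  have key : ∀ w, w ≠ r → ∀ d, Lap f p r n w d =
      ((∑ v ∈ univ.erase r, if f v = w then (if τ v = d then eps F F' v else 0) else 0 : ℤ) : ℚ) := by
    intro w hw d
    rw [hn, ← Sn_lap w hw d c, hc, Sn_ww h0]
  obtain ⟨a, ha⟩ := (c.support.image Prod.snd).bddBelow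
  obtain ⟨b, hb⟩ := (c.support.image Prod.snd).bddAbove
  have hs : ∀ v d, d < a ∨ b < d → n v d = 0 := by
    intro v d hd
    by_contra hne
    have hm : d ∈ c.support.image Prod.snd :=
      Finset.mem_image.2 ⟨(v, d), Finsupp.mem_support_iff.2 hne, rfl⟩
    have h1 := ha (Finset.mem_coe.2 hm)
    have h2 := hb (Finset.mem_coe.2 hm)
    omega
  have hint := lap_int hD n a b hs fun w hw d => ⟨_, key w hw d⟩
  set m : V → ℤ → ℤ := fun v d => if v = r then 0 else ⌊n v d⌋ with hm
  have hmn : ∀ v, v ≠ r → ∀ d, ((m v d : ℤ) : ℚ) = n v d := by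
    intro v hv d
    obtain ⟨k, hk⟩ := hint v hv d
    rw [hm]
    simp only [if_neg hv, hk, Int.floor_intCast]
  refine distinct hD hE hE' m ⟨a, fun v d hd => ?_⟩ ?_
  · rw [hm]
    simp only [hs v d (Or.inl hd), Int.floor_zero, ite_self]
  · intro w hw d
    have hk := key w hw d
    rw [Lap] at hk
    have hq : ((m w d : ℤ) : ℚ) = ((∑ v ∈ univ.erase r,
      ((if f v = w then m v d - m v (d - 1) + (if τ v = d then eps F F' v else 0) else 0) +
        (if p v = w then m v (d - 1) else 0)) : ℤ) : ℚ) := by
      rw [hmn w hw d, sub_eq_iff_eq_add.1 hk, Int.cast_sum, Int.cast_sum, ← Finset.sum_add_distrib]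
      refine Finset.sum_congr rfl fun v hv => ?_
      have hv' : v ≠ r := (Finset.mem_erase.1 hv).1
      by_cases h1 : f v = w <;> by_cases h2 : p v = w <;> by_cases h3 : τ v = d <;>
        simp [h1, h2, h3, ← hmn v hv'] <;> ring
    exact_mod_cast hq

end ITA
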